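import Pool.Agent.X190.PN.Tensor

set_option autoImplicit false
set_option linter.unusedSectionVars false

open scoped InnerProductSpace InnerProduct ENNReal Topology Pointwise
open Filter

/-! Amplification of small kernel dimensions. -/

namespace Pool.Agent.X190.PN

open Pool.Agent.W649.ZL Pool.Agent.X190.TW Pool.Agent.X190.AT

universe u v w z y

section
variable (R : Subring ℂ)

theorem DD_mono {G : Type u} {Γ : Type z} [Group G] [Group Γ] (j : G →* Γ)
    (hj : Function.Injective j) : DD R G ⊆ DD R Γ := by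
  rintro r ⟨m, l, A, hA, rfl⟩
  obtain ⟨B, hB, hBR⟩ := exists_map j hj A
  exact ⟨m, l, B, hBR R hA, hB.symm⟩

theorem DD_mul {G : Type u} {H : Type z} [Group G] [Group H] :
    ∀ r ∈ DD R G, ∀ s ∈ DD R H, r * s ∈ DD R (G × H) := by
  classical
  rintro r ⟨m, l, A, hA, rfl⟩ s ⟨m', l', B, hB, rfl⟩
  rw [← kerDimM_tmat]
  apply mem_DD
  rintro ⟨k, k'⟩ j ⟨g, h⟩
  rcases j with ⟨j, j'⟩ | ⟨j, j'⟩
  · rw [tmat_inl]
    split_ifs
    · exact hA _ _ _
    · exact R.zero_mem
    · exact R.zero_mem
  · rw [tmat_inr]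
    split_ifs
    · exact hB _ _ _
    · exact R.zero_mem
    · exact R.zero_mem

/-- countable powers -/
theorem icc_pi {Γ : Type u} [Group Γ] (h : ICC Γ) : ICC (ℕ → Γ) := by
  intro f hf
  obtain ⟨i, hi⟩ : ∃ i, f i ≠ 1 := by
    by_contra hcon
    push Not at hcon
    exact hf (funext hcon)
  intro hfin
  apply h (f i) hi
  refine (hfin.image (fun x : ℕ → Γ => x i)).subset ?_
  rintro _ ⟨g, rfl⟩
  exact ⟨(fun _ => g) * f * (fun _ => g)⁻¹, ⟨fun _ => g, rfl⟩, rfl⟩

theorem torsionFree_pi {Γ : Type u} [Group Γ] (h : ∀ (g : Γ) (n : ℕ), 0 < n → g ^ n = 1 → g = 1) :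
    ∀ (g : ℕ → Γ) (n : ℕ), 0 < n → g ^ n = 1 → g = 1 := by
  intro g n hn hg
  funext i
  exact h (g i) n hn (congrFun hg i)

/-- the shift -/
def shiftHom (Γ : Type u) [Group Γ] : Γ × (ℕ → Γ) →* (ℕ → Γ) where
  toFun x n := Nat.casesOn n x.1 x.2
  map_one' := by
    funext n
    cases n <;> rfl
  map_mul' x y := by
    funext n
    cases n <;> rfl

theorem shiftHom_inj (Γ : Type u) [Group Γ] : Function.Injective (shiftHom Γ) := by
  intro x y h
  apply Prod.ext
  · exact congrFun h 0
  · funext n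
    exact congrFun h (n + 1)

theorem pow_mem_DD {Γ : Type u} [Group Γ] (r : ℝ) (hr : r ∈ DD R Γ) (n : ℕ) :
    r ^ n ∈ DD R (ℕ → Γ) := by
  induction n with
  | zero => rw [pow_zero]; exact one_mem_DD R
  | succ n ih =>
    rw [pow_succ, mul_comm]
    exact DD_mono R (shiftHom Γ) (shiftHom_inj Γ) (DD_mul R r hr _ ih)

theorem wr_ker (G : Type u) [Group G] (x : Wr G) (n : ℕ) (hn : 0 < n) (hx : x ^ n = 1)
    (h1 : x.right = 1) : x = 1 := by
  have h2 : x = SemidirectProduct.inl x.left := by
    apply SemidirectProduct.ext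
    · rfl
    · exact h1
  rw [h2, ← map_pow] at hx
  have h3 : x.left ^ n = 1 := SemidirectProduct.inl_injective (hx.trans (map_one _).symm)
  have h4 : n • Multiplicative.toAdd x.left = 0 := by
    have := congrArg Multiplicative.toAdd h3
    rw [toAdd_pow, toAdd_one] at this
    exact this
  have h5 : Multiplicative.toAdd x.left = 0 := by
    ext y
    have h6 := DFunLike.congr_fun h4 y
    rw [Finsupp.smul_apply, Finsupp.zero_apply, smul_eq_zero] at h6
    rcases h6 with h6 | h6
    · omega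
    · exact h6
  have h6 : x.left = 1 := Multiplicative.toAdd.injective h5
  rw [h2, h6, map_one]

/-- the overgroup with infinite conjugacy classes -/
abbrev Ov (G : Type u) [Group G] : Type u := Wr (G × Multiplicative ℤ)

noncomputable def ovIn (G : Type u) [Group G] : G →* Ov G :=
  (SemidirectProduct.inr (φ := wact (G × Multiplicative ℤ))).comp (MonoidHom.inl G (Multiplicative ℤ))

theorem ovIn_inj (G : Type u) [Group G] : Function.Injective (ovIn G) := by
  intro x y h
  have h1 : MonoidHom.inl G (Multiplicative ℤ) x = MonoidHom.inl G (Multiplicative ℤ) y :=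
    SemidirectProduct.inr_injective h
  exact (Prod.mk.inj h1).1

noncomputable def ovOut (G : Type u) [Group G] : Ov G →* G :=
  (MonoidHom.fst G (Multiplicative ℤ)).comp
    (SemidirectProduct.rightHom (φ := wact (G × Multiplicative ℤ)))

theorem int_pow {x : Multiplicative ℤ} {n : ℕ} (hn : 0 < n) (h : x ^ n = 1) : x = 1 := by
  apply Multiplicative.toAdd.injective
  have h1 := congrArg Multiplicative.toAdd h
  rw [toAdd_pow, toAdd_one, nsmul_eq_mul] at h1
  rcases mul_eq_zero.1 h1 with h2 | h2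
  · have : n = 0 := by exact_mod_cast h2
    omega
  · exact h2

theorem ovOut_ker (G : Type u) [Group G] (x : Ov G) (n : ℕ) (hn : 0 < n) (hx : x ^ n = 1)
    (h1 : ovOut G x = 1) : x = 1 := by
  apply wr_ker _ x n hn hx
  have h2 := congrArg (SemidirectProduct.rightHom (φ := wact (G × Multiplicative ℤ))) hx
  rw [map_pow, map_one] at h2
  have h3 : x.right ^ n = 1 := h2
  apply Prod.ext
  · exact h1
  · have h4 : x.right.2 ^ n = 1 := congrArg Prod.snd h3
    exact int_pow hn h4

theorem ov_icc (G : Type u) [Group G] : ICC (Ov G) := by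
  have : Infinite (Multiplicative ℤ) := Infinite.of_injective Multiplicative.ofAdd
    Multiplicative.ofAdd.injective
  exact wr_icc (G × Multiplicative ℤ)

theorem ov_torsionFree (G : Type u) [Group G] (hG : ∀ (g : G) (n : ℕ), 0 < n → g ^ n = 1 → g = 1) :
    ∀ (x : Ov G) (n : ℕ), 0 < n → x ^ n = 1 → x = 1 := by
  intro x n hn hx
  apply ovOut_ker G x n hn hx
  apply hG _ n hn
  rw [← map_pow, hx, map_one]

/-- finite subgroups of the overgroup -/
theorem ov_finite (G : Type u) [Group G] (H : Subgroup (Ov G)) [Finite H] :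
    ∃ H' : Subgroup G, Finite H' ∧ Nat.card H' = Nat.card H := by
  let f : H →* G := (ovOut G).comp H.subtype
  have hf : Function.Injective f := by
    rw [injective_iff_map_eq_one]
    intro x hx
    apply Subtype.ext
    refine ovOut_ker G (x : Ov G) (Nat.card H) Nat.card_pos ?_ hx
    have h1 : x ^ Nat.card H = 1 := pow_card_eq_one'
    have h2 := congrArg (Subtype.val) h1
    exact h2
  refine ⟨f.range, ?_, ?_⟩
  · exact Finite.of_surjective _ f.rangeRestrict_surjective
  · exact (Nat.card_congr (MonoidHom.ofInjective hf).toEquiv).symm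

theorem card_map {G : Type u} {Γ : Type z} [Group G] [Group Γ] (j : G →* Γ)
    (hj : Function.Injective j) (H : Subgroup G) [Finite H] :
    ∃ H' : Subgroup Γ, Finite H' ∧ Nat.card H' = Nat.card H := by
  refine ⟨(j.comp H.subtype).range, ?_, ?_⟩
  · exact Finite.of_surjective _ (j.comp H.subtype).rangeRestrict_surjective
  · exact (Nat.card_congr (MonoidHom.ofInjective (f := j.comp H.subtype)
      (hj.comp Subtype.val_injective)).toEquiv).symm

/-- amplification -/
theorem amplify (G : Type u) [Group G] (hG : ∀ (g : G) (n : ℕ), 0 < n → g ^ n = 1 → g = 1)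
    (r : ℝ) (hr : r ∈ DD R G) (hr' : ∀ k : ℕ, r ≠ k) :
    ∃ (Γ : Type u) (_ : Group Γ), (∀ (g : Γ) (n : ℕ), 0 < n → g ^ n = 1 → g = 1) ∧ ICC Γ ∧
      closure (DD R Γ) = Set.Ici 0 := by
  have hrO : r ∈ DD R (Ov G) := DD_mono R (ovIn G) (ovIn_inj G) hr
  rcases dichotomy R (ov_icc G) with ⟨N, hN, h⟩ | h
  · have hNr : (0 : ℝ) < N := by exact_mod_cast hN
    have hN2 : 2 ≤ N := by
      by_contra hcon
      have hN1 : N = 1 := by omega
      rw [h] at hrO
      obtain ⟨k, hk⟩ := hrO
      rw [hN1, Nat.cast_one, div_one] at hk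
      exact hr' k hk
    have h1 : 1 / (N : ℝ) ∈ DD R (Ov G) := by
      rw [h]
      exact ⟨1, by rw [Nat.cast_one]⟩
    refine ⟨ℕ → Ov G, inferInstance, torsionFree_pi (ov_torsionFree G hG), icc_pi (ov_icc G), ?_⟩
    rcases dichotomy R (icc_pi (ov_icc G)) with ⟨M, hM, h2⟩ | h2
    · exfalso
      have hMr : (0 : ℝ) < M := by exact_mod_cast hM
      have hlt : 1 / (N : ℝ) < 1 := by
        rw [div_lt_one hNr]
        exact_mod_cast hN2
      obtain ⟨n, hn⟩ := exists_pow_lt_of_lt_one (show (0 : ℝ) < 1 / M by positivity) hlt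
      have h3 := pow_mem_DD R _ h1 n
      rw [h2] at h3
      obtain ⟨k, hk⟩ := h3
      have hpos : (0 : ℝ) < (1 / (N : ℝ)) ^ n := by positivity
      rw [hk] at hn hpos
      have hk1 : (0 : ℝ) < k := by
        by_contra hcon
        have : (k : ℝ) / M ≤ 0 := div_nonpos_of_nonpos_of_nonneg (not_lt.1 hcon) hMr.le
        linarith
      have hk2 : (k : ℝ) < 1 := by
        rwa [div_lt_div_iff_of_pos_right hMr] at hn
      have hk3 : 0 < k := by exact_mod_cast hk1
      have hk4 : k < 1 := by exact_mod_cast hk2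
      omega
    · exact h2
  · exact ⟨Ov G, inferInstance, ov_torsionFree G hG, ov_icc G, h⟩

end

end Pool.Agent.X190.PN
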