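import Pool.Agent.X190.PN.Inj
import Mathlib.GroupTheory.CosetCover

set_option autoImplicit false
set_option linter.unusedSectionVars false

open scoped InnerProductSpace InnerProduct ENNReal Topology Pointwise
open Filter

/-! Groups with infinite conjugacy classes: mixing and ranks. -/

namespace Pool.Agent.X190.PN

open Pool.Agent.W649.ZL Pool.Agent.X190.TW Pool.Agent.X190.AT

universe u v w z y

/-- all nontrivial conjugacy classes are infinite -/
def ICC (G : Type u) [Group G] : Prop :=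
  ∀ g : G, g ≠ 1 → {x : G | ∃ h : G, x = h * g * h⁻¹}.Infinite

section
variable {G : Type u} [Group G]

theorem exists_disjoint (hG : ICC G) (F : Finset G) (hF : (1 : G) ∉ F) :
    ∃ g : G, ∀ x ∈ F, g * x * g⁻¹ ∉ F := by
  classical
  by_contra hcon
  push Not at hcon
  let H : G × G → Subgroup G := fun p => Subgroup.centralizer {p.1}
  let r : G × G → G := fun p => if h : ∃ k : G, k * p.1 * k⁻¹ = p.2 then h.choose else 1
  have hcov : ⋃ p ∈ F ×ˢ F, r p • (H p : Set G) = Set.univ := by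
    rw [Set.eq_univ_iff_forall]
    intro g
    obtain ⟨x, hx, hgx⟩ := hcon g
    rw [Set.mem_iUnion₂]
    refine ⟨(x, g * x * g⁻¹), Finset.mem_product.2 ⟨hx, hgx⟩, ?_⟩
    rw [Set.mem_smul_set_iff_inv_smul_mem]
    have hex : ∃ k : G, k * x * k⁻¹ = g * x * g⁻¹ := ⟨g, rfl⟩
    obtain ⟨k, hr, hs⟩ : ∃ k, r (x, g * x * g⁻¹) = k ∧ k * x * k⁻¹ = g * x * g⁻¹ :=
      ⟨_, dif_pos hex, hex.choose_spec⟩
    rw [hr]
    change k⁻¹ * g ∈ Subgroup.centralizer {x}
    rw [Subgroup.mem_centralizer_iff]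
    intro y hy
    rw [Set.mem_singleton_iff] at hy
    rw [hy]
    have h2 : k⁻¹ * (g * x * g⁻¹) * k = x := by
      rw [← hs]
      group
    calc x * (k⁻¹ * g) = (k⁻¹ * (g * x * g⁻¹) * k) * (k⁻¹ * g) := by rw [h2]
      _ = k⁻¹ * g * x := by group
  obtain ⟨p, hp, hfin⟩ := Subgroup.exists_finiteIndex_of_leftCoset_cover hcov
  obtain ⟨hp1, _⟩ := Finset.mem_product.1 hp
  have hne : p.1 ≠ 1 := by
    intro h
    rw [h] at hp1
    exact hF hp1
  apply hG p.1 hne
  have : Finite (G ⧸ H p) := Subgroup.finite_quotient_of_finiteIndex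
  refine (Set.finite_range (fun q : G ⧸ H p => q.out * p.1 * q.out⁻¹)).subset ?_
  rintro x ⟨h, rfl⟩
  refine ⟨(h : G ⧸ H p), ?_⟩
  simp only
  have h1 : ((h : G ⧸ H p).out)⁻¹ * h ∈ H p := by
    rw [← QuotientGroup.eq, QuotientGroup.out_eq']
  have h2 := (Subgroup.mem_centralizer_iff.1 h1) p.1 rfl
  have h3 : p.1 = (((h : G ⧸ H p).out)⁻¹ * h) * p.1 * (((h : G ⧸ H p).out)⁻¹ * h)⁻¹ := by
    rw [← h2]
    group
  conv_lhs => rw [h3]
  group

/-- conjugation of the argument -/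
noncomputable def cj (g : G) (f : EE G Unit) : EE G Unit := Ltr g⁻¹ (tr g⁻¹ f)

theorem cj_apply (g : G) (f : EE G Unit) (x : G) : cj g f (x, ()) = f (g * x * g⁻¹, ()) := by
  unfold cj
  rw [Ltr_apply, tr_apply, inv_inv]

theorem cj_sub (g : G) (f f' : EE G Unit) : cj g (f - f') = cj g f - cj g f' := by
  ext ⟨x, _⟩
  rw [cj_apply]
  change _ = cj g f (x, ()) - cj g f' (x, ())
  rw [cj_apply, cj_apply]
  rfl

theorem norm_cj_le (g : G) (f : EE G Unit) : ‖cj g f‖ ≤ ‖f‖ := by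
  unfold cj
  exact (norm_elemFun_le g⁻¹ () () (tr g⁻¹ f)).trans (le_of_eq (norm_tr _ _))

/-- restriction to a finite set -/
noncomputable def rs (F : Finset G) (f : EE G Unit) : EE G Unit :=
  ∑ x ∈ F, f (x, ()) • dl (x, ())

theorem rs_apply [DecidableEq G] (F : Finset G) (f : EE G Unit) (x : G) :
    rs F f (x, ()) = if x ∈ F then f (x, ()) else 0 := by
  unfold rs
  rw [sum_apply_EE]
  split_ifs with hx
  · rw [Finset.sum_eq_single x]
    · change f (x, ()) * dl (x, ()) (x, ()) = f (x, ())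
      rw [dl_apply_self, mul_one]
    · intro y _ hy
      change f (y, ()) * dl (y, ()) (x, ()) = 0
      rw [dl_apply_ne, mul_zero]
      intro h
      exact hy (Prod.mk.inj h).1.symm
    · intro h
      exact absurd hx h
  · apply Finset.sum_eq_zero
    intro y hy
    change f (y, ()) * dl (y, ()) (x, ()) = 0
    rw [dl_apply_ne, mul_zero]
    intro h
    apply hx
    rw [(Prod.mk.inj h).1]
    exact hy

theorem exists_rs (f f' : EE G Unit) (δ : ℝ) (hδ : 0 < δ) :
    ∃ F : Finset G, (1 : G) ∈ F ∧ ‖f - rs F f‖ < δ ∧ ‖f' - rs F f'‖ < δ := by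
  classical
  have key : ∀ f : EE G Unit, ∀ᶠ F : Finset G in atTop, ‖f - rs F f‖ < δ := by
    intro f
    have h1 := lp.hasSum_single (E := fun _ : G × Unit => ℂ) ENNReal.ofNat_ne_top f
    have h2 : HasSum (fun x : G => f (x, ()) • (dl (x, ()) : EE G Unit)) f := by
      have h3 := (Equiv.hasSum_iff (Equiv.prodPUnit G).symm).2 h1
      refine h3.congr_fun ?_
      intro x
      change f (x, ()) • (dl (x, ()) : EE G Unit) = lp.single 2 (x, ()) (f (x, ()))
      ext ⟨y, _⟩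
      by_cases h : y = x
      · subst h
        rw [lp.single_apply_self]
        change f (y, ()) * dl (y, ()) (y, ()) = f (y, ())
        rw [dl_apply_self, mul_one]
      · rw [lp.single_apply_ne]
        · change f (x, ()) * dl (x, ()) (y, ()) = 0
          rw [dl_apply_ne, mul_zero]
          intro h'
          exact h (Prod.mk.inj h').1
        · intro h'
          exact h (Prod.mk.inj h').1
    have h3 := h2.eventually (Metric.ball_mem_nhds f hδ)
    filter_upwards [h3] with F hF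
    have h4 : dist (rs F f) f < δ := hF
    rw [dist_comm, dist_eq_norm] at h4
    exact h4
  obtain ⟨F, h1, h2, h3⟩ := ((key f).and ((key f').and (eventually_ge_atTop {1}))).exists
  exact ⟨F, Finset.singleton_subset_iff.1 h3, h1, h2⟩

theorem mix (hG : ICC G) (f f' : EE G Unit) (δ : ℝ) (hδ : 0 < δ) :
    ∃ g : G, ‖⟪f, cj g f'⟫_ℂ - (starRingEnd ℂ) (f (1, ())) * f' (1, ())‖ < δ := by
  classical
  let c : ℝ := ‖f‖ + ‖f'‖ + 2
  have hc : 0 < c := by positivity
  have hη : 0 < min 1 (δ / c) := lt_min one_pos (div_pos hδ hc)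
  obtain ⟨F, hF1, hf, hf'⟩ := exists_rs f f' _ hη
  obtain ⟨g, hg⟩ := exists_disjoint hG (F.erase 1) (Finset.notMem_erase 1 F)
  refine ⟨g, ?_⟩
  have h0 : ⟪rs F f, cj g (rs F f')⟫_ℂ = (starRingEnd ℂ) (f (1, ())) * f' (1, ()) := by
    conv_lhs => rw [rs]
    rw [sum_inner, Finset.sum_eq_single 1]
    · rw [inner_smul_left, inner_dl_left, cj_apply, rs_apply]
      rw [mul_one, mul_inv_cancel, if_pos hF1]
    · intro x hx hx1
      rw [inner_smul_left, inner_dl_left, cj_apply, rs_apply, if_neg, mul_zero]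
      intro hmem
      refine hg x (Finset.mem_erase.2 ⟨hx1, hx⟩) (Finset.mem_erase.2 ⟨?_, hmem⟩)
      intro h
      apply hx1
      rw [mul_inv_eq_one] at h
      exact mul_left_cancel (h.trans (mul_one g).symm)
    · intro h
      exact absurd hF1 h
  rw [← h0]
  have h1 : ⟪f, cj g f'⟫_ℂ - ⟪rs F f, cj g (rs F f')⟫_ℂ
      = ⟪f - rs F f, cj g f'⟫_ℂ + ⟪rs F f, cj g (f' - rs F f')⟫_ℂ := by
    rw [cj_sub, inner_sub_left, inner_sub_right]
    ring
  rw [h1]
  have h2 : ‖⟪f - rs F f, cj g f'⟫_ℂ‖ ≤ ‖f - rs F f‖ * ‖f'‖ :=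
    (norm_inner_le_norm _ _).trans (mul_le_mul_of_nonneg_left (norm_cj_le _ _) (norm_nonneg _))
  have h3 : ‖⟪rs F f, cj g (f' - rs F f')⟫_ℂ‖ ≤ ‖rs F f‖ * ‖f' - rs F f'‖ :=
    (norm_inner_le_norm _ _).trans (mul_le_mul_of_nonneg_left (norm_cj_le _ _) (norm_nonneg _))
  have h4 : ‖rs F f‖ ≤ ‖f‖ + 1 := by
    have h5 : rs F f = f - (f - rs F f) := by abel
    rw [h5]
    refine (norm_sub_le _ _).trans ?_
    have := hf.le.trans (min_le_left _ _)
    linarith
  have h6 : ‖f - rs F f‖ ≤ δ / c := hf.le.trans (min_le_right _ _)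
  have h7 : ‖f' - rs F f'‖ ≤ δ / c := hf'.le.trans (min_le_right _ _)
  have hdc : 0 < δ / c := div_pos hδ hc
  calc ‖⟪f - rs F f, cj g f'⟫_ℂ + ⟪rs F f, cj g (f' - rs F f')⟫_ℂ‖
      ≤ ‖f - rs F f‖ * ‖f'‖ + ‖rs F f‖ * ‖f' - rs F f'‖ := (norm_add_le _ _).trans (add_le_add h2 h3)
    _ ≤ δ / c * ‖f'‖ + (‖f‖ + 1) * (δ / c) := by
        gcongr
    _ < δ / c * c := by
        have : δ / c * ‖f'‖ + (‖f‖ + 1) * (δ / c) = δ / c * (‖f‖ + ‖f'‖ + 1) := by ring
        rw [this]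
        apply mul_lt_mul_of_pos_left _ hdc
        change ‖f‖ + ‖f'‖ + 1 < ‖f‖ + ‖f'‖ + 2
        linarith
    _ = δ := div_mul_cancel₀ _ hc.ne'

end

end Pool.Agent.X190.PN
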