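import Pool.Agent.X190.PN.Reduce

set_option autoImplicit false
set_option linter.unusedSectionVars false

open scoped InnerProductSpace InnerProduct ENNReal Topology Pointwise
open Filter

/-! Groups with infinite conjugacy classes: generic columns. -/

namespace Pool.Agent.X190.PN

open Pool.Agent.W649.ZL Pool.Agent.X190.TW Pool.Agent.X190.AT

universe u v w z y

section
variable {G : Type u} {K : Type v} {L : Type w} [Group G] [Fintype K] [Fintype L]
  [DecidableEq K] [DecidableEq L]

/-! coordinates -/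

section
variable {J : Type w} {J' : Type z} [Fintype J] [Fintype J'] [DecidableEq J']

noncomputable def ic (e : J → J') : EE G J →L[ℂ] EE G J' := ∑ j, elem (1 : G) (e j) j

theorem ic_sum (e : J → J') (h : EE G J) (x : G × J') :
    ic e h x = ∑ j, if x.2 = e j then h (x.1, j) else 0 := by
  unfold ic
  rw [sum_apply, sum_apply_EE]
  refine Finset.sum_congr rfl fun j _ => ?_
  rw [elem_apply, inv_one, one_mul]

theorem ic_self (e : J → J') (he : Function.Injective e) (h : EE G J) (x : G) (j : J) :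
    ic e h (x, e j) = h (x, j) := by
  classical
  rw [ic_sum, Finset.sum_eq_single j]
  · rw [if_pos rfl]
  · intro j' _ hj'
    rw [if_neg]
    intro h'
    exact hj' (he h').symm
  · intro hh
    exact absurd (Finset.mem_univ _) hh

theorem ic_ne (e : J → J') (h : EE G J) (x : G) (j' : J') (hj' : ∀ j, j' ≠ e j) :
    ic e h (x, j') = 0 := by
  rw [ic_sum]
  apply Finset.sum_eq_zero
  intro j _
  rw [if_neg (hj' j)]

theorem ic_eqv (e : J → J') : Eqv (ic e : EE G J →L[ℂ] EE G J') := by
  intro k f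
  ext ⟨x, j'⟩
  change ic e (tr k f) (x, j') = ic e f (x * k, j')
  rw [ic_sum, ic_sum]
  rfl

end

/-- the operator of a column -/
noncomputable def opC (b : K → (G →₀ ℂ)) : EE G K →L[ℂ] EE G Unit :=
  ∑ k, Finsupp.linearCombination ℂ (fun t : G => (elem t⁻¹ () k : EE G K →L[ℂ] EE G Unit)) (b k)

theorem opC_apply (b : K → (G →₀ ℂ)) (F : EE G K) (x : G) :
    opC b F (x, ()) = ∑ k, ∑ t ∈ (b k).support, b k t * F (t * x, k) := by
  unfold opC
  rw [sum_apply, sum_apply_EE]
  refine Finset.sum_congr rfl fun k _ => ?_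
  rw [Finsupp.linearCombination_apply, Finsupp.sum, sum_apply, sum_apply_EE]
  refine Finset.sum_congr rfl fun t _ => ?_
  change b k t * elem t⁻¹ () k F (x, ()) = _
  rw [elem_apply, if_pos rfl, inv_inv]

theorem opC_eqv (b : K → (G →₀ ℂ)) : Eqv (opC b) := by
  intro k f
  ext ⟨x, _⟩
  change opC b (tr k f) (x, ()) = opC b f (x * k, ())
  rw [opC_apply, opC_apply]
  refine Finset.sum_congr rfl fun i _ => Finset.sum_congr rfl fun t _ => ?_
  rw [tr_apply, mul_assoc]

theorem opC_add_smul (c : ℂ) (b b' : K → (G →₀ ℂ)) :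
    opC (fun k => c • b k + b' k) = c • opC b + opC b' := by
  unfold opC
  rw [Finset.smul_sum, ← Finset.sum_add_distrib]
  refine Finset.sum_congr rfl fun k _ => ?_
  rw [map_add, map_smul]

theorem opC_single (i : K) (g : G) :
    opC (fun k => if k = i then Finsupp.single g⁻¹ (1 : ℂ) else 0) = elem g () i := by
  unfold opC
  rw [Finset.sum_eq_single i]
  · change Finsupp.linearCombination ℂ _ (if i = i then Finsupp.single g⁻¹ (1 : ℂ) else 0) = _
    rw [if_pos rfl, Finsupp.linearCombination_single, one_smul, inv_inv]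
  · intro k _ hk
    change Finsupp.linearCombination ℂ _ (if k = i then Finsupp.single g⁻¹ (1 : ℂ) else 0) = _
    rw [if_neg hk, map_zero]
  · intro hh
    exact absurd (Finset.mem_univ _) hh

/-- one more column -/
noncomputable def ext (A : K → L → (G →₀ ℂ)) (b : K → (G →₀ ℂ)) : K → L ⊕ Unit → (G →₀ ℂ) :=
  fun k => Sum.elim (A k) (fun _ => b k)

theorem kerDimM_ext (A : K → L → (G →₀ ℂ)) (S : EE G K →L[ℂ] EE G L)
    (hS : ∀ (F : EE G K) (u : G) (j : L), S F (u, j)
      = ∑ k : K, ∑ t ∈ (A k j).support, A k j t * F (t * u, k)) (b : K → (G →₀ ℂ)) :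
    kerDimM (ext A b) = vd (LinearMap.ker (S : EE G K →ₗ[ℂ] EE G L)
      ⊓ LinearMap.ker (opC b : EE G K →ₗ[ℂ] EE G Unit)) := by
  obtain ⟨R, hR, hRk, hRa⟩ := exists_op (ext A b)
  rw [hRk]
  congr 1
  ext F
  constructor
  · intro hF
    have hF0 : R F = 0 := hF
    constructor
    · change S F = 0
      ext ⟨x, j⟩
      have h1 : R F (x, Sum.inl j) = 0 := by
        rw [hF0]
        rfl
      rw [hRa] at h1
      rw [hS]
      exact h1
    · change opC b F = 0
      ext ⟨x, _⟩
      have h1 : R F (x, Sum.inr ()) = 0 := by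
        rw [hF0]
        rfl
      rw [hRa] at h1
      rw [opC_apply]
      exact h1
  · rintro ⟨h1, h2⟩
    have h1' : S F = 0 := h1
    have h2' : opC b F = 0 := h2
    change R F = 0
    ext ⟨x, j⟩
    rcases j with j | j
    · have h3 : S F (x, j) = 0 := by
        rw [h1']
        rfl
      rw [hS] at h3
      rw [hRa]
      exact h3
    · have h3 : opC b F (x, ()) = 0 := by
        rw [h2']
        rfl
      rw [opC_apply] at h3
      rw [hRa]
      exact h3

theorem inv_orth (P : Submodule ℂ (EE G K)) (hP : W649.ZL.Inv P) : W649.ZL.Inv Pᗮ := by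
  intro k f hf m hm
  have h1 := hf (tr k⁻¹ m) (hP k⁻¹ m hm)
  rw [inner_tr_left, inv_inv] at h1
  exact h1

theorem inv_map (P : Submodule ℂ (EE G K)) (hP : W649.ZL.Inv P) (T : EE G K →L[ℂ] EE G L)
    (hT : Eqv T) : W649.ZL.Inv (P.map (T : EE G K →ₗ[ℂ] EE G L)) := by
  rintro k _ ⟨f, hf, rfl⟩
  exact ⟨tr k f, hP k f hf, hT k f⟩

theorem kerDimM_le_card' (A : K → L → (G →₀ ℂ)) : kerDimM A ≤ Fintype.card K := by
  obtain ⟨S, hS, hSk, _⟩ := exists_op A
  rw [hSk]
  exact vd_le_card _

theorem kerDimM_nonneg' (A : K → L → (G →₀ ℂ)) : 0 ≤ kerDimM A := by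
  obtain ⟨S, hS, hSk, _⟩ := exists_op A
  rw [hSk]
  exact vd_nonneg _

/-- one more column reduces the kernel dimension by at most one -/
theorem ext_ge (A : K → L → (G →₀ ℂ)) (b : K → (G →₀ ℂ)) :
    kerDimM A - 1 ≤ kerDimM (ext A b) := by
  obtain ⟨S, hS, hSk, hSa⟩ := exists_op A
  rw [kerDimM_ext A S hSa, hSk]
  have h1 := rank_nullity (opC b) (opC_eqv b) (inv_ker S hS) (ContinuousLinearMap.isClosed_ker S)
  have h2 := vd_mono (le_top : (LinearMap.ker (S : EE G K →ₗ[ℂ] EE G L)).map
    (opC b : EE G K →ₗ[ℂ] EE G Unit) ≤ ⊤)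
  rw [vd_top, Fintype.card_unit] at h2
  push_cast at h2
  linarith

/-- in a group with infinite conjugacy classes some column reduces the kernel dimension by
almost one -/
theorem reduce (hG : ICC G) (R0 : Subring ℂ) (A : K → L → (G →₀ ℂ)) (ε : ℝ) (hε : 0 < ε) :
    ∃ b : K → (G →₀ ℂ), (∀ k t, b k t ∈ R0) ∧
      kerDimM (ext A b) ≤ max (kerDimM A - 1) 0 + ε := by
  classical
  by_contra hcon
  push Not at hcon
  obtain ⟨S, hS, hSk, hSa⟩ := exists_op A
  let V : Set ℝ := {r | ∃ b : K → (G →₀ ℂ), (∀ k t, b k t ∈ R0) ∧ r = kerDimM (ext A b)}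
  have hVne : V.Nonempty := ⟨_, fun _ => 0, fun k t => R0.zero_mem, rfl⟩
  have hVb : BddBelow V := by
    refine ⟨0, ?_⟩
    rintro r ⟨b, _, rfl⟩
    exact kerDimM_nonneg' _
  set y : ℝ := sInf V with hy
  set x : ℝ := kerDimM A with hx
  have hy1 : max (x - 1) 0 + ε ≤ y := by
    apply le_csInf hVne
    rintro r ⟨b, hb, rfl⟩
    exact (hcon b hb).le
  have hyx : x - 1 + ε ≤ y := (add_le_add_left (le_max_left _ _) _).trans hy1
  have hy0 : ε ≤ y := by
    have := le_max_right (x - 1) 0
    linarith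
  -- there is a row
  have hne : Nonempty K := by
    by_contra hK
    rw [not_nonempty_iff] at hK
    have h1 := hcon (fun _ => 0) (fun k t => R0.zero_mem)
    have h2 := kerDimM_le_card' (ext A (fun _ => 0))
    rw [Fintype.card_eq_zero, Nat.cast_zero] at h2
    have h3 := le_max_right (x - 1) 0
    linarith
  have hcard : (0 : ℝ) < Fintype.card K := by exact_mod_cast Fintype.card_pos
  set η : ℝ := y * (1 - x + y) / Fintype.card K with hη
  have hηpos : 0 < η := div_pos (mul_pos (by linarith) (by linarith)) hcard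
  obtain ⟨_, ⟨b, hb, rfl⟩, hby⟩ := exists_lt_of_csInf_lt hVne (show sInf V < y + η / 8 by
    rw [← hy]
    linarith)
  have hyb : y ≤ kerDimM (ext A b) := csInf_le hVb ⟨b, hb, rfl⟩
  have hker := kerDimM_ext A S hSa b
  set K' : Submodule ℂ (EE G K) := LinearMap.ker (S : EE G K →ₗ[ℂ] EE G L)
    ⊓ LinearMap.ker (opC b : EE G K →ₗ[ℂ] EE G Unit) with hK'
  have hK'c : IsClosed (K' : Set (EE G K)) := by
    rw [hK', Submodule.coe_inf]
    exact (ContinuousLinearMap.isClosed_ker S).inter (ContinuousLinearMap.isClosed_ker (opC b))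
  have hK'i : W649.ZL.Inv K' := inv_inf (inv_ker S hS) (inv_ker _ (opC_eqv b))
  let M : Submodule ℂ (EE G Unit) := ((LinearMap.ker (S : EE G K →ₗ[ℂ] EE G L)).map
    (opC b : EE G K →ₗ[ℂ] EE G Unit)).topologicalClosure
  have hMi : W649.ZL.Inv M := (inv_map _ (inv_ker S hS) _ (opC_eqv b)).topologicalClosure
  have hMc : IsClosed (M : Set (EE G Unit)) := Submodule.isClosed_topologicalClosure _
  have hMm : ∀ F, S F = 0 → opC b F ∈ M := by
    intro F hF
    exact Submodule.le_topologicalClosure _ ⟨F, hF, rfl⟩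
  have hMv : vd M = x - kerDimM (ext A b) := by
    have h1 := rank_nullity (opC b) (opC_eqv b) (inv_ker S hS) (ContinuousLinearMap.isClosed_ker S)
    have h2 : vd M = vd ((LinearMap.ker (S : EE G K →ₗ[ℂ] EE G L)).map
      (opC b : EE G K →ₗ[ℂ] EE G Unit)) := vd_closure _
    rw [← hK', ← hSk] at h1
    rw [h2, hker]
    linarith
  have iM : CompleteSpace M := hMc.completeSpace_coe
  have hQc : IsClosed (Mᗮ : Set (EE G Unit)) := Submodule.isClosed_orthogonal M
  have hQi : W649.ZL.Inv Mᗮ := inv_orth M hMi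
  have hQv : vd Mᗮ = 1 - (x - kerDimM (ext A b)) := by
    have h1 := vd_sub hMc (isClosed_univ : IsClosed ((⊤ : Submodule ℂ (EE G Unit)) : Set (EE G Unit)))
      le_top
    rw [top_inf_eq, vd_top, Fintype.card_unit, hMv] at h1
    rw [h1]
    norm_num
  obtain ⟨i, g, hig⟩ := exists_gap hG K' hK'c hK'i Mᗮ hQc hQi (η / 8) (by linarith)
  -- the bound
  have hbound : vd (K' ⊓ LinearMap.ker ((Mᗮ.starProjection.comp
      (elem g () i : EE G K →L[ℂ] EE G Unit)) : EE G K →ₗ[ℂ] EE G Unit)) ≤ y - 3 * η / 4 := by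
    refine hig.trans ?_
    rw [← hker, hQv]
    have h1 : η ≤ kerDimM (ext A b) * (1 - (x - kerDimM (ext A b))) / Fintype.card K := by
      rw [hη]
      apply div_le_div_of_nonneg_right _ hcard.le
      apply mul_le_mul hyb (by linarith) (by linarith) (by linarith)
    linarith
  -- the family
  let R : EE G K →L[ℂ] EE G Unit := elem g () i
  let e1 : L → L ⊕ (Unit ⊕ Unit) := Sum.inl
  let e2 : Unit → L ⊕ (Unit ⊕ Unit) := fun u => Sum.inr (Sum.inl u)
  let e3 : Unit → L ⊕ (Unit ⊕ Unit) := fun u => Sum.inr (Sum.inr u)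
  have he1 : Function.Injective e1 := Sum.inl_injective
  have he2 : Function.Injective e2 := fun _ _ _ => rfl
  have he3 : Function.Injective e3 := fun _ _ _ => rfl
  let N : Bool → (EE G K →L[ℂ] EE G (L ⊕ (Unit ⊕ Unit))) := fun c =>
    if c = true then (ic e2).comp (M.starProjection.comp R)
    else (ic e1).comp S + (ic e2).comp (M.starProjection.comp (opC b))
      + (ic e3).comp (Mᗮ.starProjection.comp R)
  have hRe : Eqv R := elem_eqv g () i
  have hN : ∀ c, Eqv (N c) := by
    intro c k F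
    cases c
    · change ic e1 (S (tr k F)) + ic e2 (M.starProjection (opC b (tr k F)))
        + ic e3 (Mᗮ.starProjection (R (tr k F)))
        = tr k (ic e1 (S F) + ic e2 (M.starProjection (opC b F)) + ic e3 (Mᗮ.starProjection (R F)))
      rw [hS, opC_eqv, hRe, proj_tr hMi, proj_tr hQi, ic_eqv, ic_eqv, ic_eqv, tr_add, tr_add]
    · change ic e2 (M.starProjection (R (tr k F))) = tr k (ic e2 (M.starProjection (R F)))
      rw [hRe, proj_tr hMi, ic_eqv]
  have hlin : ∀ (p : Bool → ℂ) (F : EE G K), lin N p F = p true • ic e2 (M.starProjection (R F))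
      + p false • (ic e1 (S F) + ic e2 (M.starProjection (opC b F))
        + ic e3 (Mᗮ.starProjection (R F))) := by
    intro p F
    rw [lin_apply, Fintype.sum_bool]
    rfl
  -- the value at zero
  let q0 : Bool → ℂ := fun c => if c = true then 0 else 1
  let pn : ℕ → Bool → ℂ := fun n c => if c = true then 1 / ((n : ℂ) + 1) else 1
  have hq0 : kd N q0 ≤ y - 3 * η / 4 := by
    refine le_trans ?_ hbound
    apply vd_mono
    intro F hF
    have hF0 : lin N q0 F = 0 := hF
    rw [hlin] at hF0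
    change (0 : ℂ) • _ + (1 : ℂ) • (ic e1 (S F) + ic e2 (M.starProjection (opC b F))
        + ic e3 (Mᗮ.starProjection (R F))) = 0 at hF0
    rw [zero_smul, zero_add, one_smul] at hF0
    have hc : ∀ z, ic e1 (S F) z + ic e2 (M.starProjection (opC b F)) z
        + ic e3 (Mᗮ.starProjection (R F)) z = 0 := by
      intro z
      have := congrArg (fun f : EE G (L ⊕ (Unit ⊕ Unit)) => f z) hF0
      exact this
    have h1 : S F = 0 := by
      ext ⟨z, j⟩
      have h2 := hc (z, e1 j)
      rw [ic_self e1 he1, ic_ne e2 _ _ _ (fun u => Sum.inl_ne_inr),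
        ic_ne e3 _ _ _ (fun u => Sum.inl_ne_inr), add_zero, add_zero] at h2
      exact h2
    have h3 : M.starProjection (opC b F) = 0 := by
      ext ⟨z, j⟩
      have h2 := hc (z, e2 j)
      rw [ic_self e2 he2, ic_ne e1 _ _ _ (fun u => Sum.inr_ne_inl),
        ic_ne e3 _ _ _ (fun u h => Sum.inl_ne_inr (Sum.inr_injective h)), add_zero, zero_add] at h2
      exact h2
    have h4 : Mᗮ.starProjection (R F) = 0 := by
      ext ⟨z, j⟩
      have h2 := hc (z, e3 j)
      rw [ic_self e3 he3, ic_ne e1 _ _ _ (fun u => Sum.inr_ne_inl),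
        ic_ne e2 _ _ _ (fun u h => Sum.inr_ne_inl (Sum.inr_injective h)), zero_add, zero_add] at h2
      exact h2
    refine ⟨⟨h1, ?_⟩, h4⟩
    change opC b F = 0
    rw [← h3]
    exact (Submodule.starProjection_eq_self_iff.2 (hMm F h1)).symm
  obtain ⟨n, hn⟩ : ∃ n, kd N (pn n) < y - η / 2 := by
    by_contra hno
    push Not at hno
    have h1 := limit_ge N hN (y - η / 2) pn q0 (by
      intro c
      cases c
      · exact tendsto_const_nhds
      · exact tendsto_one_div_add_atTop_nhds_zero_nat) hno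
    linarith
  -- the new column
  let b' : K → (G →₀ ℂ) := fun k => if k = i then Finsupp.single g⁻¹ (1 : ℂ) else 0
  let bn : K → (G →₀ ℂ) := fun k => ((n : ℂ) + 1) • b k + b' k
  have hbn : ∀ k t, bn k t ∈ R0 := by
    intro k t
    change ((n : ℂ) + 1) * b k t + b' k t ∈ R0
    refine R0.add_mem (R0.mul_mem (R0.add_mem (natCast_mem R0 n) R0.one_mem) (hb k t)) ?_
    change (if k = i then Finsupp.single g⁻¹ (1 : ℂ) else 0) t ∈ R0
    split_ifs
    · rw [Finsupp.single_apply]
      split_ifs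
      · exact R0.one_mem
      · exact R0.zero_mem
    · exact R0.zero_mem
  have hn1 : ((n : ℂ) + 1) ≠ 0 := by exact_mod_cast Nat.succ_ne_zero n
  have hle : kerDimM (ext A bn) ≤ kd N (pn n) := by
    rw [kerDimM_ext A S hSa bn]
    apply vd_mono
    rintro F ⟨h1, h2⟩
    have h1' : S F = 0 := h1
    have h2' : opC bn F = 0 := h2
    have h3 : opC bn F = ((n : ℂ) + 1) • opC b F + R F := by
      have h4 : opC bn = ((n : ℂ) + 1) • opC b + opC b' := opC_add_smul _ _ _
      rw [h4, opC_single]
      rfl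
    have h5 : R F = -(((n : ℂ) + 1) • opC b F) := by
      rw [h3] at h2'
      exact eq_neg_of_add_eq_zero_right h2'
    have h6 : M.starProjection (opC b F) = opC b F :=
      Submodule.starProjection_eq_self_iff.2 (hMm F h1')
    have h7 : Mᗮ.starProjection (opC b F) = 0 := by
      rw [Submodule.starProjection_orthogonal]
      change opC b F - M.starProjection (opC b F) = 0
      rw [h6, sub_self]
    change lin N (pn n) F = 0
    rw [hlin]
    change (1 / ((n : ℂ) + 1)) • ic e2 (M.starProjection (R F)) + (1 : ℂ) • (ic e1 (S F)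
      + ic e2 (M.starProjection (opC b F)) + ic e3 (Mᗮ.starProjection (R F))) = 0
    have h8 : ic e2 (M.starProjection (R F)) = -(((n : ℂ) + 1) • ic e2 (opC b F)) := by
      rw [h5, map_neg, map_smul, h6, map_neg, map_smul]
    have h8' : Mᗮ.starProjection (R F) = 0 := by
      rw [h5, map_neg, map_smul, h7, smul_zero, neg_zero]
    rw [h8, h8', h6, h1', map_zero, map_zero, one_smul, zero_add, add_zero, smul_neg, smul_smul,
      one_div_mul_cancel hn1, one_smul, neg_add_cancel]
  have h9 : y ≤ kerDimM (ext A bn) := csInf_le hVb ⟨bn, hbn, rfl⟩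
  linarith

end

end Pool.Agent.X190.PN
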