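import Pool.Agent.X190.PN.Pencil

set_option autoImplicit false
set_option linter.unusedSectionVars false

open scoped InnerProductSpace InnerProduct ENNReal Topology
open Filter

/-! Polynomials with matrix coefficients over a group algebra: the main results. -/

namespace Pool.Agent.X190.PN

open Pool.Agent.W649.ZL Pool.Agent.X190.TW Pool.Agent.X190.AT Pool.Agent.X190.LQ

universe u v w z y

section
variable {G : Type u} {K : Type v} {L : Type w} [Group G] [Fintype K] [Fintype L]
  [DecidableEq K] [DecidableEq L]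

theorem kerDimM_le_card (A : K → L → (G →₀ ℂ)) : kerDimM A ≤ Fintype.card K := by
  obtain ⟨T, hT⟩ := exists_supp A
  obtain ⟨S, hS, hSk, _⟩ := exists_opT A T hT
  rw [hSk]
  exact vd_le_card _

/-- the total excess is bounded -/
theorem sum_le (d : ℕ) (A : ℕ → K → L → (G →₀ ℂ)) (B : K → L → (G × Multiplicative ℤ →₀ ℂ))
    (hB : IsPoly d A B) (Z : Finset ℂ) :
    ∑ x ∈ Z, kerDimM (ev d A x) ≤ Z.card * kerDimM B + d * (Fintype.card K - kerDimM B) := by
  by_cases hd : d ≤ Z.card
  · obtain ⟨m, hm⟩ : ∃ m, Z.card = m + d := ⟨Z.card - d, by omega⟩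
    let e := Z.equivFinOfCardEq hm
    let x : Fin (m + d) → ℂ := fun a => (e.symm a : ℂ)
    have hx : Function.Injective x := Subtype.val_injective.comp e.symm.injective
    have h1 : ∑ x ∈ Z, kerDimM (ev d A x) = ∑ a, kerDimM (ev d A (x a)) := by
      rw [← Finset.sum_coe_sort]
      exact (Equiv.sum_comp e.symm (fun z : Z => kerDimM (ev d A (z : ℂ)))).symm
    have h2 := (atM_rows d A m x hx).2
    have h3 := (rows_bounds d A B hB m).1
    rw [h1, ← kerDimM_points d A x hx, hm]
    push_cast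
    linarith
  · push Not at hd
    have h1 : ∑ x ∈ Z, kerDimM (ev d A x) ≤ Z.card * (Fintype.card K : ℝ) := by
      rw [← nsmul_eq_mul, ← Finset.sum_const]
      exact Finset.sum_le_sum fun x _ => kerDimM_le_card _
    have h2 : (Z.card : ℝ) ≤ d := by exact_mod_cast hd.le
    have h3 : (0 : ℝ) ≤ Fintype.card K - kerDimM B := sub_nonneg.2 (kerDimM_le_card B)
    have h4 := mul_le_mul_of_nonneg_right h2 h3
    linarith

/-- the values are at least the generic value -/
theorem ge_gen (d : ℕ) (A : ℕ → K → L → (G →₀ ℂ)) (B : K → L → (G × Multiplicative ℤ →₀ ℂ))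
    (hB : IsPoly d A B) (x₀ : ℂ) : kerDimM B ≤ kerDimM (ev d A x₀) := by
  classical
  apply le_of_forall_pos_sub_le
  intro ε hε
  obtain ⟨m, hm⟩ := exists_nat_gt ((d * kerDimM B + 2 * d * Fintype.card L) / ε)
  have hm' : d * kerDimM B + 2 * d * Fintype.card L < m * ε := by
    rwa [div_lt_iff₀ hε] at hm
  -- close points with a large value
  have hpt : ∀ n : ℕ, ∃ x : ℂ, ‖x - x₀‖ ≤ 1 / ((n : ℝ) + 1) ∧ kerDimM B - ε ≤ kerDimM (ev d A x) := by
    intro n
    by_contra hcon
    push Not at hcon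
    let r : ℝ := 1 / (((n : ℝ) + 1) * ((m + d : ℕ) + 1))
    have hr : 0 < r := by positivity
    let x : Fin ((m + 1) + d) → ℂ := fun a => x₀ + (((a : ℕ) : ℝ) * (1 / (((n : ℝ) + 1) * ((m + 1 + d : ℕ) : ℝ))) : ℝ)
    have hr' : (0 : ℝ) < 1 / (((n : ℝ) + 1) * ((m + 1 + d : ℕ) : ℝ)) := by positivity
    have hx : Function.Injective x := by
      intro a b hab
      have h1 : ((((a : ℕ) : ℝ) * (1 / (((n : ℝ) + 1) * ((m + 1 + d : ℕ) : ℝ))) : ℝ) : ℂ)
          = ((((b : ℕ) : ℝ) * (1 / (((n : ℝ) + 1) * ((m + 1 + d : ℕ) : ℝ))) : ℝ) : ℂ) :=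
        add_left_cancel hab
      have h2 := mul_right_cancel₀ hr'.ne' (Complex.ofReal_injective h1)
      exact Fin.ext (by exact_mod_cast h2)
    have hclose : ∀ a, ‖x a - x₀‖ ≤ 1 / ((n : ℝ) + 1) := by
      intro a
      have h1 : x a - x₀ = ((((a : ℕ) : ℝ) * (1 / (((n : ℝ) + 1) * ((m + 1 + d : ℕ) : ℝ))) : ℝ) : ℂ) :=
        add_sub_cancel_left _ _
      rw [h1, Complex.norm_real, Real.norm_eq_abs, abs_of_nonneg (by positivity)]
      have h2 : ((a : ℕ) : ℝ) ≤ ((m + 1 + d : ℕ) : ℝ) := by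
        exact_mod_cast a.2.le
      rw [mul_one_div, div_le_div_iff₀ (by positivity) (by positivity), one_mul]
      have h3 : (0 : ℝ) < (n : ℝ) + 1 := by positivity
      nlinarith
    have h1 := (atM_rows d A (m + 1) x hx).1
    have h2 := (rows_bounds d A B hB (m + 1)).2
    rw [kerDimM_points d A x hx] at h1
    have h3 : ∑ a, kerDimM (ev d A (x a)) ≤ ((m + 1 + d : ℕ) : ℝ) * (kerDimM B - ε) := by
      have h4 : ∑ a, kerDimM (ev d A (x a)) ≤ ∑ _a : Fin (m + 1 + d), (kerDimM B - ε) :=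
        Finset.sum_le_sum fun a _ => (hcon (x a) (hclose a)).le
      rw [Finset.sum_const, Finset.card_univ, Fintype.card_fin, nsmul_eq_mul] at h4
      exact h4
    push_cast at h2 h3
    nlinarith
  choose x hxc hxk using hpt
  choose T0 hT0 using fun k => exists_supp (A k)
  let T : Finset G := (Finset.range (d + 1)).biUnion T0
  have hT : ∀ y i j, (ev d A y i j).support ⊆ T := by
    intro y i j g hg
    by_contra hcon
    apply Finsupp.mem_support_iff.1 hg
    rw [ev_apply]
    apply Finset.sum_eq_zero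
    intro k hk
    have h1 : A k i j g = 0 := by
      by_contra h0
      exact hcon (Finset.mem_biUnion.2 ⟨k, hk, hT0 k i j (Finsupp.mem_support_iff.2 h0)⟩)
    rw [h1, mul_zero]
  have hxt : Tendsto x atTop (𝓝 x₀) := by
    rw [tendsto_iff_norm_sub_tendsto_zero]
    exact squeeze_zero (fun _ => norm_nonneg _) hxc tendsto_one_div_add_atTop_nhds_zero_nat
  refine kerDimM_limit (fun n => ev d A (x n)) (ev d A x₀) T (fun n => hT _) (hT _) ?_ _ hxk
  intro i j g
  simp only [ev_apply]
  apply tendsto_finsetSum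
  intro k _
  exact (hxt.pow k).mul_const _

/-- the exceptional set is countable -/
theorem countable_exc (d : ℕ) (A : ℕ → K → L → (G →₀ ℂ)) (B : K → L → (G × Multiplicative ℤ →₀ ℂ))
    (hB : IsPoly d A B) : {x : ℂ | kerDimM (ev d A x) ≠ kerDimM B}.Countable := by
  have h1 : Summable (fun x : ℂ => kerDimM (ev d A x) - kerDimM B) := by
    apply summable_of_sum_le (c := d * (Fintype.card K - kerDimM B))
    · intro x
      exact sub_nonneg.2 (ge_gen d A B hB x)
    · intro Z
      have h2 := sum_le d A B hB Z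
      rw [Finset.sum_sub_distrib, Finset.sum_const, nsmul_eq_mul]
      linarith
  refine h1.countable_support.mono ?_
  intro x hx
  exact sub_ne_zero.2 hx

/-- every matrix over the group algebra of the product is a polynomial up to a shift -/
theorem exists_poly (B : K → L → (G × Multiplicative ℤ →₀ ℂ)) :
    ∃ (d : ℕ) (A : ℕ → K → L → (G →₀ ℂ)) (B' : K → L → (G × Multiplicative ℤ →₀ ℂ)),
      IsPoly d A B' ∧ kerDimM B' = kerDimM B ∧ ∀ k i j g, ∃ t, A k i j g = B i j t := by
  classical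
  obtain ⟨T, hT⟩ := exists_supp B
  obtain ⟨c, hc⟩ : ∃ c : ℕ, ∀ t ∈ T, (Multiplicative.toAdd t.2).natAbs ≤ c := by
    refine ⟨T.sup (fun t => (Multiplicative.toAdd t.2).natAbs), ?_⟩
    intro t ht
    exact Finset.le_sup (f := fun t : G × Multiplicative ℤ => (Multiplicative.toAdd t.2).natAbs) ht
  let A : ℕ → K → L → (G →₀ ℂ) := fun k i j =>
    Finsupp.comapDomain (fun g : G => (g, Multiplicative.ofAdd ((k : ℤ) - c))) (B i j)
      (fun a _ b _ hab => (Prod.mk.inj hab).1)
  let s : G × Multiplicative ℤ := (1, Multiplicative.ofAdd (-(c : ℤ)))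
  let B' : K → L → (G × Multiplicative ℤ →₀ ℂ) := fun i j =>
    Finsupp.comapDomain (fun t : G × Multiplicative ℤ => t * s) (B i j)
      (fun a _ b _ hab => mul_right_cancel hab)
  refine ⟨2 * c, A, B', ?_, ?_, fun k i j g => ⟨_, rfl⟩⟩
  · intro i j g k
    have h1 : B' i j (g, Multiplicative.ofAdd k) = B i j (g, Multiplicative.ofAdd (k - c)) := by
      change B i j ((g, Multiplicative.ofAdd k) * (1, Multiplicative.ofAdd (-(c : ℤ)))) = _
      rw [Prod.mk_mul_mk, mul_one, ← ofAdd_add, sub_eq_add_neg]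
    rw [h1]
    split_ifs with hk
    · change _ = B i j (g, Multiplicative.ofAdd ((k.toNat : ℤ) - c))
      rw [Int.toNat_of_nonneg hk.1]
    · by_contra h0
      have h2 := hc _ (hT i j (Finsupp.mem_support_iff.2 h0))
      have h3 : (k - (c : ℤ)).natAbs ≤ c := h2
      apply hk
      push_cast
      omega
  · refine kerDimM_shift B B' (fun _ => 1) (fun _ => s⁻¹) ?_
    intro i j t
    change B i j (1 * t * s⁻¹ * s) = B i j t
    rw [one_mul, inv_mul_cancel_right]

/-- the dimensions over the product with `ℤ` -/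
theorem exists_same (B : K → L → (G × Multiplicative ℤ →₀ ℂ)) :
    ∃ C : K → L → (G →₀ ℂ), kerDimM C = kerDimM B := by
  obtain ⟨d, A, B', hB', hk, _⟩ := exists_poly B
  obtain ⟨x, hx⟩ : ∃ x : ℂ, kerDimM (ev d A x) = kerDimM B' := by
    by_contra hcon
    push Not at hcon
    apply not_countable_complex
    refine (countable_exc d A B' hB').mono ?_
    intro x _
    exact hcon x
  exact ⟨_, hx.trans hk⟩

/-- natural numbers with a value close to the generic value -/
theorem exists_nat_close (d : ℕ) (A : ℕ → K → L → (G →₀ ℂ))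
    (B : K → L → (G × Multiplicative ℤ →₀ ℂ)) (hB : IsPoly d A B) (Z : Set ℂ) (hZ : Z.Infinite)
    (ε : ℝ) (hε : 0 < ε) : ∃ x ∈ Z, kerDimM (ev d A x) < kerDimM B + ε := by
  by_contra hcon
  push Not at hcon
  obtain ⟨s, hs⟩ := exists_nat_gt (d * (Fintype.card K - kerDimM B) / ε)
  obtain ⟨Y, hYZ, hYs⟩ := hZ.exists_subset_card_eq s
  have h1 := sum_le d A B hB Y
  have h2 : (s : ℝ) * (kerDimM B + ε) ≤ ∑ x ∈ Y, kerDimM (ev d A x) := by
    rw [← hYs, ← nsmul_eq_mul, ← Finset.sum_const]
    exact Finset.sum_le_sum fun x hx => hcon x (hYZ hx)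
  rw [div_lt_iff₀ hε] at hs
  rw [hYs] at h1
  linarith

/-- approximation of the dimensions over the product with `ℤ`, with coefficients in a subring -/
theorem exists_close (R : Subring ℂ) (B : K → L → (G × Multiplicative ℤ →₀ ℂ))
    (hBR : ∀ i j t, B i j t ∈ R) (ε : ℝ) (hε : 0 < ε) :
    ∃ C : K → L → (G →₀ ℂ), (∀ i j g, C i j g ∈ R) ∧ kerDimM B ≤ kerDimM C ∧
      kerDimM C < kerDimM B + ε := by
  obtain ⟨d, A, B', hB', hk, hAB⟩ := exists_poly B
  obtain ⟨x, ⟨k, hkx⟩, hx⟩ := exists_nat_close d A B' hB' (Set.range (fun k : ℕ => (k : ℂ)))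
    (Set.infinite_range_of_injective Nat.cast_injective) ε hε
  refine ⟨ev d A x, ?_, ?_, ?_⟩
  · intro i j g
    rw [ev_apply]
    apply Subring.sum_mem
    intro l _
    obtain ⟨t, ht⟩ := hAB l i j g
    have hxR : x ∈ R := by
      rw [← hkx]
      exact natCast_mem R k
    exact R.mul_mem (R.pow_mem hxR l) (by rw [ht]; exact hBR i j t)
  · rw [← hk]
    exact ge_gen d A B' hB' x
  · rw [← hk]
    exact hx

/-- pulling back along an injective homomorphism -/
theorem exists_comap {Γ : Type z} [Group Γ] (j : G →* Γ) (hj : Function.Injective j)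
    (B : K → L → (Γ →₀ ℂ)) (hB : ∀ i k γ, γ ∉ Set.range j → B i k γ = 0) :
    ∃ C : K → L → (G →₀ ℂ), kerDimM C = kerDimM B ∧ ∀ i k g, C i k g = B i k (j g) := by
  let C : K → L → (G →₀ ℂ) := fun i k => Finsupp.comapDomain j (B i k) hj.injOn
  exact ⟨C, (kerDimM_inj j hj C B (fun i k g => rfl) hB).symm, fun i k g => rfl⟩

/-- pushing forward along an injective homomorphism -/
theorem exists_map {Γ : Type z} [Group Γ] (j : G →* Γ) (hj : Function.Injective j)
    (C : K → L → (G →₀ ℂ)) : ∃ B : K → L → (Γ →₀ ℂ), kerDimM B = kerDimM C ∧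
      ∀ (R : Subring ℂ), (∀ i k g, C i k g ∈ R) → ∀ i k t, B i k t ∈ R := by
  classical
  let B : K → L → (Γ →₀ ℂ) := fun i k => (C i k).mapDomain j
  refine ⟨B, kerDimM_inj j hj C B (fun i k g => Finsupp.mapDomain_apply hj _ _)
    (fun i k γ hγ => Finsupp.mapDomain_of_notMem_range _ _ hγ), ?_⟩
  intro R hR i k t
  by_cases ht : t ∈ Set.range j
  · obtain ⟨g, rfl⟩ := ht
    change (C i k).mapDomain j (j g) ∈ R
    rw [Finsupp.mapDomain_apply hj]
    exact hR i k g
  · change (C i k).mapDomain j t ∈ R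
    rw [Finsupp.mapDomain_of_notMem_range _ _ ht]
    exact R.zero_mem

end

/-- the inclusion of the first factor, for a trivial second factor -/
theorem inl_range (G : Type u) [Group G] (γ : G × Multiplicative (Fin 0 → ℤ)) :
    γ ∈ Set.range (MonoidHom.inl G (Multiplicative (Fin 0 → ℤ))) := by
  refine ⟨γ.1, ?_⟩
  have h1 : γ.2 = 1 := by
    apply Multiplicative.toAdd.injective
    funext a
    exact a.elim0
  exact Prod.ext rfl h1.symm

/-- splitting off the first coordinate -/
def spl (G : Type u) [Group G] (r : ℕ) : (G × Multiplicative (Fin r → ℤ)) × Multiplicative ℤ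
    →* G × Multiplicative (Fin (r + 1) → ℤ) where
  toFun := fun t => (t.1.1, Multiplicative.ofAdd
    (Fin.cons (Multiplicative.toAdd t.2) (Multiplicative.toAdd t.1.2)))
  map_one' := by
    refine Prod.ext rfl ?_
    apply Multiplicative.toAdd.injective
    funext a
    refine Fin.cases ?_ (fun i => ?_) a
    · rfl
    · rfl
  map_mul' := by
    intro s t
    refine Prod.ext rfl ?_
    apply Multiplicative.toAdd.injective
    funext a
    refine Fin.cases ?_ (fun i => ?_) a
    · rfl
    · rfl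

theorem spl_inj (G : Type u) [Group G] (r : ℕ) : Function.Injective (spl G r) := by
  rintro ⟨⟨g, v⟩, k⟩ ⟨⟨g', v'⟩, k'⟩ h
  obtain ⟨h1, h2⟩ := Prod.mk.inj h
  have h3 : (Fin.cons (Multiplicative.toAdd k) (Multiplicative.toAdd v) : Fin (r + 1) → ℤ)
      = Fin.cons (Multiplicative.toAdd k') (Multiplicative.toAdd v') :=
    Multiplicative.ofAdd.injective h2
  obtain ⟨h4, h5⟩ := Fin.cons_injective2 h3
  have h6 : k = k' := Multiplicative.toAdd.injective h4
  have h7 : v = v' := Multiplicative.toAdd.injective h5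
  have h1' : g = g' := h1
  rw [h1', h6, h7]

theorem spl_range (G : Type u) [Group G] (r : ℕ) (γ : G × Multiplicative (Fin (r + 1) → ℤ)) :
    γ ∈ Set.range (spl G r) := by
  refine ⟨((γ.1, Multiplicative.ofAdd (Fin.tail (Multiplicative.toAdd γ.2))),
    Multiplicative.ofAdd (Multiplicative.toAdd γ.2 0)), ?_⟩
  refine Prod.ext rfl ?_
  apply Multiplicative.toAdd.injective
  exact Fin.cons_self_tail (Multiplicative.toAdd γ.2)

section
variable {K : Type v} {L : Type w} [Fintype K] [Fintype L] [DecidableEq K] [DecidableEq L]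

/-- the dimensions over the product with a lattice -/
theorem exists_same_pow (G : Type u) [Group G] (r : ℕ) :
    ∀ B : K → L → (G × Multiplicative (Fin r → ℤ) →₀ ℂ),
      ∃ C : K → L → (G →₀ ℂ), kerDimM C = kerDimM B := by
  induction r with
  | zero =>
    intro B
    obtain ⟨C, hC, _⟩ := exists_comap (MonoidHom.inl G (Multiplicative (Fin 0 → ℤ)))
      (fun x y hxy => (Prod.mk.inj hxy).1) B (fun i k γ hγ => absurd (inl_range G γ) hγ)
    exact ⟨C, hC⟩
  | succ r ih =>
    intro B
    obtain ⟨C', hC', _⟩ := exists_comap (spl G r) (spl_inj G r) B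
      (fun i k γ hγ => absurd (spl_range G r γ) hγ)
    obtain ⟨C'', hC''⟩ := exists_same C'
    obtain ⟨C, hC⟩ := ih C''
    exact ⟨C, hC.trans (hC''.trans hC')⟩

/-- the approximation over the product with a lattice -/
theorem exists_close_pow (G : Type u) [Group G] (R : Subring ℂ) (r : ℕ) :
    ∀ (B : K → L → (G × Multiplicative (Fin r → ℤ) →₀ ℂ)), (∀ i j t, B i j t ∈ R) →
      ∀ ε : ℝ, 0 < ε → ∃ C : K → L → (G →₀ ℂ), (∀ i j g, C i j g ∈ R) ∧
        kerDimM B ≤ kerDimM C ∧ kerDimM C < kerDimM B + ε := by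
  induction r with
  | zero =>
    intro B hB ε hε
    obtain ⟨C, hC, hCB⟩ := exists_comap (MonoidHom.inl G (Multiplicative (Fin 0 → ℤ)))
      (fun x y hxy => (Prod.mk.inj hxy).1) B (fun i k γ hγ => absurd (inl_range G γ) hγ)
    refine ⟨C, fun i j g => ?_, hC.ge, ?_⟩
    · rw [hCB]
      exact hB _ _ _
    · rw [hC]
      linarith
  | succ r ih =>
    intro B hB ε hε
    obtain ⟨C', hC', hCB⟩ := exists_comap (spl G r) (spl_inj G r) B
      (fun i k γ hγ => absurd (spl_range G r γ) hγ)
    obtain ⟨C'', hR, h1, h2⟩ := exists_close R C' (fun i j t => by rw [hCB]; exact hB _ _ _)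
      (ε / 2) (half_pos hε)
    obtain ⟨C, hR', h3, h4⟩ := ih C'' hR (ε / 2) (half_pos hε)
    refine ⟨C, hR', ?_, ?_⟩
    · rw [← hC']
      exact h1.trans h3
    · rw [← hC']
      linarith

/-- reduction of a torsion-free abelian group to a lattice -/
theorem exists_lattice (G : Type u) [Group G] (Q : Type z) [CommGroup Q]
    (hQ : ∀ (q : Q) (n : ℕ), 0 < n → q ^ n = 1 → q = 1) (B : K → L → (G × Q →₀ ℂ)) :
    ∃ (r : ℕ) (C : K → L → (G × Multiplicative (Fin r → ℤ) →₀ ℂ)), kerDimM C = kerDimM B ∧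
      ∀ (R : Subring ℂ), (∀ i k t, B i k t ∈ R) → ∀ i k t, C i k t ∈ R := by
  classical
  obtain ⟨T, hT⟩ := exists_supp B
  let Q0 : Subgroup Q := Subgroup.closure ((T.image Prod.snd : Finset Q) : Set Q)
  have hfg : Group.FG Q0 := (Group.fg_iff_subgroup_fg Q0).2 ⟨_, rfl⟩
  have hfin : Module.Finite ℤ (Additive Q0) := by
    rw [Module.Finite.iff_addGroup_fg]
    exact GroupFG.iff_add_fg.1 hfg
  have htf : IsAddTorsionFree (Additive Q0) := by
    constructor
    intro n hn a b hab
    have h1 : (Additive.toMul a : Q0) ^ n = (Additive.toMul b : Q0) ^ n := hab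
    have h2 : (((Additive.toMul a : Q0) : Q) / ((Additive.toMul b : Q0) : Q)) ^ n = 1 := by
      rw [div_pow, ← Subgroup.coe_pow, ← Subgroup.coe_pow, h1, div_self']
    have h3 := hQ _ n (Nat.pos_of_ne_zero hn) h2
    rw [div_eq_one] at h3
    exact Additive.toMul.injective (Subtype.ext h3)
  obtain ⟨r, ⟨b⟩⟩ : ∃ r : ℕ, Nonempty (Additive Q0 ≃ₗ[ℤ] (Fin r → ℤ)) := by
    have : Module.Free ℤ (Additive Q0) := inferInstance
    exact ⟨_, ⟨(Module.finBasis ℤ (Additive Q0)).equivFun⟩⟩
  let j : G × Multiplicative (Fin r → ℤ) →* G × Q :=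
    { toFun := fun t => (t.1, ((Additive.toMul (b.symm (Multiplicative.toAdd t.2)) : Q0) : Q))
      map_one' := by
        refine Prod.ext rfl ?_
        change ((Additive.toMul (b.symm (Multiplicative.toAdd (1 : Multiplicative (Fin r → ℤ)))) : Q0)
          : Q) = 1
        rw [toAdd_one, map_zero, toMul_zero]
        rfl
      map_mul' := by
        intro s t
        refine Prod.ext rfl ?_
        change ((Additive.toMul (b.symm (Multiplicative.toAdd (s.2 * t.2))) : Q0) : Q)
          = ((Additive.toMul (b.symm (Multiplicative.toAdd s.2)) : Q0) : Q)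
            * ((Additive.toMul (b.symm (Multiplicative.toAdd t.2)) : Q0) : Q)
        rw [toAdd_mul, map_add, toMul_add]
        rfl }
  have hj : Function.Injective j := by
    rintro ⟨g, v⟩ ⟨g', v'⟩ h
    obtain ⟨h1, h2⟩ := Prod.mk.inj h
    have h3 := b.symm.injective (Additive.toMul.injective (Subtype.ext h2))
    have h4 : v = v' := Multiplicative.toAdd.injective h3
    have h1' : g = g' := h1
    rw [h1', h4]
  obtain ⟨C', hC', hCB⟩ := exists_comap j hj B (by
    rintro i k ⟨g, q⟩ hγ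
    by_contra h0
    apply hγ
    have h1 : q ∈ Q0 := by
      apply Subgroup.subset_closure
      exact Finset.mem_coe.2 (Finset.mem_image_of_mem Prod.snd
        (hT i k (Finsupp.mem_support_iff.2 h0)))
    refine ⟨(g, Multiplicative.ofAdd (b (Additive.ofMul ⟨q, h1⟩))), ?_⟩
    refine Prod.ext rfl ?_
    change ((Additive.toMul (b.symm (b (Additive.ofMul (⟨q, h1⟩ : Q0)))) : Q0) : Q) = q
    rw [LinearEquiv.symm_apply_apply]
    rfl)
  exact ⟨r, C', hC', fun R hR i k t => by rw [hCB]; exact hR _ _ _⟩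

/-- the dimensions over the product with a torsion-free abelian group -/
theorem exists_same_abelian (G : Type u) [Group G] (Q : Type z) [CommGroup Q]
    (hQ : ∀ (q : Q) (n : ℕ), 0 < n → q ^ n = 1 → q = 1) (B : K → L → (G × Q →₀ ℂ)) :
    ∃ C : K → L → (G →₀ ℂ), kerDimM C = kerDimM B := by
  obtain ⟨r, C', hC', _⟩ := exists_lattice G Q hQ B
  obtain ⟨C, hC⟩ := exists_same_pow G r C'
  exact ⟨C, hC.trans hC'⟩

theorem exists_close_abelian (G : Type u) [Group G] (Q : Type z) [CommGroup Q]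
    (hQ : ∀ (q : Q) (n : ℕ), 0 < n → q ^ n = 1 → q = 1) (R : Subring ℂ)
    (B : K → L → (G × Q →₀ ℂ)) (hB : ∀ i j t, B i j t ∈ R) (ε : ℝ) (hε : 0 < ε) :
    ∃ C : K → L → (G →₀ ℂ), (∀ i j g, C i j g ∈ R) ∧ kerDimM B ≤ kerDimM C ∧
      kerDimM C < kerDimM B + ε := by
  obtain ⟨r, C', hC', hR⟩ := exists_lattice G Q hQ B
  rw [← hC']
  exact exists_close_pow G R r C' (hR R hB) ε hε

end

end Pool.Agent.X190.PN
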