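import Pool.Agent.X190.PN.Avg

set_option autoImplicit false
set_option linter.unusedSectionVars false

/-! The wreath product of the integers with a group. -/

namespace Pool.Agent.X190.PN

universe u

section
variable (G : Type u) [Group G]

/-- translation of functions -/
noncomputable def wact : G →* MulAut (Multiplicative (G →₀ ℤ)) where
  toFun g := AddEquiv.toMultiplicative (Finsupp.domCongr (Equiv.mulLeft g))
  map_one' := by
    refine MulEquiv.ext fun f => ?_
    apply Multiplicative.toAdd.injective
    refine Finsupp.ext fun x => ?_
    change (Finsupp.domCongr (Equiv.mulLeft (1 : G)) (Multiplicative.toAdd f)) x = Multiplicative.toAdd f x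
    rw [Finsupp.domCongr_apply, Finsupp.equivMapDomain_apply, Equiv.mulLeft_symm_apply, inv_one]
    exact congrArg _ (one_mul x)
  map_mul' g h := by
    refine MulEquiv.ext fun f => ?_
    apply Multiplicative.toAdd.injective
    refine Finsupp.ext fun x => ?_
    change (Finsupp.domCongr (Equiv.mulLeft (g * h)) (Multiplicative.toAdd f)) x
      = (Finsupp.domCongr (Equiv.mulLeft g) (Finsupp.domCongr (Equiv.mulLeft h)
        (Multiplicative.toAdd f))) x
    rw [Finsupp.domCongr_apply, Finsupp.equivMapDomain_apply, Finsupp.domCongr_apply,
      Finsupp.equivMapDomain_apply, Finsupp.domCongr_apply, Finsupp.equivMapDomain_apply,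
      Equiv.mulLeft_symm_apply, Equiv.mulLeft_symm_apply, Equiv.mulLeft_symm_apply, mul_inv_rev]
    exact congrArg _ (mul_assoc _ _ _)

theorem wact_apply (g : G) (f : Multiplicative (G →₀ ℤ)) (x : G) :
    Multiplicative.toAdd (wact G g f) x = Multiplicative.toAdd f (g⁻¹ * x) := by
  change (Finsupp.domCongr (Equiv.mulLeft g) (Multiplicative.toAdd f)) x = _
  rw [Finsupp.domCongr_apply, Finsupp.equivMapDomain_apply]
  simp

/-- the wreath product -/
abbrev Wr : Type u := Multiplicative (G →₀ ℤ) ⋊[wact G] G

theorem wr_torsionFree (hG : ∀ (g : G) (n : ℕ), 0 < n → g ^ n = 1 → g = 1) :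
    ∀ (x : Wr G) (n : ℕ), 0 < n → x ^ n = 1 → x = 1 := by
  intro x n hn hx
  have h1 : x.right = 1 := by
    apply hG x.right n hn
    have h2 := congrArg (SemidirectProduct.rightHom (φ := wact G)) hx
    rw [map_pow, map_one] at h2
    exact h2
  have h2 : x = SemidirectProduct.inl x.left := by
    apply SemidirectProduct.ext
    · rfl
    · exact h1
  rw [h2, ← map_pow] at hx
  have h3 : x.left ^ n = 1 := SemidirectProduct.inl_injective (hx.trans (map_one _).symm)
  have h4 : n • Multiplicative.toAdd x.left = 0 := by
    have := congrArg Multiplicative.toAdd h3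
    rw [toAdd_pow, toAdd_one] at this
    exact this
  have h5 : Multiplicative.toAdd x.left = 0 := by
    ext y
    have h6 := DFunLike.congr_fun h4 y
    rw [Finsupp.smul_apply, Finsupp.zero_apply, smul_eq_zero] at h6
    rcases h6 with h6 | h6
    · omega
    · exact h6
  have h6 : x.left = 1 := Multiplicative.toAdd.injective h5
  rw [h2, h6, map_one]

theorem wr_icc [Infinite G] : ICC (Wr G) := by
  intro x hx
  by_cases hr : x.right = 1
  · -- translates
    have hl : Multiplicative.toAdd x.left ≠ 0 := by
      intro h
      apply hx
      apply SemidirectProduct.ext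
      · exact Multiplicative.toAdd.injective h
      · exact hr
    obtain ⟨x0, hx0⟩ : ∃ x0, Multiplicative.toAdd x.left x0 ≠ 0 := by
      by_contra hcon
      push Not at hcon
      exact hl (Finsupp.ext hcon)
    intro hfin
    classical
    let U : Set G := ⋃ y ∈ {y : Wr G | ∃ h : Wr G, y = h * x * h⁻¹},
      ((Multiplicative.toAdd y.left).support : Set G)
    have hU : U.Finite := hfin.biUnion (fun y _ => Finset.finite_toSet _)
    have hall : ∀ h : G, h * x0 ∈ U := by
      intro h
      refine Set.mem_biUnion (x := SemidirectProduct.inr h * x * (SemidirectProduct.inr h)⁻¹)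
        ⟨_, rfl⟩ ?_
      rw [Finset.mem_coe, Finsupp.mem_support_iff]
      have h1 : (SemidirectProduct.inr h * x * (SemidirectProduct.inr h)⁻¹ : Wr G).left
          = wact G h x.left := by
        rw [SemidirectProduct.mul_left, SemidirectProduct.mul_left, SemidirectProduct.left_inr,
          SemidirectProduct.right_inr, one_mul, SemidirectProduct.inv_left,
          SemidirectProduct.left_inr, inv_one, map_one, map_one, mul_one]
      rw [h1, wact_apply, inv_mul_cancel_left]
      exact hx0
    have hinf : (Set.range fun h : G => h * x0).Infinite :=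
      Set.infinite_range_of_injective (mul_left_injective x0)
    apply hinf
    refine hU.subset ?_
    rintro _ ⟨h, rfl⟩
    exact hall h
  · -- differences
    let c : G → Wr G := fun y =>
      SemidirectProduct.inl (Multiplicative.ofAdd (Finsupp.single y (1 : ℤ)))
    have hc : ∀ y z, Multiplicative.toAdd (c y * x * (c y)⁻¹).left z
        = Finsupp.single y (1 : ℤ) z + Multiplicative.toAdd x.left z
          - Finsupp.single y (1 : ℤ) (x.right⁻¹ * z) := by
      intro y z
      have h1 : (c y * x * (c y)⁻¹).left = (Multiplicative.ofAdd (Finsupp.single y (1 : ℤ))) * x.left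
          * wact G x.right (Multiplicative.ofAdd (Finsupp.single y (1 : ℤ)))⁻¹ := by
        rw [SemidirectProduct.mul_left, SemidirectProduct.mul_left, SemidirectProduct.left_inl,
          SemidirectProduct.mul_right, SemidirectProduct.right_inl, one_mul,
          SemidirectProduct.inv_left, SemidirectProduct.right_inl, SemidirectProduct.left_inl,
          inv_one, map_one]
        rfl
      rw [h1, toAdd_mul, toAdd_mul, map_inv, toAdd_inv]
      change Finsupp.single y (1 : ℤ) z + Multiplicative.toAdd x.left z
        + -(Multiplicative.toAdd (wact G x.right (Multiplicative.ofAdd (Finsupp.single y (1 : ℤ)))) z)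
        = _
      rw [wact_apply]
      rfl
    have hinj : Function.Injective (fun y => c y * x * (c y)⁻¹) := by
      classical
      intro y y' h
      by_contra hne
      have h1 := congrArg (fun w : Wr G => Multiplicative.toAdd w.left y) h
      simp only at h1
      rw [hc, hc] at h1
      have h2 : x.right⁻¹ * y ≠ y := by
        intro h3
        apply hr
        have h4 : x.right⁻¹ = 1 := mul_eq_right.1 h3
        rw [← inv_inv x.right, h4, inv_one]
      rw [Finsupp.single_eq_same, Finsupp.single_eq_of_ne (fun h3 => h2 h3),
        Finsupp.single_eq_of_ne hne, sub_zero, zero_add] at h1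
      have h5 : 0 ≤ Finsupp.single y' (1 : ℤ) (x.right⁻¹ * y) := by
        rw [Finsupp.single_apply]
        split_ifs <;> norm_num
      linarith
    refine (Set.infinite_range_of_injective hinj).mono ?_
    rintro _ ⟨y, rfl⟩
    exact ⟨c y, rfl⟩

end

end Pool.Agent.X190.PN
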