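import Pool.Agent.X190.PN.Sum
import Pool.Agent.X190.PN.Wreath
import Pool.Agent.X190.PN.Main

set_option autoImplicit false
set_option linter.unusedSectionVars false

open scoped InnerProductSpace InnerProduct ENNReal Topology Pointwise
open Filter

/-! The set of kernel dimensions. -/

namespace Pool.Agent.X190.PN

open Pool.Agent.W649.ZL Pool.Agent.X190.TW Pool.Agent.X190.AT

universe u v w z y

/-- the set of kernel dimensions -/
def DD (R : Subring ℂ) (G : Type u) [Group G] : Set ℝ :=
  {r | ∃ (m l : ℕ) (A : Fin m → Fin l → (G →₀ ℂ)), (∀ i j g, A i j g ∈ R) ∧ r = kerDimM A}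

section
variable {G : Type u} [Group G] (R : Subring ℂ)

/-- all finite index sets are allowed -/
theorem mem_DD {K : Type v} {L : Type w} [Fintype K] [Fintype L] [DecidableEq K] [DecidableEq L]
    (A : K → L → (G →₀ ℂ)) (hA : ∀ i j g, A i j g ∈ R) : kerDimM A ∈ DD R G := by
  refine ⟨Fintype.card K, Fintype.card L, fun i j =>
    A ((Fintype.equivFin K).symm i) ((Fintype.equivFin L).symm j), fun i j g => hA _ _ _, ?_⟩
  exact (kerDimM_reindex A (Fintype.equivFin K).symm (Fintype.equivFin L).symm).symm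

theorem DD_nonneg : ∀ r ∈ DD R G, 0 ≤ r := by
  rintro r ⟨m, l, A, _, rfl⟩
  exact kerDimM_nonneg' A

theorem zero_mem_DD : (0 : ℝ) ∈ DD R G := by
  refine ⟨0, 0, fun i _ => i.elim0, fun i _ _ => i.elim0, ?_⟩
  apply le_antisymm (kerDimM_nonneg' _)
  have h := kerDimM_le_card' (fun (i : Fin 0) (_ : Fin 0) => (i.elim0 : G →₀ ℂ))
  rw [Fintype.card_fin, Nat.cast_zero] at h
  exact h

theorem one_mem_DD : (1 : ℝ) ∈ DD R G := by
  refine ⟨1, 0, fun _ j => j.elim0, fun _ j _ => j.elim0, ?_⟩
  obtain ⟨S, hS, hSk, hSa⟩ := exists_op (fun (_ : Fin 1) (j : Fin 0) => (j.elim0 : G →₀ ℂ))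
  have h1 : LinearMap.ker (S : EE G (Fin 1) →ₗ[ℂ] EE G (Fin 0)) = ⊤ := by
    rw [eq_top_iff]
    intro F _
    change S F = 0
    ext ⟨x, j⟩
    exact j.elim0
  rw [hSk, h1, vd_top, Fintype.card_fin, Nat.cast_one]

theorem add_mem_DD : ∀ r ∈ DD R G, ∀ s ∈ DD R G, r + s ∈ DD R G := by
  rintro r ⟨m, l, A, hA, rfl⟩ s ⟨m', l', B, hB, rfl⟩
  rw [← kerDimM_dsum]
  apply mem_DD
  intro i j g
  rcases i with i | i <;> rcases j with j | j
  · exact hA i j g
  · exact R.zero_mem
  · exact R.zero_mem
  · exact hB i j g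

theorem sub_mem_closure (hG : ICC G) : ∀ x ∈ closure (DD R G), 1 ≤ x → x - 1 ∈ closure (DD R G) := by
  intro x hx hx1
  rw [Metric.mem_closure_iff] at hx ⊢
  intro ε hε
  obtain ⟨d, ⟨m, l, A, hA, rfl⟩, hd⟩ := hx (ε / 2) (half_pos hε)
  obtain ⟨b, hb, hle⟩ := reduce hG R A (ε / 4) (by linarith)
  refine ⟨kerDimM (ext A b), ?_, ?_⟩
  · apply mem_DD
    intro i j g
    rcases j with j | j
    · exact hA i j g
    · exact hb i g
  · have h1 := ext_ge A b
    have h2 := kerDimM_nonneg' (ext A b)
    rw [Real.dist_eq, abs_lt] at hd ⊢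
    rcases le_total (kerDimM A - 1) 0 with h3 | h3
    · rw [max_eq_right h3] at hle
      constructor <;> linarith
    · rw [max_eq_left h3] at hle
      constructor <;> linarith

/-- the dichotomy -/
theorem dichotomy (hG : ICC G) :
    (∃ N : ℕ, 0 < N ∧ DD R G = {x : ℝ | ∃ k : ℕ, x = (k : ℝ) / N}) ∨ closure (DD R G) = Set.Ici 0 := by
  have h0 : ∀ x ∈ closure (DD R G), 0 ≤ x := by
    intro x hx
    have h1 : closure (DD R G) ⊆ Set.Ici 0 := closure_minimal (DD_nonneg R) isClosed_Ici
    exact h1 hx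
  have hadd : ∀ x ∈ closure (DD R G), ∀ y ∈ closure (DD R G), x + y ∈ closure (DD R G) := by
    intro x hx y hy
    rw [Metric.mem_closure_iff] at hx hy ⊢
    intro ε hε
    obtain ⟨a, ha, hxa⟩ := hx (ε / 2) (half_pos hε)
    obtain ⟨b, hb, hyb⟩ := hy (ε / 2) (half_pos hε)
    refine ⟨a + b, add_mem_DD R a ha b hb, ?_⟩
    calc dist (x + y) (a + b) ≤ dist x a + dist y b := dist_add_add_le _ _ _ _
      _ < ε := by linarith
  rcases closed_monoid (closure (DD R G)) h0 isClosed_closure (subset_closure (zero_mem_DD R))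
    (subset_closure (one_mem_DD R)) hadd (sub_mem_closure R hG) with ⟨N, hN, h⟩ | h
  · left
    refine ⟨N, hN, ?_⟩
    have hNr : (0 : ℝ) < N := by exact_mod_cast hN
    apply Set.Subset.antisymm
    · rw [← h]
      exact subset_closure
    · rintro x ⟨k, rfl⟩
      have hx : (k : ℝ) / N ∈ closure (DD R G) := by
        rw [h]
        exact ⟨k, rfl⟩
      rw [Metric.mem_closure_iff] at hx
      obtain ⟨d, hd, hdist⟩ := hx (1 / N) (by positivity)
      have hd' : d ∈ closure (DD R G) := subset_closure hd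
      rw [h] at hd'
      obtain ⟨j, rfl⟩ := hd'
      have h2 : k = j := by
        rw [Real.dist_eq, ← sub_div, abs_div, abs_of_pos hNr, div_lt_div_iff_of_pos_right hNr] at hdist
        have h3 : |((k : ℤ) - (j : ℤ) : ℤ)| < 1 := by
          have h4 : ((|((k : ℤ) - (j : ℤ))| : ℤ) : ℝ) < 1 := by
            push_cast
            exact hdist
          exact_mod_cast h4
        rw [Int.abs_lt_one_iff] at h3
        omega
      rw [h2]
      exact hd
  · right
    exact h

/-- finite subgroups -/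
theorem inv_card_mem_DD (H : Subgroup G) [Finite H] : 1 / (Nat.card H : ℝ) ∈ DD R G := by
  classical
  have : Fintype H := Fintype.ofFinite H
  let A : Unit → H → (G →₀ ℂ) := fun _ h => Finsupp.single (h : G) 1 - Finsupp.single 1 1
  have hAR : ∀ i j g, A i j g ∈ R := by
    intro i j g
    change ((Finsupp.single (j : G) (1 : ℂ) - Finsupp.single 1 1 : G →₀ ℂ)) g ∈ R
    rw [Finsupp.sub_apply]
    apply R.sub_mem
    · rw [Finsupp.single_apply]
      split_ifs
      · exact R.one_mem
      · exact R.zero_mem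
    · rw [Finsupp.single_apply]
      split_ifs
      · exact R.one_mem
      · exact R.zero_mem
  have hmem := mem_DD R A hAR
  suffices hk : kerDimM A = 1 / (Nat.card H : ℝ) by
    rw [← hk]
    exact hmem
  let T : Finset G := Finset.univ.image (fun h : H => (h : G))
  have hT : ∀ i j, (A i j).support ⊆ T := by
    intro i j g hg
    by_contra hcon
    apply Finsupp.mem_support_iff.1 hg
    change ((Finsupp.single (j : G) (1 : ℂ) - Finsupp.single 1 1 : G →₀ ℂ)) g = 0
    rw [Finsupp.sub_apply, Finsupp.single_eq_of_ne, Finsupp.single_eq_of_ne, sub_zero]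
    · rintro rfl
      exact hcon (Finset.mem_image.2 ⟨1, Finset.mem_univ _, rfl⟩)
    · rintro rfl
      exact hcon (Finset.mem_image_of_mem _ (Finset.mem_univ _))
  have hTh : ∀ h : H, (h : G) ∈ T := fun h => Finset.mem_image_of_mem _ (Finset.mem_univ h)
  have hT1 : (1 : G) ∈ T := hTh 1
  obtain ⟨S, hS, hSk, hSa⟩ := exists_opT A T hT
  have hSa' : ∀ (F : EE G Unit) (u : G) (h : H), S F (u, h) = F ((h : G) * u, ()) - F (u, ()) := by
    intro F u h
    rw [hSa, Fintype.sum_unique]
    change ∑ t ∈ T, ((Finsupp.single (h : G) (1 : ℂ) - Finsupp.single 1 1 : G →₀ ℂ)) t * F (t * u, ()) = _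
    have h1 : ∀ t ∈ T, ((Finsupp.single (h : G) (1 : ℂ) - Finsupp.single 1 1 : G →₀ ℂ)) t * F (t * u, ())
        = (if t = (h : G) then F (t * u, ()) else 0) - (if t = 1 then F (t * u, ()) else 0) := by
      intro t _
      rw [Finsupp.sub_apply, Finsupp.single_apply, Finsupp.single_apply, sub_mul, ite_mul, ite_mul,
        one_mul, zero_mul]
      congr 1
      · exact if_congr eq_comm rfl rfl
      · exact if_congr eq_comm rfl rfl
    rw [Finset.sum_congr rfl h1, Finset.sum_sub_distrib, Finset.sum_ite_eq', Finset.sum_ite_eq',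
      if_pos (hTh h), if_pos hT1, one_mul]
  have hcl := ContinuousLinearMap.isClosed_ker S
  let P : Submodule ℂ (EE G Unit) := LinearMap.ker (S : EE G Unit →ₗ[ℂ] EE G H)
  have i1 : CompleteSpace P := hcl.completeSpace_coe
  have hmemP : ∀ F : EE G Unit, F ∈ P ↔ ∀ (u : G) (h : H), F ((h : G) * u, ()) = F (u, ()) := by
    intro F
    constructor
    · intro hF u h
      have hF0 : S F = 0 := hF
      have h1 := hSa' F u h
      rw [hF0] at h1
      have h2 : (0 : ℂ) = F ((h : G) * u, ()) - F (u, ()) := h1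
      exact (sub_eq_zero.1 h2.symm)
    · intro hF
      change S F = 0
      ext ⟨u, h⟩
      rw [hSa', hF, sub_self]
      rfl
  have hcard : (Nat.card H : ℂ) ≠ 0 := by
    exact_mod_cast (Nat.card_pos (α := H)).ne'
  let p0 : EE G Unit := (1 / (Nat.card H : ℂ)) • ∑ h : H, dl ((h : G), ())
  have hp0 : ∀ x : G, p0 (x, ()) = (1 / (Nat.card H : ℂ)) * (if x ∈ H then 1 else 0) := by
    intro x
    change (1 / (Nat.card H : ℂ)) * (∑ h : H, (dl ((h : G), ()) : EE G Unit)) (x, ()) = _
    rw [sum_apply_EE]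
    congr 1
    split_ifs with hx
    · rw [Finset.sum_eq_single (⟨x, hx⟩ : H)]
      · exact dl_apply_self _
      · intro h _ hne
        apply dl_apply_ne
        intro h'
        apply hne
        exact Subtype.ext (Prod.mk.inj h').1.symm
      · intro hh
        exact absurd (Finset.mem_univ _) hh
    · apply Finset.sum_eq_zero
      intro h _
      apply dl_apply_ne
      intro h'
      apply hx
      rw [(Prod.mk.inj h').1]
      exact h.2
  have hp0P : p0 ∈ P := by
    rw [hmemP]
    intro u h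
    rw [hp0, hp0]
    congr 1
    exact if_congr (H.mul_mem_cancel_left h.2) rfl rfl
  have hinner : ∀ w ∈ P, ⟪p0, w⟫_ℂ = w (1, ()) := by
    intro w hw
    rw [inner_smul_left, sum_inner]
    have h1 : ∀ h ∈ (Finset.univ : Finset H), ⟪(dl ((h : G), ()) : EE G Unit), w⟫_ℂ = w (1, ()) := by
      intro h _
      rw [inner_dl_left]
      have := (hmemP w).1 hw 1 h
      rwa [mul_one] at this
    rw [Finset.sum_congr rfl h1, Finset.sum_const, Finset.card_univ, nsmul_eq_mul,
      ← Nat.card_eq_fintype_card, map_div₀, map_one, Complex.conj_natCast, ← mul_assoc,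
      one_div_mul_cancel hcard, one_mul]
  have hproj : P.starProjection (dl ((1 : G), ())) = p0 := by
    apply Submodule.eq_starProjection_of_mem_of_inner_eq_zero hp0P
    intro w hw
    rw [inner_sub_left, inner_dl_left, hinner w hw, sub_self]
  rw [hSk]
  change vd P = _
  rw [vd_eq _ _ (topcl_eq hcl), Fintype.sum_unique]
  change ‖P.starProjection (dl ((1 : G), ()))‖ ^ 2 = _
  have h1 := star_dl P ((1 : G), ())
  rw [hproj, hp0, if_pos H.one_mem, mul_one] at h1
  rw [hproj]
  have h2 : ((1 / (Nat.card H : ℝ) : ℝ) : ℂ) = ((‖p0‖ ^ 2 : ℝ) : ℂ) := by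
    rw [← h1]
    push_cast
    rfl
  exact (Complex.ofReal_injective h2).symm

end

end Pool.Agent.X190.PN
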