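import Pool.Agent.X190.PN.Univ
import Pool.Agent.X190.NC.Norm

set_option autoImplicit false
set_option linter.unusedSectionVars false

open scoped InnerProductSpace InnerProduct ENNReal Topology Pointwise
open Filter

/-! Elements of group algebras of products. -/

namespace Pool.Agent.X190.PN

open Pool.Agent.W649.ZL Pool.Agent.X190.TW Pool.Agent.X190.AT Pool.Agent.X190.NC

universe u v w z y

section
variable {G : Type u} [Group G]

/-- the adjoint element -/
noncomputable def sta (a : G →₀ ℂ) : G →₀ ℂ :=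
  Finsupp.equivMapDomain (Equiv.inv G) (a.mapRange (starRingEnd ℂ) (map_zero _))

theorem sta_apply (a : G →₀ ℂ) (g : G) : sta a g = (starRingEnd ℂ) (a g⁻¹) := by
  unfold sta
  rw [Finsupp.equivMapDomain_apply, Finsupp.mapRange_apply]
  rfl

theorem sta_add (a b : G →₀ ℂ) : sta (a + b) = sta a + sta b := by
  ext g
  rw [Finsupp.add_apply, sta_apply, sta_apply, sta_apply, Finsupp.add_apply, map_add]

theorem sta_single (t : G) (c : ℂ) : sta (Finsupp.single t c) = Finsupp.single t⁻¹ ((starRingEnd ℂ) c) := by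
  classical
  ext g
  rw [sta_apply, Finsupp.single_apply, Finsupp.single_apply]
  by_cases h : t = g⁻¹
  · rw [if_pos h, if_pos (by rw [h, inv_inv])]
  · rw [if_neg h, if_neg, map_zero]
    intro h1
    apply h
    rw [← h1, inv_inv]

theorem inner_Ltr (t : G) (f h : EE G Unit) : ⟪Ltr t⁻¹ f, h⟫_ℂ = ⟪f, Ltr t h⟫_ℂ := by
  rw [lp.inner_eq_tsum, lp.inner_eq_tsum]
  let e : G × Unit ≃ G × Unit := (Equiv.mulLeft t).prodCongr (Equiv.refl Unit)
  rw [← Equiv.tsum_eq e (fun x => ⟪f x, Ltr t h x⟫_ℂ)]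
  refine tsum_congr ?_
  rintro ⟨x, ⟨⟩⟩
  change ⟪Ltr t⁻¹ f (x, ()), h (x, ())⟫_ℂ = ⟪f (t * x, ()), Ltr t h (t * x, ())⟫_ℂ
  rw [Ltr_apply, Ltr_apply, inv_inv, inv_mul_cancel_left]

theorem cop_sta (a : G →₀ ℂ) (f h : EE G Unit) : ⟪cop (sta a) f, h⟫_ℂ = ⟪f, cop a h⟫_ℂ := by
  induction a using Finsupp.induction_linear with
  | zero =>
    have h1 : sta (0 : G →₀ ℂ) = 0 := by
      ext g
      rw [sta_apply, Finsupp.zero_apply, map_zero, Finsupp.zero_apply]
    rw [h1, map_zero]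
    change ⟪(0 : EE G Unit), h⟫_ℂ = ⟪f, (0 : EE G Unit)⟫_ℂ
    rw [inner_zero_left, inner_zero_right]
  | add a b ha hb =>
    rw [sta_add, map_add, map_add]
    change ⟪cop (sta a) f + cop (sta b) f, h⟫_ℂ = ⟪f, cop a h + cop b h⟫_ℂ
    rw [inner_add_left, inner_add_right, ha, hb]
  | single t c =>
    rw [sta_single, cop_single, cop_single]
    change ⟪(starRingEnd ℂ) c • Ltr t⁻¹ f, h⟫_ℂ = ⟪f, c • Ltr t h⟫_ℂ
    rw [inner_smul_left, inner_smul_right, RingHomCompTriple.comp_apply, inner_Ltr]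
    simp

end

section
variable {G : Type u} {H : Type z} [Group G] [Group H]

/-- slices in the first variable -/
noncomputable def su1 (h : H) (F : EE (G × H) Unit) : EE G Unit :=
  pull (Set.univ : Set (G × Unit)) (fun x => ((x.1.1, h), ())) (by
    rintro ⟨⟨x, ⟨⟩⟩, _⟩ ⟨⟨x', ⟨⟩⟩, _⟩ hh
    obtain ⟨e1, _⟩ := Prod.mk.inj hh
    obtain ⟨e3, _⟩ := Prod.mk.inj e1
    simp only at e3
    rw [Subtype.mk.injEq, e3]) F

theorem su1_apply (h : H) (F : EE (G × H) Unit) (x : G) : su1 h F (x, ()) = F ((x, h), ()) := by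
  unfold su1
  rw [pull_apply, pullFun_mem _ _ _ _ (Set.mem_univ _)]

/-- slices in the second variable -/
noncomputable def su2 (g : G) (F : EE (G × H) Unit) : EE H Unit :=
  pull (Set.univ : Set (H × Unit)) (fun x => ((g, x.1.1), ())) (by
    rintro ⟨⟨x, ⟨⟩⟩, _⟩ ⟨⟨x', ⟨⟩⟩, _⟩ hh
    obtain ⟨e1, _⟩ := Prod.mk.inj hh
    obtain ⟨_, e3⟩ := Prod.mk.inj e1
    simp only at e3
    rw [Subtype.mk.injEq, e3]) F

theorem su2_apply (g : G) (F : EE (G × H) Unit) (y : H) : su2 g F (y, ()) = F ((g, y), ()) := by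
  unfold su2
  rw [pull_apply, pullFun_mem _ _ _ _ (Set.mem_univ _)]

/-- the rearrangement of the index sets -/
def raru : (G × H) × Unit ≃ (G × Unit) × (H × Unit) where
  toFun x := ((x.1.1, ()), (x.1.2, ()))
  invFun x := ((x.1.1, x.2.1), ())
  left_inv _ := rfl
  right_inv _ := rfl

/-- the product of two functions -/
noncomputable def tu (p : EE G Unit) (q : EE H Unit) : EE (G × H) Unit :=
  ⟨fun x => p (x.1.1, ()) * q (x.1.2, ()), by
    apply (memlp_two_iff _).2
    have h1 := (memlp_two_iff _).1 p.2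
    have h2 := (memlp_two_iff _).1 q.2
    have h3 := h1.mul_of_nonneg h2 (fun _ => by positivity) (fun _ => by positivity)
    have h4 := (Equiv.summable_iff (raru (G := G) (H := H))).2 h3
    refine h4.congr fun x => ?_
    rw [norm_mul, mul_pow]
    rfl⟩

theorem tu_apply (p : EE G Unit) (q : EE H Unit) (x : G) (y : H) :
    tu p q ((x, y), ()) = p (x, ()) * q (y, ()) := rfl

theorem inner_tu (p : EE G Unit) (q : EE H Unit) (F : EE (G × H) Unit) :
    ⟪tu p q, F⟫_ℂ = ∑' z : H × Unit, (starRingEnd ℂ) (q z) * ⟪p, su1 z.1 F⟫_ℂ := by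
  have h1 : HasSum (fun x => ⟪tu p q x, F x⟫_ℂ) ⟪tu p q, F⟫_ℂ := lp.hasSum_inner (𝕜 := ℂ) (tu p q) F
  have h2 : HasSum (fun x : (H × Unit) × (G × Unit) =>
      ⟪tu p q ((x.2.1, x.1.1), ()), F ((x.2.1, x.1.1), ())⟫_ℂ)
      ⟪tu p q, F⟫_ℂ := by
    let e : (H × Unit) × (G × Unit) ≃ (G × H) × Unit :=
      (Equiv.prodComm _ _).trans (raru (G := G) (H := H)).symm
    exact (Equiv.hasSum_iff e).2 h1
  have h3 : ∀ z : H × Unit, HasSum (fun x : G × Unit =>
      ⟪tu p q ((x.1, z.1), ()), F ((x.1, z.1), ())⟫_ℂ)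
      ((starRingEnd ℂ) (q z) * ⟪p, su1 z.1 F⟫_ℂ) := by
    intro z
    have h4 : HasSum (fun x => ⟪p x, su1 z.1 F x⟫_ℂ) ⟪p, su1 z.1 F⟫_ℂ :=
      lp.hasSum_inner (𝕜 := ℂ) p (su1 z.1 F)
    have h5 := h4.mul_left ((starRingEnd ℂ) (q z))
    refine h5.congr_fun ?_
    intro x
    rcases x with ⟨x, ⟨⟩⟩
    rcases z with ⟨y, ⟨⟩⟩
    simp only
    rw [tu_apply, su1_apply, RCLike.inner_apply, RCLike.inner_apply, map_mul]
    ring
  exact (h2.prod_fiberwise h3).tsum_eq.symm

/-- the two embeddings -/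
noncomputable abbrev i1 (H : Type z) [Group H] (a : G →₀ ℂ) : G × H →₀ ℂ :=
  a.mapDomain (fun g => (g, (1 : H)))

noncomputable abbrev i2 (G : Type u) [Group G] (b : H →₀ ℂ) : G × H →₀ ℂ :=
  b.mapDomain (fun h => ((1 : G), h))

theorem i1_apply [DecidableEq H] (a : G →₀ ℂ) (g : G) (h : H) :
    i1 H a (g, h) = if h = 1 then a g else 0 := by
  split_ifs with h1
  · rw [h1]
    exact Finsupp.mapDomain_apply (f := fun g : G => (g, (1 : H)))
      (fun a b hab => (Prod.mk.inj hab).1) _ _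
  · apply Finsupp.mapDomain_of_notMem_range
    rintro ⟨g', hg'⟩
    exact h1 (Prod.mk.inj hg').2.symm

theorem i2_apply [DecidableEq G] (b : H →₀ ℂ) (g : G) (h : H) :
    i2 G b (g, h) = if g = 1 then b h else 0 := by
  split_ifs with h1
  · rw [h1]
    exact Finsupp.mapDomain_apply (f := fun h : H => ((1 : G), h))
      (fun a b hab => (Prod.mk.inj hab).2) _ _
  · apply Finsupp.mapDomain_of_notMem_range
    rintro ⟨g', hg'⟩
    exact h1 (Prod.mk.inj hg').1.symm

theorem sta_i1 (a : G →₀ ℂ) : sta (i1 H a) = i1 H (sta a) := by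
  classical
  ext ⟨g, h⟩
  rw [sta_apply, Prod.inv_mk, i1_apply, i1_apply, sta_apply]
  by_cases hh : h = 1
  · rw [if_pos hh, if_pos (by rw [hh, inv_one])]
  · rw [if_neg hh, if_neg (fun h1 => hh (inv_eq_one.1 h1)), map_zero]

theorem sta_i2 (b : H →₀ ℂ) : sta (i2 G b) = i2 G (sta b) := by
  classical
  ext ⟨g, h⟩
  rw [sta_apply, Prod.inv_mk, i2_apply, i2_apply, sta_apply]
  by_cases hh : g = 1
  · rw [if_pos hh, if_pos (by rw [hh, inv_one])]
  · rw [if_neg hh, if_neg (fun h1 => hh (inv_eq_one.1 h1)), map_zero]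

theorem cop_i1 (a : G →₀ ℂ) (F : EE (G × H) Unit) (x : G) (y : H) :
    cop (i1 H a) F ((x, y), ()) = cop a (su1 y F) (x, ()) := by
  induction a using Finsupp.induction_linear with
  | zero =>
    change cop (Finsupp.mapDomain _ 0) F ((x, y), ()) = _
    rw [Finsupp.mapDomain_zero, map_zero, map_zero]
    rfl
  | add a b ha hb =>
    change cop (Finsupp.mapDomain _ (a + b)) F ((x, y), ()) = _
    rw [Finsupp.mapDomain_add, map_add, map_add]
    change cop (i1 H a) F ((x, y), ()) + cop (i1 H b) F ((x, y), ()) = _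
    rw [ha, hb]
    rfl
  | single t c =>
    change cop (Finsupp.mapDomain _ (Finsupp.single t c)) F ((x, y), ()) = _
    rw [Finsupp.mapDomain_single, cop_single, cop_single]
    change c * F (((t, (1 : H))⁻¹ * (x, y)), ()) = c * su1 y F (t⁻¹ * x, ())
    rw [su1_apply, Prod.inv_mk, Prod.mk_mul_mk, inv_one, one_mul]

theorem cop_i2 (b : H →₀ ℂ) (F : EE (G × H) Unit) (x : G) (y : H) :
    cop (i2 G b) F ((x, y), ()) = cop b (su2 x F) (y, ()) := by
  induction b using Finsupp.induction_linear with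
  | zero =>
    change cop (Finsupp.mapDomain _ 0) F ((x, y), ()) = _
    rw [Finsupp.mapDomain_zero, map_zero, map_zero]
    rfl
  | add a b ha hb =>
    change cop (Finsupp.mapDomain _ (a + b)) F ((x, y), ()) = _
    rw [Finsupp.mapDomain_add, map_add, map_add]
    change cop (i2 G a) F ((x, y), ()) + cop (i2 G b) F ((x, y), ()) = _
    rw [ha, hb]
    rfl
  | single t c =>
    change cop (Finsupp.mapDomain _ (Finsupp.single t c)) F ((x, y), ()) = _
    rw [Finsupp.mapDomain_single, cop_single, cop_single]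
    change c * F ((((1 : G), t)⁻¹ * (x, y)), ()) = c * su2 x F (t⁻¹ * y, ())
    rw [su2_apply, Prod.inv_mk, Prod.mk_mul_mk, inv_one, one_mul]

theorem su1_cop (a : G →₀ ℂ) (F : EE (G × H) Unit) (y : H) :
    su1 y (cop (i1 H a) F) = cop a (su1 y F) := by
  ext ⟨x, ⟨⟩⟩
  rw [su1_apply, cop_i1]

theorem su2_cop (b : H →₀ ℂ) (F : EE (G × H) Unit) (x : G) :
    su2 x (cop (i2 G b) F) = cop b (su2 x F) := by
  ext ⟨y, ⟨⟩⟩
  rw [su2_apply, cop_i2]

theorem su1_tu (p : EE G Unit) (q : EE H Unit) (y : H) : su1 y (tu p q) = q (y, ()) • p := by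
  ext ⟨x, ⟨⟩⟩
  rw [su1_apply, tu_apply]
  change _ = q (y, ()) * p (x, ())
  ring

theorem su2_tu (p : EE G Unit) (q : EE H Unit) (x : G) : su2 x (tu p q) = p (x, ()) • q := by
  ext ⟨y, ⟨⟩⟩
  rw [su2_apply, tu_apply]
  rfl

theorem cop_i1_tu (a : G →₀ ℂ) (p : EE G Unit) (q : EE H Unit) :
    cop (i1 H a) (tu p q) = tu (cop a p) q := by
  ext ⟨⟨x, y⟩, ⟨⟩⟩
  rw [cop_i1, su1_tu, map_smul, tu_apply]
  change q (y, ()) * cop a p (x, ()) = _
  ring

theorem cop_i2_tu (b : H →₀ ℂ) (p : EE G Unit) (q : EE H Unit) :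
    cop (i2 G b) (tu p q) = tu p (cop b q) := by
  ext ⟨⟨x, y⟩, ⟨⟩⟩
  rw [cop_i2, su2_tu, map_smul, tu_apply]
  rfl

theorem tu_dl : tu (dl ((1 : G), ())) (dl ((1 : H), ())) = (dl (((1 : G), (1 : H)), ()) : EE (G × H) Unit) := by
  ext ⟨⟨x, y⟩, ⟨⟩⟩
  rw [tu_apply]
  by_cases hx : x = 1
  · by_cases hy : y = 1
    · rw [hx, hy, dl_apply_self, dl_apply_self, dl_apply_self, mul_one]
    · rw [dl_apply_ne ((1 : H), ()), mul_zero, dl_apply_ne]
      · intro h
        exact hy (Prod.mk.inj (Prod.mk.inj h).1).2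
      · intro h
        exact hy (Prod.mk.inj h).1
  · rw [dl_apply_ne ((1 : G), ()), zero_mul, dl_apply_ne]
    · intro h
      exact hx (Prod.mk.inj (Prod.mk.inj h).1).1
    · intro h
      exact hx (Prod.mk.inj h).1

theorem inner_tu_tu (p p' : EE G Unit) (q q' : EE H Unit) :
    ⟪tu p q, tu p' q'⟫_ℂ = ⟪p, p'⟫_ℂ * ⟪q, q'⟫_ℂ := by
  rw [inner_tu, lp.inner_eq_tsum (f := q), ← tsum_mul_left]
  refine tsum_congr ?_
  rintro ⟨y, ⟨⟩⟩
  rw [su1_tu, inner_smul_right, RCLike.inner_apply]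
  ring

theorem norm_tu (p : EE G Unit) (q : EE H Unit) : ‖tu p q‖ = ‖p‖ * ‖q‖ := by
  have h := inner_tu_tu p p q q
  rw [inner_self_eq_norm_sq_to_K, inner_self_eq_norm_sq_to_K, inner_self_eq_norm_sq_to_K] at h
  have h2 : ‖tu p q‖ ^ 2 = (‖p‖ * ‖q‖) ^ 2 := by
    rw [mul_pow]
    exact_mod_cast h
  exact (sq_eq_sq₀ (norm_nonneg _) (by positivity)).1 h2

/-- multiplication with a fixed function of the first variable -/
noncomputable def JJ (p : EE G Unit) : EE H Unit →L[ℂ] EE (G × H) Unit :=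
  LinearMap.mkContinuous
    { toFun := fun q => tu p q
      map_add' := fun q q' => by
        ext ⟨⟨x, y⟩, ⟨⟩⟩
        change p (x, ()) * (q (y, ()) + q' (y, ())) = p (x, ()) * q (y, ()) + p (x, ()) * q' (y, ())
        ring
      map_smul' := fun c q => by
        ext ⟨⟨x, y⟩, ⟨⟩⟩
        change p (x, ()) * (c * q (y, ())) = c * (p (x, ()) * q (y, ()))
        ring } ‖p‖ (fun q => (norm_tu p q).le)

theorem JJ_apply (p : EE G Unit) (q : EE H Unit) : JJ p q = tu p q := rfl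

/-- the nullity of an element -/
noncomputable def nul {K : Type y} [Group K] (a : K →₀ ℂ) : ℝ :=
  vd (LinearMap.ker (cop a : EE K Unit →ₗ[ℂ] EE K Unit))

/-- the intersection of kernels -/
theorem nul_inter (a : G →₀ ℂ) (b : H →₀ ℂ) (c : G × H →₀ ℂ)
    (hc : ∀ F : EE (G × H) Unit, cop c F = 0 ↔ (∀ y, cop a (su1 y F) = 0) ∧ (∀ x, cop b (su2 x F) = 0)) :
    nul c = nul a * nul b := by
  let P : Submodule ℂ (EE G Unit) := LinearMap.ker (cop a : EE G Unit →ₗ[ℂ] EE G Unit)
  let Q : Submodule ℂ (EE H Unit) := LinearMap.ker (cop b : EE H Unit →ₗ[ℂ] EE H Unit)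
  let W : Submodule ℂ (EE (G × H) Unit) :=
    LinearMap.ker (cop c : EE (G × H) Unit →ₗ[ℂ] EE (G × H) Unit)
  have cP := ContinuousLinearMap.isClosed_ker (cop a)
  have cQ := ContinuousLinearMap.isClosed_ker (cop b)
  have cW := ContinuousLinearMap.isClosed_ker (cop c)
  have i1 : CompleteSpace P := cP.completeSpace_coe
  have i2 : CompleteSpace Q := cQ.completeSpace_coe
  have i3 : CompleteSpace W := cW.completeSpace_coe
  have hip : ∀ v ∈ P, ⟪P.starProjection (dl ((1 : G), ())), v⟫_ℂ = v (1, ()) := by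
    intro v hv
    rw [Submodule.inner_starProjection_left_eq_right, Submodule.starProjection_eq_self_iff.2 hv,
      inner_dl_left]
  have hiq : ∀ v ∈ Q, ⟪Q.starProjection (dl ((1 : H), ())), v⟫_ℂ = v (1, ()) := by
    intro v hv
    rw [Submodule.inner_starProjection_left_eq_right, Submodule.starProjection_eq_self_iff.2 hv,
      inner_dl_left]
  set p := P.starProjection (dl ((1 : G), ())) with hp
  set q := Q.starProjection (dl ((1 : H), ())) with hq
  have hpP : p ∈ P := Submodule.starProjection_apply_mem _ _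
  have hqQ : q ∈ Q := Submodule.starProjection_apply_mem _ _
  have hproj : W.starProjection (dl (((1 : G), (1 : H)), ())) = tu p q := by
    have hmem : tu p q ∈ W := by
      change cop c (tu p q) = 0
      rw [hc]
      constructor
      · intro y
        rw [su1_tu, map_smul]
        have : cop a p = 0 := hpP
        rw [this, smul_zero]
      · intro x
        rw [su2_tu, map_smul]
        have : cop b q = 0 := hqQ
        rw [this, smul_zero]
    apply Submodule.eq_starProjection_of_mem_of_inner_eq_zero hmem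
    intro w hw
    obtain ⟨h1, h2⟩ := (hc w).1 hw
    rw [inner_sub_left, inner_dl_left, inner_tu]
    have h3 : ∀ z : H × Unit, (starRingEnd ℂ) (q z) * ⟪p, su1 z.1 w⟫_ℂ = ⟪q z, su2 1 w z⟫_ℂ := by
      rintro ⟨y, ⟨⟩⟩
      rw [hip _ (h1 y), su1_apply, su2_apply, RCLike.inner_apply, mul_comm]
    rw [tsum_congr h3, ← lp.inner_eq_tsum, hiq _ (h2 1), su2_apply]
    change w (((1 : G), (1 : H)), ()) - w ((1, 1), ()) = 0
    exact sub_self _
  have h1 := star_dl W (((1 : G), (1 : H)), ())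
  have h2 := star_dl P ((1 : G), ())
  have h3 := star_dl Q ((1 : H), ())
  rw [hproj, tu_apply, h2, h3] at h1
  unfold nul
  change vd W = vd P * vd Q
  rw [vd_eq _ _ (topcl_eq cW), vd_eq _ _ (topcl_eq cP), vd_eq _ _ (topcl_eq cQ),
    Fintype.sum_unique, Fintype.sum_unique, Fintype.sum_unique]
  change ‖W.starProjection (dl (((1 : G), (1 : H)), ()))‖ ^ 2
    = ‖P.starProjection (dl ((1 : G), ()))‖ ^ 2 * ‖Q.starProjection (dl ((1 : H), ()))‖ ^ 2
  rw [hproj]
  have h4 : (((‖P.starProjection (dl ((1 : G), ()))‖ ^ 2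
      * ‖Q.starProjection (dl ((1 : H), ()))‖ ^ 2 : ℝ)) : ℂ) = ((‖tu p q‖ ^ 2 : ℝ) : ℂ) := by
    rw [Complex.ofReal_mul]
    exact h1
  exact (Complex.ofReal_injective h4).symm

/-- the product of two elements -/
theorem nul_prod (a : G →₀ ℂ) (b : H →₀ ℂ) (c : G × H →₀ ℂ)
    (hc : ∀ F : EE (G × H) Unit, cop c F = cop (i1 H a) (cop (i2 G b) F)) :
    nul c = 1 - (1 - nul a) * (1 - nul b) := by
  let P : Submodule ℂ (EE G Unit) := LinearMap.ker (cop a : EE G Unit →ₗ[ℂ] EE G Unit)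
  let Q : Submodule ℂ (EE H Unit) := LinearMap.ker (cop b : EE H Unit →ₗ[ℂ] EE H Unit)
  let W : Submodule ℂ (EE (G × H) Unit) :=
    LinearMap.ker (cop c : EE (G × H) Unit →ₗ[ℂ] EE (G × H) Unit)
  have cP := ContinuousLinearMap.isClosed_ker (cop a)
  have cQ := ContinuousLinearMap.isClosed_ker (cop b)
  have cW := ContinuousLinearMap.isClosed_ker (cop c)
  have i1' : CompleteSpace P := cP.completeSpace_coe
  have i2' : CompleteSpace Q := cQ.completeSpace_coe
  have i3' : CompleteSpace W := cW.completeSpace_coe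
  set p := dl ((1 : G), ()) - P.starProjection (dl ((1 : G), ())) with hp
  set q := dl ((1 : H), ()) - Q.starProjection (dl ((1 : H), ())) with hq
  have hpa : cop a p = cop a (dl ((1 : G), ())) := by
    have h1 : cop a (P.starProjection (dl ((1 : G), ()))) = 0 :=
      Submodule.starProjection_apply_mem P _
    rw [hp, map_sub, h1, sub_zero]
  have hqb : cop b q = cop b (dl ((1 : H), ())) := by
    have h1 : cop b (Q.starProjection (dl ((1 : H), ()))) = 0 :=
      Submodule.starProjection_apply_mem Q _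
    rw [hq, map_sub, h1, sub_zero]
  have hpo : ∀ v, cop a v = 0 → ⟪p, v⟫_ℂ = 0 := by
    intro v hv
    have hv' : v ∈ P := hv
    rw [hp, inner_sub_left, Submodule.inner_starProjection_left_eq_right,
      Submodule.starProjection_eq_self_iff.2 hv', sub_self]
  have hqo : ∀ v, cop b v = 0 → ⟪q, v⟫_ℂ = 0 := by
    intro v hv
    have hv' : v ∈ Q := hv
    rw [hq, inner_sub_left, Submodule.inner_starProjection_left_eq_right,
      Submodule.starProjection_eq_self_iff.2 hv', sub_self]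
  have horth : ∀ w, cop c w = 0 → ⟪tu p q, w⟫_ℂ = 0 := by
    intro w hw
    rw [hc] at hw
    have h1 : ∀ y, cop a (su1 y (cop (i2 G b) w)) = 0 := by
      intro y
      rw [← su1_cop, hw]
      ext ⟨x, ⟨⟩⟩
      rw [su1_apply]
      rfl
    let v : EE H Unit := ContinuousLinearMap.adjoint (JJ (H := H) p) w
    have hv : cop b v = 0 := by
      apply ext_inner_left ℂ
      intro u
      rw [inner_zero_right, ← cop_sta]
      change ⟪cop (sta b) u, ContinuousLinearMap.adjoint (JJ (H := H) p) w⟫_ℂ = 0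
      rw [ContinuousLinearMap.adjoint_inner_right, JJ_apply, ← cop_i2_tu, ← sta_i2, cop_sta,
        inner_tu]
      have h2 : ∀ z : H × Unit, (starRingEnd ℂ) (u z) * ⟪p, su1 z.1 (cop (i2 G b) w)⟫_ℂ = 0 := by
        intro z
        rw [hpo _ (h1 z.1), mul_zero]
      rw [tsum_congr h2, tsum_zero]
    have h3 := hqo v hv
    change ⟪q, ContinuousLinearMap.adjoint (JJ (H := H) p) w⟫_ℂ = 0 at h3
    rw [ContinuousLinearMap.adjoint_inner_right, JJ_apply] at h3
    exact h3
  have hproj : W.starProjection (dl (((1 : G), (1 : H)), ())) = dl ((1, 1), ()) - tu p q := by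
    have hmem : (dl (((1 : G), (1 : H)), ()) : EE (G × H) Unit) - tu p q ∈ W := by
      change cop c (dl (((1 : G), (1 : H)), ()) - tu p q) = 0
      rw [map_sub, hc, hc, ← tu_dl, cop_i2_tu, cop_i2_tu, cop_i1_tu, cop_i1_tu, hpa, hqb, sub_self]
    apply Submodule.eq_starProjection_of_mem_of_inner_eq_zero hmem
    intro w hw
    rw [sub_sub_cancel]
    exact horth w hw
  have h1 := star_dl W (((1 : G), (1 : H)), ())
  have h2 := star_dl P ((1 : G), ())
  have h3 := star_dl Q ((1 : H), ())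
  have hp1 : p (1, ()) = 1 - ((‖P.starProjection (dl ((1 : G), ()))‖ ^ 2 : ℝ) : ℂ) := by
    rw [← h2, hp]
    change (dl ((1 : G), ()) : EE G Unit) (1, ()) - P.starProjection (dl ((1 : G), ())) (1, ()) = _
    rw [dl_apply_self]
  have hq1 : q (1, ()) = 1 - ((‖Q.starProjection (dl ((1 : H), ()))‖ ^ 2 : ℝ) : ℂ) := by
    rw [← h3, hq]
    change (dl ((1 : H), ()) : EE H Unit) (1, ()) - Q.starProjection (dl ((1 : H), ())) (1, ()) = _
    rw [dl_apply_self]
  have h5 : W.starProjection (dl (((1 : G), (1 : H)), ())) ((1, 1), ())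
      = 1 - p (1, ()) * q (1, ()) := by
    rw [hproj]
    change (dl (((1 : G), (1 : H)), ()) : EE (G × H) Unit) ((1, 1), ()) - tu p q ((1, 1), ()) = _
    rw [dl_apply_self, tu_apply]
  rw [h5, hp1, hq1] at h1
  unfold nul
  change vd W = 1 - (1 - vd P) * (1 - vd Q)
  rw [vd_eq _ _ (topcl_eq cW), vd_eq _ _ (topcl_eq cP), vd_eq _ _ (topcl_eq cQ),
    Fintype.sum_unique, Fintype.sum_unique, Fintype.sum_unique]
  change ‖W.starProjection (dl (((1 : G), (1 : H)), ()))‖ ^ 2
    = 1 - (1 - ‖P.starProjection (dl ((1 : G), ()))‖ ^ 2) * (1 - ‖Q.starProjection (dl ((1 : H), ()))‖ ^ 2)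
  apply Complex.ofReal_injective
  rw [← h1]
  push_cast
  rfl

end

end Pool.Agent.X190.PN
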