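import Pool.Agent.X190.PN.Elem

set_option autoImplicit false
set_option linter.unusedSectionVars false

open scoped InnerProductSpace InnerProduct ENNReal Topology Pointwise
open Filter

/-! Nullities of elements of group algebras. -/

namespace Pool.Agent.X190.PN

open Pool.Agent.W649.ZL Pool.Agent.X190.TW Pool.Agent.X190.AT Pool.Agent.X190.NC

universe u v w z y

section
variable {G : Type u} [Group G]

theorem nul_nonneg (a : G →₀ ℂ) : 0 ≤ nul a := vd_nonneg _

theorem nul_lt_one (a : G →₀ ℂ) (ha : a ≠ 0) : nul a < 1 := by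
  have hcl := ContinuousLinearMap.isClosed_ker (cop a)
  unfold nul
  rw [vd_eq_infDist _ hcl, Fintype.sum_unique]
  have h0 : 0 < Metric.infDist (dl ((1 : G), ()))
      (LinearMap.ker (cop a : EE G Unit →ₗ[ℂ] EE G Unit) : Set (EE G Unit)) := by
    rw [← hcl.notMem_iff_infDist_pos ⟨0, Submodule.zero_mem _⟩]
    intro h
    apply ha
    ext x
    have h1 : cop a (dl ((1 : G), ())) = 0 := h
    rw [← cop_dl a x, h1]
    rfl
  have h1 : 0 < Metric.infDist (dl ((1 : G), ()))
      (LinearMap.ker (cop a : EE G Unit →ₗ[ℂ] EE G Unit) : Set (EE G Unit)) ^ 2 := by positivity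
  change 1 - Metric.infDist (dl ((1 : G), ()))
      (LinearMap.ker (cop a : EE G Unit →ₗ[ℂ] EE G Unit) : Set (EE G Unit)) ^ 2 < 1
  linarith

theorem ne_zero_of_nul (a : G →₀ ℂ) (ha : nul a < 1) : a ≠ 0 := by
  rintro rfl
  unfold nul at ha
  have h1 : LinearMap.ker (cop (0 : G →₀ ℂ) : EE G Unit →ₗ[ℂ] EE G Unit) = ⊤ := by
    rw [map_zero, eq_top_iff]
    intro f _
    rfl
  rw [h1, vd_top, Fintype.card_unit, Nat.cast_one] at ha
  exact lt_irrefl _ ha

theorem injective_iff (a : G →₀ ℂ) : Function.Injective (cop a) ↔ nul a = 0 := by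
  constructor
  · exact fun h => vd_ker_of_injective _ h
  · exact fun h => injective_of_vd_eq_zero _ (cop_eqv a) h.le

/-- inversion of the support -/
noncomputable def iv (a : G →₀ ℂ) : G →₀ ℂ := Finsupp.equivMapDomain (Equiv.inv G) a

theorem iv_apply (a : G →₀ ℂ) (g : G) : iv a g = a g⁻¹ := by
  unfold iv
  rw [Finsupp.equivMapDomain_apply]
  rfl

theorem kerDimM_iv (a : G →₀ ℂ) : kerDimM (fun (_ : Unit) (_ : Unit) => iv a) = nul a := by
  classical
  have hT : ∀ i j, ((fun (_ : Unit) (_ : Unit) => iv a) i j).support ⊆ a.support.image (fun g => g⁻¹) := by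
    intro i j g hg
    change g ∈ (iv a).support at hg
    rw [Finsupp.mem_support_iff, iv_apply] at hg
    rw [Finset.mem_image]
    exact ⟨g⁻¹, Finsupp.mem_support_iff.2 hg, inv_inv g⟩
  obtain ⟨S, hS, hSk, hSa⟩ := exists_opT (fun (_ : Unit) (_ : Unit) => iv a) _ hT
  have h1 : S = cop a := by
    ext F ⟨u, ⟨⟩⟩
    rw [hSa, cop_apply, Fintype.sum_unique, Finset.sum_image (fun x _ y _ hxy => inv_injective hxy)]
    refine Finset.sum_congr rfl fun t _ => ?_
    rw [iv_apply, inv_inv]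
  rw [hSk, h1]
  rfl

theorem nul_map {Γ : Type z} [Group Γ] (j : G →* Γ) (hj : Function.Injective j) (a : G →₀ ℂ) :
    nul (a.mapDomain j) = nul a := by
  rw [← kerDimM_iv, ← kerDimM_iv]
  apply kerDimM_inj j hj
  · intro _ _ g
    rw [iv_apply, iv_apply, ← map_inv, Finsupp.mapDomain_apply hj]
  · intro _ _ γ hγ
    rw [iv_apply]
    apply Finsupp.mapDomain_of_notMem_range
    rintro ⟨g, hg⟩
    exact hγ ⟨g⁻¹, by rw [map_inv, hg, inv_inv]⟩

end

/-- nullities of the nonzero elements with coefficients in a subring -/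
def NN (R : Subring ℂ) (G : Type u) [Group G] : Set ℝ :=
  {r | r < 1 ∧ ∃ a : G →₀ ℂ, (∀ g, a g ∈ R) ∧ r = nul a}

section
variable (R : Subring ℂ)

theorem NN_mono {G : Type u} {Γ : Type z} [Group G] [Group Γ] (j : G →* Γ)
    (hj : Function.Injective j) : NN R G ⊆ NN R Γ := by
  classical
  rintro r ⟨hr, a, ha, rfl⟩
  refine ⟨hr, a.mapDomain j, ?_, (nul_map j hj a).symm⟩
  intro t
  by_cases ht : t ∈ Set.range j
  · obtain ⟨g, rfl⟩ := ht
    rw [Finsupp.mapDomain_apply hj]
    exact ha g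
  · rw [Finsupp.mapDomain_of_notMem_range _ _ ht]
    exact R.zero_mem

theorem NN_comap {G : Type u} {Γ : Type z} [Group G] [Group Γ] (j : G →* Γ)
    (hj : Function.Injective j) (a : Γ →₀ ℂ) (ha : ∀ g, a g ∈ R) (hs : ∀ g ∈ a.support, g ∈ Set.range j)
    (h1 : nul a < 1) : nul a ∈ NN R G := by
  classical
  let b : G →₀ ℂ := Finsupp.comapDomain j a hj.injOn
  have hb : b.mapDomain j = a := by
    ext γ
    by_cases hγ : γ ∈ Set.range j
    · obtain ⟨g, rfl⟩ := hγ
      rw [Finsupp.mapDomain_apply hj]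
      rfl
    · rw [Finsupp.mapDomain_of_notMem_range _ _ hγ]
      by_contra hne
      exact hγ (hs γ (Finsupp.mem_support_iff.2 (Ne.symm hne)))
  have h2 : nul a = nul b := by
    conv_lhs => rw [← hb]
    exact nul_map j hj b
  exact ⟨h1, b, fun g => ha (j g), h2⟩

theorem NN_sub_UU {G : Type u} [Group G] (hG : TF G) : NN R G ⊆ NN R UU := by
  classical
  rintro r ⟨hr, a, ha, rfl⟩
  obtain ⟨t, ht⟩ := exists_seq a.support
  obtain ⟨Q, _, j, j', hj, hj', hjr, _⟩ := exists_embed hG t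
  apply NN_mono R j' hj'
  apply NN_comap R j hj a ha ?_ hr
  intro g hg
  obtain ⟨n, rfl⟩ := ht g hg
  exact hjr n

theorem NN_nonneg {G : Type u} [Group G] : ∀ r ∈ NN R G, 0 ≤ r := by
  rintro r ⟨_, a, _, rfl⟩
  exact nul_nonneg a

theorem exists_gram {G : Type u} [Group G] (hR : ∀ z ∈ R, (starRingEnd ℂ) z ∈ R) (a : G →₀ ℂ)
    (ha : ∀ g, a g ∈ R) : ∃ c : G →₀ ℂ, (∀ g, c g ∈ R) ∧ ∀ f : EE G Unit, cop c f = cop (sta a) (cop a f) := by
  classical
  refine ⟨(MonoidAlgebra.ofCoeff (sta a) * MonoidAlgebra.ofCoeff a).coeff, ?_, fun f => cop_mul _ _ f⟩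
  intro g
  rw [MonoidAlgebra.coeff_mul]
  apply R.sum_mem
  intro x _
  apply R.sum_mem
  intro y _
  change (if x * y = g then sta a x * a y else 0) ∈ R
  split_ifs
  · rw [sta_apply]
    exact R.mul_mem (hR _ (ha _)) (ha _)
  · exact R.zero_mem

theorem NN_mul {G : Type u} {H : Type z} [Group G] [Group H]
    (hR : ∀ z ∈ R, (starRingEnd ℂ) z ∈ R) : ∀ r ∈ NN R G, ∀ s ∈ NN R H, r * s ∈ NN R (G × H) := by
  classical
  rintro r ⟨hr, a, ha, rfl⟩ s ⟨hs, b, hb, rfl⟩
  obtain ⟨a2, ha2, ha2'⟩ := exists_gram R hR a ha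
  obtain ⟨b2, hb2, hb2'⟩ := exists_gram R hR b hb
  have hr0 := nul_nonneg a
  have hs0 := nul_nonneg b
  refine ⟨by nlinarith, i1 H a2 + i2 G b2, ?_, ?_⟩
  · rintro ⟨g, h⟩
    rw [Finsupp.add_apply, i1_apply, i2_apply]
    apply R.add_mem
    · split_ifs
      · exact ha2 g
      · exact R.zero_mem
    · split_ifs
      · exact hb2 h
      · exact R.zero_mem
  · symm
    apply nul_inter
    intro F
    have e1 : cop (i1 H a2) F = cop (sta (i1 H a)) (cop (i1 H a) F) := by
      ext ⟨⟨x, y⟩, ⟨⟩⟩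
      rw [cop_i1, ha2', sta_i1, cop_i1, su1_cop]
    have e2 : cop (i2 G b2) F = cop (sta (i2 G b)) (cop (i2 G b) F) := by
      ext ⟨⟨x, y⟩, ⟨⟩⟩
      rw [cop_i2, hb2', sta_i2, cop_i2, su2_cop]
    have e3 : cop (i1 H a2 + i2 G b2) F = cop (i1 H a2) F + cop (i2 G b2) F := by
      rw [map_add]
      rfl
    constructor
    · intro h0
      have h1 : ⟪cop (i1 H a2 + i2 G b2) F, F⟫_ℂ = 0 := by rw [h0, inner_zero_left]
      rw [e3, inner_add_left, e1, e2, cop_sta, cop_sta, inner_self_eq_norm_sq_to_K,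
        inner_self_eq_norm_sq_to_K] at h1
      have h2 : ‖cop (i1 H a) F‖ ^ 2 + ‖cop (i2 G b) F‖ ^ 2 = 0 := by
        apply Complex.ofReal_injective
        push_cast
        exact h1
      have h3 : cop (i1 H a) F = 0 := by
        rw [← norm_eq_zero, ← sq_eq_zero_iff]
        nlinarith [sq_nonneg ‖cop (i1 H a) F‖, sq_nonneg ‖cop (i2 G b) F‖]
      have h4 : cop (i2 G b) F = 0 := by
        rw [← norm_eq_zero, ← sq_eq_zero_iff]
        nlinarith [sq_nonneg ‖cop (i1 H a) F‖, sq_nonneg ‖cop (i2 G b) F‖]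
      constructor
      · intro y
        rw [← su1_cop, h3]
        ext ⟨x, ⟨⟩⟩
        rw [su1_apply]
        rfl
      · intro x
        rw [← su2_cop, h4]
        ext ⟨y, ⟨⟩⟩
        rw [su2_apply]
        rfl
    · rintro ⟨h1, h2⟩
      have h3 : cop (i1 H a) F = 0 := by
        ext ⟨⟨x, y⟩, ⟨⟩⟩
        rw [cop_i1, h1]
        rfl
      have h4 : cop (i2 G b) F = 0 := by
        ext ⟨⟨x, y⟩, ⟨⟩⟩
        rw [cop_i2, h2]
        rfl
      rw [e3, e1, e2, h3, h4, map_zero, map_zero, add_zero]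

theorem NN_or {G : Type u} {H : Type z} [Group G] [Group H] :
    ∀ r ∈ NN R G, ∀ s ∈ NN R H, 1 - (1 - r) * (1 - s) ∈ NN R (G × H) := by
  classical
  rintro r ⟨hr, a, ha, rfl⟩ s ⟨hs, b, hb, rfl⟩
  have hr0 := nul_nonneg a
  have hs0 := nul_nonneg b
  let c : G × H →₀ ℂ := Finsupp.onFinset (a.support ×ˢ b.support) (fun x => a x.1 * b x.2) (by
    rintro ⟨g, h⟩ hgh
    rw [Finset.mem_product, Finsupp.mem_support_iff, Finsupp.mem_support_iff]
    exact ⟨left_ne_zero_of_mul hgh, right_ne_zero_of_mul hgh⟩)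
  refine ⟨by nlinarith, c, ?_, ?_⟩
  · rintro ⟨g, h⟩
    exact R.mul_mem (ha g) (hb h)
  · symm
    apply nul_prod
    intro F
    ext ⟨⟨x, y⟩, ⟨⟩⟩
    rw [cop_i1, cop_apply, cop_apply]
    have h1 : ∀ s ∈ a.support, a s * su1 y (cop (i2 G b) F) (s⁻¹ * x, ())
        = ∑ t ∈ b.support, a s * (b t * F ((s⁻¹ * x, t⁻¹ * y), ())) := by
      intro s _
      rw [su1_apply, cop_i2, cop_apply, Finset.mul_sum]
      refine Finset.sum_congr rfl fun t _ => ?_
      rw [su2_apply]
    rw [Finset.sum_congr rfl h1, ← Finset.sum_product']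
    have hsub : c.support ⊆ a.support ×ˢ b.support := Finsupp.support_onFinset_subset
    rw [Finset.sum_subset hsub]
    · refine Finset.sum_congr rfl ?_
      rintro ⟨s, t⟩ _
      change a s * b t * F ((s⁻¹ * x, t⁻¹ * y), ()) = _
      ring
    · rintro ⟨s, t⟩ _ hn
      rw [Finsupp.notMem_support_iff.1 hn, zero_mul]

theorem TF_prod : TF (UU × UU) := by
  intro x n hn hx
  apply Prod.ext
  · exact UU_tf x.1 n hn (congrArg Prod.fst hx)
  · exact UU_tf x.2 n hn (congrArg Prod.snd hx)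

theorem NN_UU (hR : ∀ z ∈ R, (starRingEnd ℂ) z ∈ R) :
    NN R UU = {0} ∨ closure (NN R UU) = Set.Icc 0 1 := by
  have hmul : ∀ r ∈ NN R UU, ∀ s ∈ NN R UU, r * s ∈ NN R UU :=
    fun r hr s hs => NN_sub_UU R TF_prod (NN_mul R hR r hr s hs)
  have hor : ∀ r ∈ NN R UU, ∀ s ∈ NN R UU, 1 - (1 - r) * (1 - s) ∈ NN R UU :=
    fun r hr s hs => NN_sub_UU R TF_prod (NN_or R r hr s hs)
  have h0 : (0 : ℝ) ∈ NN R UU := by
    classical
    refine ⟨one_pos, Finsupp.single 1 1, ?_, ?_⟩
    · intro g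
      rw [Finsupp.single_apply]
      split_ifs
      · exact R.one_mem
      · exact R.zero_mem
    · symm
      rw [← injective_iff, cop_single, one_smul]
      exact Ltr_injective 1
  by_cases hex : ∃ κ ∈ NN R UU, κ ≠ 0
  · right
    obtain ⟨κ, hκ, hκ0⟩ := hex
    have hκpos : 0 < κ := lt_of_le_of_ne (NN_nonneg R κ hκ) (Ne.symm hκ0)
    have hκ1 : κ < 1 := hκ.1
    have hpow : ∀ n : ℕ, κ ^ (n + 1) ∈ NN R UU := by
      intro n
      induction n with
      | zero => rw [zero_add, pow_one]; exact hκ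
      | succ n ih => rw [pow_succ]; exact hmul _ ih _ hκ
    apply Set.Subset.antisymm
    · exact closure_minimal (fun r hr => ⟨NN_nonneg R r hr, hr.1.le⟩) isClosed_Icc
    · rintro x ⟨hx0, hx1⟩
      rw [Metric.mem_closure_iff]
      intro ε hε
      obtain ⟨n, hn⟩ := exists_pow_lt_of_lt_one hε hκ1
      set δ : ℝ := κ ^ (n + 1) with hδ
      have hδpos : 0 < δ := by positivity
      have hδε : δ < ε := by
        have : δ ≤ κ ^ n := pow_le_pow_of_le_one hκpos.le hκ1.le (Nat.le_succ n)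
        linarith
      have hδ1 : δ < 1 := (hpow n).1
      have hk : ∀ k : ℕ, 1 - (1 - δ) ^ k ∈ NN R UU := by
        intro k
        induction k with
        | zero => rw [pow_zero, sub_self]; exact h0
        | succ k ih =>
          have h1 := hor _ ih _ (hpow n)
          have h2 : 1 - (1 - (1 - (1 - δ) ^ k)) * (1 - δ) = 1 - (1 - δ) ^ (k + 1) := by
            rw [pow_succ (1 - δ) k, sub_sub_cancel]
          rw [← h2]
          exact h1
      -- the first index with a large value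
      by_cases hx : x = 1
      · obtain ⟨k, hk1⟩ := exists_pow_lt_of_lt_one hε (show 1 - δ < 1 by linarith)
        refine ⟨_, hk k, ?_⟩
        rw [hx, Real.dist_eq, sub_sub_cancel, abs_of_nonneg (pow_nonneg (by linarith) _)]
        exact hk1
      · have hx1' : x < 1 := lt_of_le_of_ne hx1 hx
        have hex : ∃ k : ℕ, (1 - δ) ^ k < 1 - x :=
          exists_pow_lt_of_lt_one (by linarith) (by linarith)
        have hspec := Nat.find_spec hex
        have hmin := fun m => Nat.find_min (H := hex) (m := m)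
        set k := Nat.find hex with hkdef
        rcases Nat.eq_zero_or_pos k with hk0 | hkp
        · rw [hk0, pow_zero] at hspec
          linarith
        · obtain ⟨m, hm⟩ : ∃ m, k = m + 1 := ⟨k - 1, by omega⟩
          have h1 := hmin m (by omega)
          rw [hm, pow_succ] at hspec
          have h2 : (1 - δ) ^ m ≤ 1 := pow_le_one₀ (by linarith) (by linarith)
          have h3 : 0 ≤ (1 - δ) ^ m := pow_nonneg (by linarith) _
          refine ⟨_, hk (m + 1), ?_⟩
          rw [Real.dist_eq, pow_succ, abs_lt]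
          push Not at h1
          constructor <;> nlinarith
  · left
    push Not at hex
    apply Set.Subset.antisymm
    · intro r hr
      exact hex r hr
    · intro r hr
      rw [Set.mem_singleton_iff.1 hr]
      exact h0

/-- countable groups suffice -/
theorem NN_countable {G : Type u} [Group G] (hG : TF G) (h : closure (NN R G) = Set.Icc 0 1) :
    ∃ (Q : Type) (_ : Group Q), Countable Q ∧ TF Q ∧ closure (NN R Q) = Set.Icc 0 1 := by
  classical
  have h1 : ∀ (x : {q : ℚ // (q : ℝ) ∈ Set.Icc (0 : ℝ) 1}) (n : ℕ),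
      ∃ r ∈ NN R G, dist (x.1 : ℝ) r < 1 / ((n : ℝ) + 1) := by
    intro x n
    have h2 : (x.1 : ℝ) ∈ closure (NN R G) := by
      rw [h]
      exact x.2
    rw [Metric.mem_closure_iff] at h2
    exact h2 _ (by positivity)
  choose r hr hrn using h1
  choose hr1 a ha hra using hr
  obtain ⟨t, ht⟩ := ((Set.countable_iUnion fun x : {q : ℚ // (q : ℝ) ∈ Set.Icc (0 : ℝ) 1} =>
    Set.countable_iUnion fun n : ℕ => (a x n).support.countable_toSet).union
    (Set.countable_singleton (1 : G))).exists_eq_range ⟨1, Or.inr rfl⟩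
  have ht' : ∀ x n, ∀ g ∈ (a x n).support, ∃ k, t k = g := by
    intro x n g hg
    have h2 : g ∈ Set.range t := by
      rw [← ht]
      exact Or.inl (Set.mem_iUnion.2 ⟨x, Set.mem_iUnion.2 ⟨n, hg⟩⟩)
    exact h2
  obtain ⟨Q, _, j, j', hj, hj', hjr, hQ⟩ := exists_embed hG t
  refine ⟨Q, inferInstance, hQ, ?_, ?_⟩
  · intro x n hn hx
    apply hj
    rw [map_one]
    apply hG _ n hn
    rw [← map_pow, hx, map_one]
  · have hmem : ∀ x n, r x n ∈ NN R Q := by
      intro x n
      rw [hra x n]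
      apply NN_comap R j hj (a x n) (ha x n) ?_ (by rw [← hra x n]; exact hr1 x n)
      intro g hg
      obtain ⟨k, rfl⟩ := ht' x n g hg
      exact hjr k
    apply Set.Subset.antisymm
    · exact closure_minimal (fun r hr => ⟨NN_nonneg R r hr, hr.1.le⟩) isClosed_Icc
    · intro x hx
      rw [Metric.mem_closure_iff]
      intro ε hε
      -- a rational number in the interval close to x
      obtain ⟨q, hq, hqx⟩ : ∃ q : ℚ, (q : ℝ) ∈ Set.Icc (0 : ℝ) 1 ∧ dist x q < ε / 2 := by
        by_cases hx0 : x = 0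
        · exact ⟨0, by simp, by rw [hx0]; simp [hε]⟩
        · have hxpos : 0 < x := lt_of_le_of_ne hx.1 (Ne.symm hx0)
          obtain ⟨q, hq1, hq2⟩ := exists_rat_btwn (show max 0 (x - ε / 2) < x by
            rw [max_lt_iff]
            exact ⟨hxpos, by linarith⟩)
          refine ⟨q, ⟨?_, ?_⟩, ?_⟩
          · exact (le_max_left _ _).trans hq1.le
          · linarith [hx.2]
          · rw [Real.dist_eq, abs_of_pos (by linarith)]
            linarith [le_max_right 0 (x - ε / 2)]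
      obtain ⟨n, hn⟩ := exists_nat_one_div_lt (half_pos hε)
      refine ⟨r ⟨q, hq⟩ n, hmem _ _, ?_⟩
      calc dist x (r ⟨q, hq⟩ n) ≤ dist x q + dist (q : ℝ) (r ⟨q, hq⟩ n) := dist_triangle _ _ _
        _ < ε / 2 + ε / 2 := add_lt_add hqx ((hrn ⟨q, hq⟩ n).trans hn)
        _ = ε := by ring

end

end Pool.Agent.X190.PN
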