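import Pool.Agent.X190.AT.Perm

set_option autoImplicit false
set_option linter.unusedSectionVars false

open scoped InnerProductSpace InnerProduct ENNReal Topology
open Filter

/-! Overgroups, rows and block sums. -/

namespace Pool.Agent.X190.PN

open Pool.Agent.W649.ZL Pool.Agent.X190.TW Pool.Agent.X190.AT

universe u v w z y

section
variable {G : Type u} {K : Type v} {L : Type w} {N : Type y} [Group G] [Fintype K] [Fintype L]
  [Fintype N] [DecidableEq K] [DecidableEq L] [DecidableEq N]

/-- induction to an overgroup -/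
theorem kerDimM_inj {Γ : Type z} [Group Γ] (j : G →* Γ) (hj : Function.Injective j)
    (A : K → L → (G →₀ ℂ)) (B : K → L → (Γ →₀ ℂ)) (h1 : ∀ i k g, B i k (j g) = A i k g)
    (h2 : ∀ i k γ, γ ∉ Set.range j → B i k γ = 0) : kerDimM B = kerDimM A := by
  classical
  obtain ⟨T, hT⟩ := exists_supp A
  have hTB : ∀ i k, (B i k).support ⊆ T.image j := by
    intro i k γ hγ
    rw [Finsupp.mem_support_iff] at hγ
    by_cases h : γ ∈ Set.range j
    · obtain ⟨g, rfl⟩ := h
      rw [h1] at hγ
      exact Finset.mem_image_of_mem _ (hT i k (Finsupp.mem_support_iff.2 hγ))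
    · exact absurd (h2 i k γ h) hγ
  obtain ⟨S, hS, hSk, hSa⟩ := exists_opT A T hT
  obtain ⟨R, hR, hRk, hRa⟩ := exists_opT B (T.image j) hTB
  have hRa' : ∀ (F : EE Γ K) (u : Γ) (l : L), R F (u, l)
      = ∑ k : K, ∑ t ∈ T, A k l t * F (j t * u, k) := by
    intro F u l
    rw [hRa]
    refine Finset.sum_congr rfl fun k _ => ?_
    rw [Finset.sum_image (fun x _ y _ hxy => hj hxy)]
    refine Finset.sum_congr rfl fun t _ => ?_
    rw [h1]
  rw [hRk, hSk, vd_eq_infDist _ (ContinuousLinearMap.isClosed_ker R),
    vd_eq_infDist _ (ContinuousLinearMap.isClosed_ker S)]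
  refine Finset.sum_congr rfl fun k _ => ?_
  apply le_antisymm
  · let ι : ↥(Set.univ : Set (G × K)) → Γ × K := fun x => (j x.1.1, x.1.2)
    have hι : Function.Injective ι := by
      rintro ⟨⟨x, k1⟩, _⟩ ⟨⟨x', k2⟩, _⟩ hh
      obtain ⟨e1, e2⟩ := Prod.mk.inj hh
      simp only at e1 e2
      rw [Subtype.mk.injEq, hj e1, e2]
    have hap : ∀ (F : EE Γ K) (x : G) (k : K), pull _ ι hι F (x, k) = F (j x, k) := by
      intro F x k
      rw [pull_apply, pullFun_mem _ _ _ _ (Set.mem_univ _)]
    refine one_sub_le' _ _ ⟨0, Submodule.zero_mem _⟩ _ _ (pull _ ι hι) ?_ ?_ ?_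
    · intro F F'
      rw [pull_sub]
      exact norm_pull_le _ _ _ _
    · ext ⟨x, k'⟩
      rw [hap]
      by_cases h : (x, k') = ((1 : G), k)
      · obtain ⟨rfl, rfl⟩ := Prod.mk.inj h
        rw [map_one, dl_apply_self, dl_apply_self]
      · rw [dl_apply_ne _ _ h, dl_apply_ne]
        intro e1
        obtain ⟨e2, e3⟩ := Prod.mk.inj e1
        apply h
        rw [e3, hj (e2.trans (map_one j).symm)]
    · intro F hF
      have hF0 : R F = 0 := hF
      change S (pull _ ι hι F) = 0
      ext ⟨x, l⟩
      have e1 : R F (j x, l) = 0 := by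
        rw [hF0]
        rfl
      rw [hRa'] at e1
      rw [hSa]
      refine Eq.trans ?_ e1
      refine Finset.sum_congr rfl fun k _ => Finset.sum_congr rfl fun t _ => ?_
      rw [hap, map_mul]
  · let D : Set (Γ × K) := {z | z.1 ∈ Set.range j}
    let ι : D → G × K := fun z => (z.2.choose, z.1.2)
    have hι : Function.Injective ι := by
      rintro ⟨⟨x, k1⟩, hx⟩ ⟨⟨x', k2⟩, hx'⟩ hh
      obtain ⟨e1, e2⟩ := Prod.mk.inj hh
      simp only at e1 e2
      have e3 : j hx.choose = x := hx.choose_spec
      have e4 : j hx'.choose = x' := hx'.choose_spec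
      rw [Subtype.mk.injEq, e2, ← e3, ← e4, e1]
    have hap : ∀ (F : EE G K) (x : G) (k : K), pull D ι hι F (j x, k) = F (x, k) := by
      intro F x k
      have hx : (j x, k) ∈ D := ⟨x, rfl⟩
      rw [pull_apply, pullFun_mem _ _ _ _ hx]
      have e1 : ι ⟨(j x, k), hx⟩ = (x, k) := by
        change (hx.choose, k) = (x, k)
        rw [hj hx.choose_spec]
      rw [e1]
    have hap0 : ∀ (F : EE G K) (x : Γ) (k : K), x ∉ Set.range j → pull D ι hι F (x, k) = 0 := by
      intro F x k hx
      exact pullFun_notMem D ι F (x, k) hx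
    refine one_sub_le' _ _ ⟨0, Submodule.zero_mem _⟩ _ _ (pull D ι hι) ?_ ?_ ?_
    · intro F F'
      rw [pull_sub]
      exact norm_pull_le _ _ _ _
    · ext ⟨x, k'⟩
      by_cases hx : x ∈ Set.range j
      · obtain ⟨x, rfl⟩ := hx
        rw [hap]
        by_cases h : (x, k') = ((1 : G), k)
        · obtain ⟨rfl, rfl⟩ := Prod.mk.inj h
          rw [map_one, dl_apply_self, dl_apply_self]
        · rw [dl_apply_ne _ _ h, dl_apply_ne]
          intro e1
          obtain ⟨e2, e3⟩ := Prod.mk.inj e1
          apply h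
          rw [e3, hj (e2.trans (map_one j).symm)]
      · rw [hap0 _ _ _ hx, dl_apply_ne]
        intro e1
        obtain ⟨e2, e3⟩ := Prod.mk.inj e1
        apply hx
        rw [e2]
        exact ⟨1, map_one j⟩
    · intro F hF
      have hF0 : S F = 0 := hF
      change R (pull D ι hι F) = 0
      ext ⟨x, l⟩
      rw [hRa']
      by_cases hx : x ∈ Set.range j
      · obtain ⟨x, rfl⟩ := hx
        have e1 : S F (x, l) = 0 := by
          rw [hF0]
          rfl
        rw [hSa] at e1
        refine Eq.trans ?_ e1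
        refine Finset.sum_congr rfl fun k _ => Finset.sum_congr rfl fun t _ => ?_
        rw [← map_mul, hap]
      · change _ = (0 : ℂ)
        apply Finset.sum_eq_zero
        intro k _
        apply Finset.sum_eq_zero
        intro t _
        rw [hap0, mul_zero]
        rintro ⟨g, hg⟩
        apply hx
        exact ⟨t⁻¹ * g, by rw [map_mul, hg, map_inv, inv_mul_cancel_left]⟩

/-- the kernel dimension and some rows -/
theorem kerDimM_rows (A : K → L → (G →₀ ℂ)) (K' : Type z) [Fintype K'] [DecidableEq K']
    (e : K' → K) (he : Function.Injective e) :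
    kerDimM (fun i j => A (e i) j) ≤ kerDimM A ∧
      kerDimM A ≤ kerDimM (fun i j => A (e i) j) + ((Fintype.card K : ℝ) - Fintype.card K') := by
  classical
  obtain ⟨T, hT⟩ := exists_supp A
  obtain ⟨S, hS, hSk, hSa⟩ := exists_opT A T hT
  obtain ⟨R, hR, hRk, hRa⟩ := exists_opT (fun i j => A (e i) j) T (fun i j => hT _ _)
  have hvan : ∀ (F : EE G K), (∀ x k, k ∉ Set.range e → F (x, k) = 0) → ∀ x l,
      S F (x, l) = ∑ i : K', ∑ t ∈ T, A (e i) l t * F (t * x, e i) := by
    intro F hF x l
    rw [hSa]
    symm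
    rw [← Finset.sum_image (f := fun k => ∑ t ∈ T, A k l t * F (t * x, k))
      (s := Finset.univ) (g := e) (fun a _ b _ hab => he hab)]
    apply Finset.sum_subset (Finset.subset_univ _)
    intro k _ hk
    apply Finset.sum_eq_zero
    intro t _
    rw [hF, mul_zero]
    rintro ⟨i, rfl⟩
    exact hk (Finset.mem_image_of_mem _ (Finset.mem_univ _))
  -- extension by zero of the rows
  let ι : ↥{z : G × K | z.2 ∈ Set.range e} → G × K' := fun x => (x.1.1, x.2.choose)
  have hι : Function.Injective ι := by
    rintro ⟨⟨x, k1⟩, hx⟩ ⟨⟨x', k2⟩, hx'⟩ hh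
    obtain ⟨e1, e2⟩ := Prod.mk.inj hh
    simp only at e1 e2
    have e3 : e hx.choose = k1 := hx.choose_spec
    have e4 : e hx'.choose = k2 := hx'.choose_spec
    rw [Subtype.mk.injEq, e1, ← e3, ← e4, e2]
  have hap : ∀ (F : EE G K') (x : G) (i : K'), pull _ ι hι F (x, e i) = F (x, i) := by
    intro F x i
    have hx : ((x, e i) : G × K) ∈ {z : G × K | z.2 ∈ Set.range e} := ⟨i, rfl⟩
    rw [pull_apply, pullFun_mem _ _ _ _ hx]
    have e1 : ι ⟨(x, e i), hx⟩ = (x, i) := by
      change (x, hx.choose) = (x, i)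
      rw [he hx.choose_spec]
    rw [e1]
  have hap0 : ∀ (F : EE G K') (x : G) (k : K), k ∉ Set.range e → pull _ ι hι F (x, k) = 0 := by
    intro F x k hk
    exact pullFun_notMem {z : G × K | z.2 ∈ Set.range e} ι F (x, k) hk
  -- restriction to the rows
  let ρ : ↥(Set.univ : Set (G × K')) → G × K := fun x => (x.1.1, e x.1.2)
  have hρ : Function.Injective ρ := by
    rintro ⟨⟨x, k1⟩, _⟩ ⟨⟨x', k2⟩, _⟩ hh
    obtain ⟨e1, e2⟩ := Prod.mk.inj hh
    simp only at e1 e2
    rw [Subtype.mk.injEq, e1, he e2]
  have hrp : ∀ (F : EE G K) (x : G) (i : K'), pull _ ρ hρ F (x, i) = F (x, e i) := by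
    intro F x i
    rw [pull_apply, pullFun_mem _ _ _ _ (Set.mem_univ _)]
  have hsum : ∀ f : K → ℝ, (∀ k, 0 ≤ f k) → ∑ i : K', f (e i) ≤ ∑ k : K, f k := by
    intro f hf
    rw [← Finset.sum_image (f := f) (s := Finset.univ) (g := e) (fun a _ b _ hab => he hab)]
    exact Finset.sum_le_sum_of_subset_of_nonneg (Finset.subset_univ _) (fun k _ _ => hf k)
  constructor
  · rw [hRk, hSk, vd_eq_infDist _ (ContinuousLinearMap.isClosed_ker R),
      vd_eq_infDist _ (ContinuousLinearMap.isClosed_ker S)]
    refine le_trans ?_ (hsum _ ?_)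
    · refine Finset.sum_le_sum fun i _ => ?_
      refine one_sub_le' _ _ ⟨0, Submodule.zero_mem _⟩ _ _ (pull _ ι hι) ?_ ?_ ?_
      · intro F F'
        rw [pull_sub]
        exact norm_pull_le _ _ _ _
      · ext ⟨x, k⟩
        by_cases hk : k ∈ Set.range e
        · obtain ⟨i', rfl⟩ := hk
          rw [hap]
          by_cases h : (x, i') = ((1 : G), i)
          · obtain ⟨rfl, rfl⟩ := Prod.mk.inj h
            rw [dl_apply_self, dl_apply_self]
          · rw [dl_apply_ne _ _ h, dl_apply_ne]
            intro e1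
            obtain ⟨e2, e3⟩ := Prod.mk.inj e1
            apply h
            rw [e2, he e3]
        · rw [hap0 _ _ _ hk, dl_apply_ne]
          intro e1
          obtain ⟨e2, e3⟩ := Prod.mk.inj e1
          exact hk ⟨i, e3.symm⟩
      · intro F hF
        have hF0 : R F = 0 := hF
        change S (pull _ ι hι F) = 0
        ext ⟨x, l⟩
        rw [hvan _ (fun x k hk => hap0 F x k hk)]
        have e1 : R F (x, l) = 0 := by
          rw [hF0]
          rfl
        rw [hRa] at e1
        refine Eq.trans ?_ e1
        refine Finset.sum_congr rfl fun i _ => Finset.sum_congr rfl fun t _ => ?_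
        rw [hap]
    · intro k
      have h0 : Metric.infDist (dl ((1 : G), k))
          (LinearMap.ker (S : EE G K →ₗ[ℂ] EE G L) : Set (EE G K)) ≤ 1 := by
        refine (Metric.infDist_le_dist_of_mem (Submodule.zero_mem _)).trans ?_
        rw [dist_zero_right, norm_dl]
      have h1 := pow_le_one₀ (n := 2) Metric.infDist_nonneg h0
      linarith
  · let U : Finset K := Finset.univ.image e
    have hUm : ∀ k, k ∈ U ↔ k ∈ Set.range e := by
      intro k
      simp [U]
    have hUc : U.card = Fintype.card K' := by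
      rw [Finset.card_image_of_injective _ he, Finset.card_univ]
    let P : EE G K →L[ℂ] EE G K := ∑ k ∈ (Finset.univ \ U), elem (1 : G) k k
    have hPapp : ∀ (F : EE G K) (x : G) (k : K), P F (x, k) = if k ∈ U then 0 else F (x, k) := by
      intro F x k
      have h1 : P F (x, k) = ∑ k' ∈ (Finset.univ \ U), (if k = k' then F (x, k') else 0) := by
        change (∑ k' ∈ (Finset.univ \ U), (elem (1 : G) k' k' : EE G K →L[ℂ] EE G K)) F (x, k) = _
        rw [sum_apply, sum_apply_EE]
        refine Finset.sum_congr rfl fun k' _ => ?_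
        rw [elem_apply, inv_one, one_mul]
      rw [h1]
      split_ifs with hk
      · apply Finset.sum_eq_zero
        intro k' hk'
        rw [if_neg]
        rintro rfl
        exact (Finset.mem_sdiff.1 hk').2 hk
      · rw [Finset.sum_eq_single k]
        · rw [if_pos rfl]
        · intro k' _ hne
          rw [if_neg (Ne.symm hne)]
        · intro hh
          exact absurd (Finset.mem_sdiff.2 ⟨Finset.mem_univ _, hk⟩) hh
    have hP : Eqv P := by
      intro g F
      ext ⟨x, k⟩
      change P (tr g F) (x, k) = P F (x * g, k)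
      rw [hPapp, hPapp]
      rfl
    have hker := rank_nullity P hP (inv_ker S hS) (ContinuousLinearMap.isClosed_ker S)
    have hmap : vd ((LinearMap.ker (S : EE G K →ₗ[ℂ] EE G L)).map (P : EE G K →ₗ[ℂ] EE G K))
        ≤ (Fintype.card K : ℝ) - Fintype.card K' := by
      have hle : (LinearMap.ker (S : EE G K →ₗ[ℂ] EE G L)).map (P : EE G K →ₗ[ℂ] EE G K)
          ≤ cosub G (Finset.univ \ U) := by
        rintro _ ⟨F, _, rfl⟩ x k hk
        have hk' : k ∈ U := by
          by_contra hcon
          exact hk (Finset.mem_sdiff.2 ⟨Finset.mem_univ _, hcon⟩)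
        change P F (x, k) = 0
        rw [hPapp, if_pos hk']
      have h1 := vd_mono hle
      rw [vd_cosub, Finset.card_sdiff_of_subset (Finset.subset_univ _), Finset.card_univ,
        Nat.cast_sub (Finset.card_le_univ _), hUc] at h1
      exact h1
    have hfirst : vd (LinearMap.ker (S : EE G K →ₗ[ℂ] EE G L)
          ⊓ LinearMap.ker (P : EE G K →ₗ[ℂ] EE G K))
        ≤ vd (LinearMap.ker (R : EE G K' →ₗ[ℂ] EE G L)) := by
      have hcl : IsClosed ((LinearMap.ker (S : EE G K →ₗ[ℂ] EE G L)
          ⊓ LinearMap.ker (P : EE G K →ₗ[ℂ] EE G K) : Submodule ℂ (EE G K)) : Set (EE G K)) := by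
        rw [Submodule.coe_inf]
        exact (ContinuousLinearMap.isClosed_ker S).inter (ContinuousLinearMap.isClosed_ker P)
      rw [vd_eq_infDist _ hcl, vd_eq_infDist _ (ContinuousLinearMap.isClosed_ker R),
        ← Finset.sum_subset (Finset.subset_univ U)]
      · rw [Finset.sum_image (fun a _ b _ hab => he hab)]
        refine Finset.sum_le_sum fun i _ => ?_
        refine one_sub_le' _ _ ⟨0, Submodule.zero_mem _⟩ _ _ (pull _ ρ hρ) ?_ ?_ ?_
        · intro F F'
          rw [pull_sub]
          exact norm_pull_le _ _ _ _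
        · ext ⟨x, i'⟩
          rw [hrp]
          by_cases h : (x, i') = ((1 : G), i)
          · obtain ⟨rfl, rfl⟩ := Prod.mk.inj h
            rw [dl_apply_self, dl_apply_self]
          · rw [dl_apply_ne _ _ h, dl_apply_ne]
            intro e1
            obtain ⟨e2, e3⟩ := Prod.mk.inj e1
            apply h
            rw [e2, he e3]
        · rintro F ⟨hF1, hF2⟩
          have hF0 : S F = 0 := hF1
          have hF3 : P F = 0 := hF2
          have hF4 : ∀ x k, k ∉ Set.range e → F (x, k) = 0 := by
            intro x k hk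
            have h5 := hPapp F x k
            rw [if_neg (fun h => hk ((hUm k).1 h)), hF3] at h5
            exact h5.symm
          change R (pull _ ρ hρ F) = 0
          ext ⟨x, l⟩
          have e1 : S F (x, l) = 0 := by
            rw [hF0]
            rfl
          rw [hvan F hF4] at e1
          rw [hRa]
          refine Eq.trans ?_ e1
          refine Finset.sum_congr rfl fun i _ => Finset.sum_congr rfl fun t _ => ?_
          rw [hrp]
      · intro k _ hk
        have h6 : (1 : ℝ) ≤ Metric.infDist (dl ((1 : G), k)) ((LinearMap.ker (S : EE G K →ₗ[ℂ] EE G L)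
            ⊓ LinearMap.ker (P : EE G K →ₗ[ℂ] EE G K) : Submodule ℂ (EE G K)) : Set (EE G K)) := by
          apply (Metric.le_infDist ⟨0, Submodule.zero_mem _⟩).2
          rintro F ⟨hF1, hF2⟩
          have hF3 : P F = 0 := hF2
          have h5 := hPapp F 1 k
          rw [if_neg hk, hF3] at h5
          have h7 : (dl ((1 : G), k) - F : EE G K) (1, k) = 1 := by
            change (dl ((1 : G), k) : EE G K) (1, k) - F (1, k) = 1
            rw [← h5, dl_apply_self]
            exact sub_zero _
          rw [dist_eq_norm]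
          have h8 := lp.norm_apply_le_norm two_ne_zero (dl ((1 : G), k) - F : EE G K) (1, k)
          rw [h7, norm_one] at h8
          exact h8
        have h7 : Metric.infDist (dl ((1 : G), k)) ((LinearMap.ker (S : EE G K →ₗ[ℂ] EE G L)
            ⊓ LinearMap.ker (P : EE G K →ₗ[ℂ] EE G K) : Submodule ℂ (EE G K)) : Set (EE G K)) ≤ 1 := by
          refine (Metric.infDist_le_dist_of_mem (Submodule.zero_mem _)).trans ?_
          rw [dist_zero_right, norm_dl]
        rw [le_antisymm h7 h6]
        norm_num
    rw [hSk, hRk, hker]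
    exact add_le_add hfirst hmap

end

end Pool.Agent.X190.PN
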