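import Pool.Agent.X190.PN.Amp

set_option autoImplicit false
set_option linter.unusedSectionVars false

/-! Least common multiples of orders of finite subgroups, and kernel dimensions. -/

namespace Pool.Agent.X190.PN

open Pool.Agent.W649.ZL Pool.Agent.X190.TW Pool.Agent.X190.AT

universe u v w z y

/-- the least common multiple of the orders of the finite subgroups -/
def IsLcm (G : Type u) [Group G] (L : ℕ) : Prop :=
  0 < L ∧ (∀ H : Subgroup G, Finite H → Nat.card H ∣ L) ∧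
    ∀ M : ℕ, 0 < M → (∀ H : Subgroup G, Finite H → Nat.card H ∣ M) → L ∣ M

theorem exists_lcm (G : Type u) [Group G] (M : ℕ) (hM : 0 < M)
    (h : ∀ H : Subgroup G, Finite H → Nat.card H ∣ M) : ∃ L : ℕ, IsLcm G L ∧ L ∣ M := by
  classical
  have hex : ∃ L : ℕ, 0 < L ∧ ∀ H : Subgroup G, Finite H → Nat.card H ∣ L := ⟨M, hM, h⟩
  obtain ⟨h1, h2⟩ := Nat.find_spec hex
  have h3 : ∀ M : ℕ, 0 < M → (∀ H : Subgroup G, Finite H → Nat.card H ∣ M) → Nat.find hex ∣ M := by
    intro M hM h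
    have h4 : Nat.find hex ≤ Nat.gcd (Nat.find hex) M :=
      Nat.find_min' hex ⟨Nat.gcd_pos_of_pos_left _ h1, fun H hH => Nat.dvd_gcd (h2 H hH) (h H hH)⟩
    have h5 : Nat.gcd (Nat.find hex) M = Nat.find hex :=
      le_antisymm (Nat.gcd_le_left _ h1) h4
    rw [← h5]
    exact Nat.gcd_dvd_right _ _
  exact ⟨Nat.find hex, ⟨h1, h2, h3⟩, h3 M hM h⟩

theorem card_prod_dvd {G : Type u} {H : Type v} [Group G] [Group H] (L M : ℕ)
    (hG : ∀ K : Subgroup G, Finite K → Nat.card K ∣ L)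
    (hH : ∀ K : Subgroup H, Finite K → Nat.card K ∣ M) (K : Subgroup (G × H)) (hK : Finite K) :
    Nat.card K ∣ L * M := by
  let f : K →* G := (MonoidHom.fst G H).comp K.subtype
  let g : f.ker →* H := ((MonoidHom.snd G H).comp K.subtype).comp f.ker.subtype
  have hg : Function.Injective g := by
    rw [injective_iff_map_eq_one]
    intro x hx
    have h1 : f x.1 = 1 := x.2
    apply Subtype.ext
    apply Subtype.ext
    apply Prod.ext
    · exact h1
    · exact hx
  have h1 : Nat.card f.range ∣ L :=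
    hG _ (Finite.of_surjective _ f.rangeRestrict_surjective)
  have h2 : Nat.card f.ker ∣ M := by
    have h3 : Nat.card g.range ∣ M := hH _ (Finite.of_surjective _ g.rangeRestrict_surjective)
    rwa [Nat.card_congr (MonoidHom.ofInjective hg).toEquiv]
  rw [← Subgroup.card_mul_index f.ker, Subgroup.index_ker, mul_comm L M]
  exact Nat.mul_dvd_mul h2 h1

theorem lcm_ov (G : Type u) [Group G] (L : ℕ) (h : IsLcm G L) : IsLcm (Ov G) L := by
  obtain ⟨h1, h2, h3⟩ := h
  refine ⟨h1, ?_, ?_⟩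
  · intro H hH
    obtain ⟨H', hH', hc⟩ := ov_finite G H
    rw [← hc]
    exact h2 H' hH'
  · intro M hM hd
    apply h3 M hM
    intro H hH
    obtain ⟨H', hH', hc⟩ := card_map (ovIn G) (ovIn_inj G) H
    rw [← hc]
    exact hd H' hH'

section
variable (R : Subring ℂ)

theorem lcm_dvd {G : Type u} [Group G] (L : ℕ) (hL : IsLcm G L) (N : ℕ) (hN : 0 < N)
    (h : DD R G = {x : ℝ | ∃ k : ℕ, x = (k : ℝ) / N}) : L ∣ N := by
  apply hL.2.2 N hN
  intro H hH
  have h1 := inv_card_mem_DD R H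
  rw [h] at h1
  obtain ⟨k, hk⟩ := h1
  have hc : (0 : ℝ) < Nat.card H := by exact_mod_cast Nat.card_pos
  have hNr : (0 : ℝ) < N := by exact_mod_cast hN
  rw [div_eq_div_iff hc.ne' hNr.ne', one_mul] at hk
  refine ⟨k, ?_⟩
  have h2 : (N : ℝ) = ((k * Nat.card H : ℕ) : ℝ) := by
    push_cast
    exact hk
  have h3 : N = k * Nat.card H := by exact_mod_cast h2
  rw [h3, mul_comm]

/-- small elements of a dense set -/
theorem exists_small {D : Set ℝ} (h : closure D = Set.Ici 0) (a : ℝ) (ha : 0 < a) :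
    ∃ r ∈ D, 0 < r ∧ r < a := by
  have h1 : a / 2 ∈ closure D := by
    rw [h]
    exact (half_pos ha).le
  rw [Metric.mem_closure_iff] at h1
  obtain ⟨r, hr, hd⟩ := h1 (a / 2) (half_pos ha)
  rw [Real.dist_eq, abs_lt] at hd
  exact ⟨r, hr, by linarith [hd.2], by linarith [hd.1]⟩

/-- the dichotomy with the least common multiple -/
theorem dichotomy_lcm {G : Type u} [Group G] (hG : ICC G) (L : ℕ) (hL : IsLcm G L) :
    (∃ c : ℕ, 0 < c ∧ DD R G = {x : ℝ | ∃ k : ℕ, x = (k : ℝ) / (c * L : ℕ)}) ∨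
      closure (DD R G) = Set.Ici 0 := by
  rcases dichotomy R hG with ⟨N, hN, h⟩ | h
  · left
    obtain ⟨c, rfl⟩ := lcm_dvd R L hL N hN h
    refine ⟨c, Nat.pos_of_mul_pos_left hN, ?_⟩
    rw [mul_comm c L]
    exact h
  · exact Or.inr h

theorem gap_iff {G : Type u} [Group G] (hG : ICC G) (L : ℕ) (hL : IsLcm G L) :
    (∀ r ∈ DD R G, ∃ n : ℤ, L * r = n) ↔ ∀ r ∈ DD R G, 0 < r → 1 / (2 * (L : ℝ)) < r := by
  have hLr : (0 : ℝ) < L := by exact_mod_cast hL.1
  constructor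
  · intro h r hr hr0
    obtain ⟨n, hn⟩ := h r hr
    have h1 : (0 : ℝ) < n := by
      rw [← hn]
      positivity
    have h2 : (1 : ℤ) ≤ n := by
      have : (0 : ℤ) < n := by exact_mod_cast h1
      omega
    have h3 : (1 : ℝ) ≤ L * r := by
      rw [hn]
      exact_mod_cast h2
    rw [div_lt_iff₀ (by positivity)]
    nlinarith
  · intro h
    rcases dichotomy_lcm R hG L hL with ⟨c, hc, hD⟩ | hD
    · have hcL : 0 < c * L := Nat.mul_pos hc hL.1
      have hcr : (0 : ℝ) < ((c * L : ℕ) : ℝ) := by exact_mod_cast hcL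
      have h1 : 1 / ((c * L : ℕ) : ℝ) ∈ DD R G := by
        rw [hD]
        exact ⟨1, by rw [Nat.cast_one]⟩
      have h2 := h _ h1 (by positivity)
      rw [div_lt_div_iff₀ (by positivity) hcr, one_mul, one_mul] at h2
      have h3 : c * L < 2 * L := by
        have : ((c * L : ℕ) : ℝ) < ((2 * L : ℕ) : ℝ) := by
          push_cast at h2 ⊢
          exact h2
        exact_mod_cast this
      have h4 : c = 1 := by
        have : c < 2 := Nat.lt_of_mul_lt_mul_right h3
        omega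
      intro r hr
      rw [hD, h4, one_mul] at hr
      obtain ⟨k, rfl⟩ := hr
      refine ⟨k, ?_⟩
      rw [mul_div_cancel₀ _ hLr.ne']
      rfl
    · exfalso
      obtain ⟨r, hr, h1, h2⟩ := exists_small hD (1 / (2 * (L : ℝ))) (by positivity)
      linarith [h r hr h1]

/-- products with a power -/
theorem exists_power (G : Type u) [Group G] (L : ℕ) (hL : IsLcm G L) (r : ℝ) (hr : r ∈ DD R G)
    (n : ℕ) : ∃ (Γ : Type u) (_ : Group Γ) (M : ℕ), IsLcm Γ M ∧ M ∣ L ^ n ∧ r ^ n ∈ DD R Γ := by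
  induction n with
  | zero =>
    refine ⟨PUnit, inferInstance, 1, ⟨one_pos, ?_, ?_⟩, one_dvd _, ?_⟩
    · intro H _
      have : Subsingleton H := inferInstance
      rw [Nat.card_of_subsingleton (1 : H)]
    · intro M _ _
      exact one_dvd _
    · rw [pow_zero]
      exact one_mem_DD R
  | succ n ih =>
    obtain ⟨Γ, _, M, hM, hML, hrn⟩ := ih
    obtain ⟨M', hM', hM'd⟩ := exists_lcm (G × Γ) (L * M) (Nat.mul_pos hL.1 hM.1)
      (card_prod_dvd L M hL.2.1 hM.2.1)
    refine ⟨G × Γ, inferInstance, M', hM', ?_, ?_⟩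
    · rw [pow_succ, mul_comm (L ^ n) L]
      exact hM'd.trans (Nat.mul_dvd_mul_left L hML)
    · rw [pow_succ, mul_comm]
      exact DD_mul R r hr _ hrn

/-- violations can be amplified -/
theorem uniform (G : Type u) [Group G] (L : ℕ) (hL : IsLcm G L) (r : ℝ) (hr : r ∈ DD R G)
    (hr' : ∀ n : ℤ, L * r ≠ n) (ε : ℝ) (hε : 0 < ε) :
    ∃ (Γ : Type u) (_ : Group Γ) (M : ℕ), IsLcm Γ M ∧ ∃ s ∈ DD R Γ, 0 < s ∧ s < ε / M := by
  have hLr : (0 : ℝ) < L := by exact_mod_cast hL.1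
  have hO := lcm_ov G L hL
  have hrO : r ∈ DD R (Ov G) := DD_mono R (ovIn G) (ovIn_inj G) hr
  rcases dichotomy_lcm R (ov_icc G) L hO with ⟨c, hc, h⟩ | h
  · have hcL : 0 < c * L := Nat.mul_pos hc hL.1
    have hcr : (0 : ℝ) < ((c * L : ℕ) : ℝ) := by exact_mod_cast hcL
    have hc2 : 2 ≤ c := by
      by_contra hcon
      have hc1 : c = 1 := by omega
      rw [h, hc1, one_mul] at hrO
      obtain ⟨k, hk⟩ := hrO
      apply hr' k
      rw [hk, mul_div_cancel₀ _ hLr.ne']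
      rfl
    have h1 : 1 / ((c * L : ℕ) : ℝ) ∈ DD R (Ov G) := by
      rw [h]
      exact ⟨1, by rw [Nat.cast_one]⟩
    have hc2r : (2 : ℝ) ≤ c := by exact_mod_cast hc2
    have hcpos : (0 : ℝ) < c := by linarith
    have hlt : 1 / (c : ℝ) < 1 := by
      rw [div_lt_one hcpos]
      linarith
    obtain ⟨n, hn⟩ := exists_pow_lt_of_lt_one hε hlt
    obtain ⟨Γ, _, M, hM, hML, hs⟩ := exists_power R (Ov G) L hO _ h1 n
    refine ⟨Γ, inferInstance, M, hM, _, hs, by positivity, ?_⟩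
    have hMr : (0 : ℝ) < M := by exact_mod_cast hM.1
    have hMle : (M : ℝ) ≤ (L : ℝ) ^ n := by
      exact_mod_cast Nat.le_of_dvd (pow_pos hL.1 n) hML
    rw [lt_div_iff₀ hMr]
    have h2 : (1 / ((c * L : ℕ) : ℝ)) ^ n * (L : ℝ) ^ n = (1 / (c : ℝ)) ^ n := by
      rw [← mul_pow]
      congr 1
      push_cast
      field_simp
    calc (1 / ((c * L : ℕ) : ℝ)) ^ n * M ≤ (1 / ((c * L : ℕ) : ℝ)) ^ n * (L : ℝ) ^ n := by
          apply mul_le_mul_of_nonneg_left hMle
          positivity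
      _ = (1 / (c : ℝ)) ^ n := h2
      _ < ε := hn
  · obtain ⟨s, hs, h1, h2⟩ := exists_small h (ε / L) (by positivity)
    exact ⟨Ov G, inferInstance, L, hO, s, hs, h1, h2⟩

end

end Pool.Agent.X190.PN
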