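import Pool.Agent.X190.PN.Inj
import Pool.Agent.X190.LQ.Cone
import Mathlib.LinearAlgebra.Vandermonde

set_option autoImplicit false
set_option linter.unusedSectionVars false

open scoped InnerProductSpace InnerProduct ENNReal Topology
open Filter

/-! Polynomials with matrix coefficients over a group algebra: points and windows. -/

namespace Pool.Agent.X190.PN

open Pool.Agent.W649.ZL Pool.Agent.X190.TW Pool.Agent.X190.AT Pool.Agent.X190.LQ

universe u v w z y

section
variable {G : Type u} {K : Type v} {L : Type w} {N : Type y} [Group G] [Fintype K] [Fintype L]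
  [Fintype N] [DecidableEq K] [DecidableEq L] [DecidableEq N]

/-- the value of a polynomial with matrix coefficients -/
noncomputable def ev (d : ℕ) (A : ℕ → K → L → (G →₀ ℂ)) (x : ℂ) : K → L → (G →₀ ℂ) :=
  fun i j => ∑ k ∈ Finset.range (d + 1), x ^ k • A k i j

theorem ev_apply (d : ℕ) (A : ℕ → K → L → (G →₀ ℂ)) (x : ℂ) (i : K) (j : L) (g : G) :
    ev d A x i j g = ∑ k ∈ Finset.range (d + 1), x ^ k * A k i j g := by
  unfold ev
  rw [Finsupp.finsetSum_apply]
  rfl

/-- block diagonal matrices -/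
theorem kerDimM_block (C : K × N → L × N → (G →₀ ℂ)) (D : N → K → L → (G →₀ ℂ))
    (h : ∀ i a j b, C (i, a) (j, b) = if a = b then D a i j else 0) :
    kerDimM C = ∑ a, kerDimM (D a) := by
  classical
  choose T0 hT0 using fun a => exists_supp (D a)
  let T : Finset G := Finset.univ.biUnion T0
  have hT : ∀ a i j, (D a i j).support ⊆ T := fun a i j =>
    (hT0 a i j).trans (Finset.subset_biUnion_of_mem T0 (Finset.mem_univ a))
  choose S hS hSk hSa using fun a => exists_opT (D a) T (hT a)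
  have hTC : ∀ p q, (C p q).support ⊆ T := by
    rintro ⟨i, a⟩ ⟨j, b⟩ g hg
    rw [h] at hg
    split_ifs at hg with hh
    · exact hT a i j hg
    · simp at hg
  obtain ⟨R, hR, hRk, hRa⟩ := exists_opT C T hTC
  have hDs : ∀ (F : EE G (K × N)) (x : G) (j : L) (a : N),
      R F (x, (j, a)) = S a (slice a F) (x, j) := by
    intro F x j a
    rw [hRa, hSa, Fintype.sum_prod_type]
    refine Finset.sum_congr rfl fun k _ => ?_
    rw [Finset.sum_eq_single a]
    · refine Finset.sum_congr rfl fun t _ => ?_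
      rw [h, if_pos rfl]
      rfl
    · intro b _ hb
      apply Finset.sum_eq_zero
      intro t _
      rw [h, if_neg hb]
      simp
    · intro hh
      exact absurd (Finset.mem_univ _) hh
  rw [hRk, vd_directSum R S hDs]
  exact Finset.sum_congr rfl fun a _ => (hSk a).symm

/-- the powers of a matrix with given eigenvalues -/
noncomputable def pw {s : ℕ} (x : Fin s → ℂ) (k : ℕ) : Matrix (Fin s) (Fin s) ℂ :=
  (Matrix.vandermonde x).transpose * Matrix.diagonal (fun a => x a ^ k)
    * ((Matrix.vandermonde x).transpose)⁻¹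

theorem isUnit_vdm {s : ℕ} (x : Fin s → ℂ) (hx : Function.Injective x) :
    IsUnit (Matrix.vandermonde x).transpose := by
  rw [Matrix.isUnit_iff_isUnit_det, Matrix.det_transpose, isUnit_iff_ne_zero]
  exact Matrix.det_vandermonde_ne_zero_iff.2 hx

theorem pw_row {s : ℕ} (x : Fin s → ℂ) (hx : Function.Injective x) (k : ℕ) (a b : Fin s)
    (h : (a : ℕ) + k < s) : pw x k a b = if (b : ℕ) = a + k then 1 else 0 := by
  have hu := isUnit_vdm x hx
  have h1 : pw x k a b = ((Matrix.vandermonde x).transpose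
      * ((Matrix.vandermonde x).transpose)⁻¹) ⟨(a : ℕ) + k, h⟩ b := by
    unfold pw
    rw [Matrix.mul_apply, Matrix.mul_apply]
    refine Finset.sum_congr rfl fun i _ => ?_
    congr 1
    rw [Matrix.mul_diagonal, Matrix.transpose_apply, Matrix.transpose_apply,
      Matrix.vandermonde_apply, Matrix.vandermonde_apply, ← pow_add]
  rw [h1, Matrix.mul_nonsing_inv _ ((Matrix.isUnit_iff_isUnit_det _).1 hu), Matrix.one_apply]
  congr 1
  rw [eq_iff_iff, Fin.ext_iff]
  exact eq_comm

/-- a polynomial at a matrix with given eigenvalues -/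
noncomputable def atM (d : ℕ) (A : ℕ → K → L → (G →₀ ℂ)) {s : ℕ} (x : Fin s → ℂ) :
    K × Fin s → L × Fin s → (G →₀ ℂ) :=
  fun p q => ∑ k ∈ Finset.range (d + 1), pw x k p.2 q.2 • A k p.1 q.1

theorem atM_apply (d : ℕ) (A : ℕ → K → L → (G →₀ ℂ)) {s : ℕ} (x : Fin s → ℂ) (i : K) (a : Fin s)
    (j : L) (b : Fin s) (g : G) : atM d A x (i, a) (j, b) g
      = ∑ k ∈ Finset.range (d + 1), pw x k a b * A k i j g := by
  unfold atM
  rw [Finsupp.finsetSum_apply]
  rfl

theorem kerDimM_points (d : ℕ) (A : ℕ → K → L → (G →₀ ℂ)) {s : ℕ} (x : Fin s → ℂ)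
    (hx : Function.Injective x) : kerDimM (atM d A x) = ∑ a, kerDimM (ev d A (x a)) := by
  have hu := isUnit_vdm x hx
  let C : K × Fin s → L × Fin s → (G →₀ ℂ) := fun p q =>
    if p.2 = q.2 then ev d A (x p.2) p.1 q.1 else 0
  rw [← kerDimM_block C (fun a => ev d A (x a)) (fun i a j b => rfl)]
  refine kerDimM_conj (atM d A x) C _ hu ?_
  intro i a j c g
  have h1 : ∀ k, ∑ b, pw x k a b * (Matrix.vandermonde x).transpose b c
      = (Matrix.vandermonde x).transpose a c * x c ^ k := by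
    intro k
    rw [← Matrix.mul_apply]
    unfold pw
    rw [Matrix.mul_assoc, Matrix.nonsing_inv_mul _ ((Matrix.isUnit_iff_isUnit_det _).1 hu),
      Matrix.mul_one, Matrix.mul_diagonal]
  have h2 : ∑ b, atM d A x (i, a) (j, b) g * (Matrix.vandermonde x).transpose b c
      = ∑ k ∈ Finset.range (d + 1), (Matrix.vandermonde x).transpose a c * x c ^ k * A k i j g := by
    simp only [atM_apply, Finset.sum_mul]
    rw [Finset.sum_comm]
    refine Finset.sum_congr rfl fun k _ => ?_
    rw [← h1 k, Finset.sum_mul]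
    refine Finset.sum_congr rfl fun b _ => ?_
    ring
  rw [h2, Finset.sum_eq_single c]
  · change _ = _ * (if c = c then ev d A (x c) i j else 0) g
    rw [if_pos rfl, ev_apply, Finset.mul_sum]
    refine Finset.sum_congr rfl fun k _ => ?_
    ring
  · intro b _ hb
    change _ * (if b = c then ev d A (x b) i j else 0) g = 0
    rw [if_neg hb]
    simp
  · intro hh
    exact absurd (Finset.mem_univ _) hh

/-- the rows which do not depend on the points -/
noncomputable def rowsM (d : ℕ) (A : ℕ → K → L → (G →₀ ℂ)) (m : ℕ) :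
    K × Fin m → L × Fin (m + d) → (G →₀ ℂ) :=
  fun p q => if (p.2 : ℕ) ≤ q.2 ∧ (q.2 : ℕ) ≤ p.2 + d then A ((q.2 : ℕ) - p.2) p.1 q.1 else 0

theorem atM_rows (d : ℕ) (A : ℕ → K → L → (G →₀ ℂ)) (m : ℕ) (x : Fin (m + d) → ℂ)
    (hx : Function.Injective x) :
    kerDimM (rowsM d A m) ≤ kerDimM (atM d A x) ∧
      kerDimM (atM d A x) ≤ kerDimM (rowsM d A m) + (Fintype.card K : ℝ) * d := by
  have h := kerDimM_rows (atM d A x) (K × Fin m) (Prod.map id (Fin.castAdd d))
    (Function.injective_id.prodMap (Fin.castAdd_injective m d))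
  have h1 : (fun (p : K × Fin m) (q : L × Fin (m + d)) =>
      atM d A x (Prod.map id (Fin.castAdd d) p) q) = rowsM d A m := by
    funext p q
    obtain ⟨i, a⟩ := p
    obtain ⟨j, b⟩ := q
    ext g
    change atM d A x (i, Fin.castAdd d a) (j, b) g = _
    rw [atM_apply]
    have h2 : ∀ k ∈ Finset.range (d + 1), pw x k (Fin.castAdd d a) b * A k i j g
        = if k = (b : ℕ) - a ∧ (a : ℕ) ≤ b then A k i j g else 0 := by
      intro k hk
      have hk' := Finset.mem_range.1 hk
      have ha := a.2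
      rw [pw_row x hx k _ _ (by rw [Fin.val_castAdd]; omega), Fin.val_castAdd]
      by_cases hc : (b : ℕ) = a + k
      · rw [if_pos hc, if_pos (by omega), one_mul]
      · rw [if_neg hc, if_neg (by omega), zero_mul]
    rw [Finset.sum_congr rfl h2]
    unfold rowsM
    by_cases hab : (a : ℕ) ≤ b ∧ (b : ℕ) ≤ a + d
    · rw [if_pos hab, Finset.sum_eq_single ((b : ℕ) - a)]
      · rw [if_pos ⟨rfl, hab.1⟩]
      · intro k _ hk
        rw [if_neg]
        rintro ⟨h3, _⟩
        exact hk h3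
      · intro hh
        exact absurd (Finset.mem_range.2 (by omega)) hh
    · rw [if_neg hab]
      apply Finset.sum_eq_zero
      intro k hk
      have hk' := Finset.mem_range.1 hk
      rw [if_neg]
      rintro ⟨h3, h4⟩
      apply hab
      omega
  rw [h1] at h
  refine ⟨h.1, h.2.trans ?_⟩
  rw [Fintype.card_prod, Fintype.card_prod, Fintype.card_fin, Fintype.card_fin]
  push_cast
  apply le_of_eq
  ring

/-- the translation action of the second factor -/
@[reducible] noncomputable def actZ (G : Type u) [Group G] : MulAction (G × Multiplicative ℤ) ℤ where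
  smul t y := Multiplicative.toAdd t.2 + y
  one_smul y := by
    change Multiplicative.toAdd (1 : Multiplicative ℤ) + y = y
    rw [toAdd_one, zero_add]
  mul_smul s t y := by
    change Multiplicative.toAdd (s.2 * t.2) + y
      = Multiplicative.toAdd s.2 + (Multiplicative.toAdd t.2 + y)
    rw [toAdd_mul, add_assoc]

/-- `B` is the polynomial as a matrix over the group algebra of the product with `ℤ` -/
def IsPoly (d : ℕ) (A : ℕ → K → L → (G →₀ ℂ)) (B : K → L → (G × Multiplicative ℤ →₀ ℂ)) : Prop :=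
  ∀ i j g (k : ℤ), B i j (g, Multiplicative.ofAdd k)
    = if 0 ≤ k ∧ k ≤ d then A k.toNat i j g else 0

/-- the window -/
theorem kerDimM_window (d : ℕ) (A : ℕ → K → L → (G →₀ ℂ)) (B : K → L → (G × Multiplicative ℤ →₀ ℂ))
    (hB : IsPoly d A B) (m : ℕ) :
    letI := actZ G
    kerDimM (win (Finset.Ioc (-(m : ℤ)) 0) (Finset.Ioc (-((m : ℤ) + d)) 0) B)
      = kerDimM (rowsM d A m) := by
  letI := actZ G
  have hact : ∀ (t : G × Multiplicative ℤ) (y : ℤ), t • y = Multiplicative.toAdd t.2 + y :=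
    fun _ _ => rfl
  have hEq : ∀ r : ℕ, ∃ e : Fin r ≃ (Finset.Ioc (-(r : ℤ)) 0 : Finset ℤ),
      ∀ a : Fin r, (e a : ℤ) = -(a : ℤ) := by
    intro r
    let f : Fin r → (Finset.Ioc (-(r : ℤ)) 0 : Finset ℤ) := fun a =>
      ⟨-(a : ℤ), by
        have := a.2
        rw [Finset.mem_Ioc]
        omega⟩
    have hf : Function.Bijective f := by
      constructor
      · intro a b hab
        have h1 : -(a : ℤ) = -(b : ℤ) := congrArg Subtype.val hab
        apply Fin.ext
        omega
      · rintro ⟨y, hy⟩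
        have hy' := Finset.mem_Ioc.1 hy
        refine ⟨⟨(-y).toNat, by omega⟩, ?_⟩
        apply Subtype.ext
        change -(((-y).toNat : ℕ) : ℤ) = y
        omega
    exact ⟨Equiv.ofBijective f hf, fun a => rfl⟩
  obtain ⟨e1, he1⟩ := hEq m
  obtain ⟨e2', he2'⟩ := hEq (m + d)
  have hcast : Finset.Ioc (-((m + d : ℕ) : ℤ)) 0 = Finset.Ioc (-((m : ℤ) + d)) 0 := by
    push_cast
    rfl
  obtain ⟨e2, he2⟩ : ∃ e : Fin (m + d) ≃ (Finset.Ioc (-((m : ℤ) + d)) 0 : Finset ℤ),
      ∀ a : Fin (m + d), (e a : ℤ) = -(a : ℤ) := by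
    rw [← hcast]
    exact ⟨e2', he2'⟩
  have h1 := kerDimM_reindex (win (Finset.Ioc (-(m : ℤ)) 0) (Finset.Ioc (-((m : ℤ) + d)) 0) B)
    (Equiv.prodCongr (Equiv.refl K) e1) (Equiv.prodCongr (Equiv.refl L) e2)
  rw [← h1]
  let j : G →* G × Multiplicative ℤ := MonoidHom.inl G (Multiplicative ℤ)
  have hj : Function.Injective j := by
    intro x y hxy
    exact (Prod.mk.inj hxy).1
  let A' : K × Fin m → L × Fin (m + d) → (G × Multiplicative ℤ →₀ ℂ) := fun p q =>
    (rowsM d A m p q).mapDomain j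
  have h2 : kerDimM A' = kerDimM (rowsM d A m) := by
    refine kerDimM_inj j hj (rowsM d A m) A' ?_ ?_
    · intro i k g
      exact Finsupp.mapDomain_apply hj _ _
    · intro i k γ hγ
      exact Finsupp.mapDomain_of_notMem_range _ _ hγ
  rw [← h2]
  symm
  refine kerDimM_shift _ A' (fun p => (1, Multiplicative.ofAdd (p.2 : ℤ)))
    (fun q => (1, Multiplicative.ofAdd (-(q.2 : ℤ)))) ?_
  rintro ⟨i, a⟩ ⟨l, b⟩ ⟨g, k0⟩
  obtain ⟨k, hk0⟩ : ∃ k' : ℤ, k0 = Multiplicative.ofAdd k' := ⟨Multiplicative.toAdd k0, rfl⟩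
  rw [hk0]
  have e3 : ((1 : G), Multiplicative.ofAdd (a : ℤ)) * (g, Multiplicative.ofAdd k)
      * (1, Multiplicative.ofAdd (-(b : ℤ))) = (g, Multiplicative.ofAdd ((a : ℤ) + k - b)) := by
    rw [Prod.mk_mul_mk, Prod.mk_mul_mk, one_mul, mul_one, ← ofAdd_add, ← ofAdd_add, sub_eq_add_neg]
  simp only
  rw [e3]
  have hbv : ((e2 b : ℤ)) = -(b : ℤ) := he2 b
  have hav : ((e1 a : ℤ)) = -(a : ℤ) := he1 a
  by_cases hk : k = (b : ℤ) - a
  · have e4 : ((g, Multiplicative.ofAdd ((a : ℤ) + k - b)) : G × Multiplicative ℤ) = j g := by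
      change (g, Multiplicative.ofAdd ((a : ℤ) + k - b)) = (g, (1 : Multiplicative ℤ))
      rw [hk]
      congr 1
      rw [← ofAdd_zero]
      congr 1
      ring
    rw [e4]
    have e5 : A' (i, a) (l, b) (j g) = rowsM d A m (i, a) (l, b) g :=
      Finsupp.mapDomain_apply hj _ _
    rw [e5]
    have e6 : win (Finset.Ioc (-(m : ℤ)) 0) (Finset.Ioc (-((m : ℤ) + d)) 0) B (i, e1 a) (l, e2 b)
        (g, Multiplicative.ofAdd k) = B i l (g, Multiplicative.ofAdd k) := by
      apply win_apply_self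
      rw [hact]
      change k + (e2 b : ℤ) = (e1 a : ℤ)
      rw [hbv, hav, hk]
      ring
    change _ = win (Finset.Ioc (-(m : ℤ)) 0) (Finset.Ioc (-((m : ℤ) + d)) 0) B (i, e1 a) (l, e2 b)
        (g, Multiplicative.ofAdd k)
    rw [e6, hB]
    unfold rowsM
    simp only
    by_cases hab : (a : ℕ) ≤ b ∧ (b : ℕ) ≤ a + d
    · rw [if_pos hab, if_pos (by omega)]
      have e7 : k.toNat = (b : ℕ) - a := by omega
      rw [e7]
    · rw [if_neg hab, if_neg (by omega)]
      rfl
  · have e4 : ((g, Multiplicative.ofAdd ((a : ℤ) + k - b)) : G × Multiplicative ℤ) ∉ Set.range j := by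
      rintro ⟨g', hg'⟩
      have e5 := congrArg (fun p : G × Multiplicative ℤ => Multiplicative.toAdd p.2) hg'
      change (0 : ℤ) = (a : ℤ) + k - b at e5
      apply hk
      omega
    have e5 : A' (i, a) (l, b) (g, Multiplicative.ofAdd ((a : ℤ) + k - b)) = 0 :=
      Finsupp.mapDomain_of_notMem_range _ _ e4
    rw [e5]
    symm
    change win (Finset.Ioc (-(m : ℤ)) 0) (Finset.Ioc (-((m : ℤ) + d)) 0) B (i, e1 a) (l, e2 b)
        (g, Multiplicative.ofAdd k) = 0
    apply win_apply_ne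
    rw [hact]
    change k + (e2 b : ℤ) ≠ (e1 a : ℤ)
    rw [hbv, hav]
    intro h
    apply hk
    omega

/-- the two bounds -/
theorem rows_bounds (d : ℕ) (A : ℕ → K → L → (G →₀ ℂ)) (B : K → L → (G × Multiplicative ℤ →₀ ℂ))
    (hB : IsPoly d A B) (m : ℕ) :
    kerDimM (rowsM d A m) ≤ m * kerDimM B ∧
      (m : ℝ) * kerDimM B ≤ kerDimM (rowsM d A m) + (Fintype.card L : ℝ) * (2 * d) := by
  classical
  letI := actZ G
  have hact : ∀ (t : G × Multiplicative ℤ) (y : ℤ), t • y = Multiplicative.toAdd t.2 + y :=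
    fun _ _ => rfl
  obtain ⟨T0, hT0⟩ := exists_supp B
  let T := T0.filter (fun t : G × Multiplicative ℤ =>
    (0 : ℤ) ≤ Multiplicative.toAdd t.2 ∧ Multiplicative.toAdd t.2 ≤ (d : ℤ))
  have hT : ∀ i j, (B i j).support ⊆ T := by
    intro i j t ht
    rw [Finset.mem_filter]
    refine ⟨hT0 i j ht, ?_⟩
    by_contra hcon
    apply Finsupp.mem_support_iff.1 ht
    have h1 := hB i j t.1 (Multiplicative.toAdd t.2)
    rw [if_neg hcon] at h1
    exact h1
  have hTd : ∀ t ∈ T, (0 : ℤ) ≤ Multiplicative.toAdd t.2 ∧ Multiplicative.toAdd t.2 ≤ (d : ℤ) :=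
    fun t ht => (Finset.mem_filter.1 ht).2
  have hW : (Finset.Ioc (-(m : ℤ)) 0).card = m := by
    rw [Int.card_Ioc]
    omega
  have hwin := kerDimM_window d A B hB m
  constructor
  · rw [← hwin]
    have h1 := win_le (Finset.Ioc (-(m : ℤ)) 0) (Finset.Ioc (-((m : ℤ) + d)) 0) B T hT (by
      intro y hy t ht hty
      have h2 := hTd t ht
      rw [hact, Finset.mem_Ioc] at hty
      apply hy
      rw [Finset.mem_Ioc]
      omega)
    rw [hW] at h1
    exact h1
  · rw [← hwin]
    have h1 := win_ge (Finset.Ioc (-(m : ℤ)) 0) (Finset.Ioc (-(m : ℤ)) (-(d : ℤ))) B T hT (by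
      intro y hy t ht
      have h2 := hTd t ht
      rw [Finset.mem_Ioc] at hy
      rw [hact, Finset.mem_Ioc]
      omega)
    rw [hW] at h1
    have h2 := win_mono (Finset.Ioc (-(m : ℤ)) 0) (Finset.Ioc (-(m : ℤ)) (-(d : ℤ)))
      (Finset.Ioc (-((m : ℤ) + d)) 0) (by
        intro y hy
        rw [Finset.mem_Ioc] at hy ⊢
        omega) B
    have h3 : ((Finset.Ioc (-((m : ℤ) + d)) 0 \ Finset.Ioc (-(m : ℤ)) (-(d : ℤ))).card : ℝ)
        ≤ 2 * d := by
      have h4 : Finset.Ioc (-((m : ℤ) + d)) 0 \ Finset.Ioc (-(m : ℤ)) (-(d : ℤ))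
          ⊆ Finset.Ioc (-((m : ℤ) + d)) (-(m : ℤ)) ∪ Finset.Ioc (-(d : ℤ)) 0 := by
        intro y hy
        rw [Finset.mem_sdiff, Finset.mem_Ioc, Finset.mem_Ioc] at hy
        rw [Finset.mem_union, Finset.mem_Ioc, Finset.mem_Ioc]
        omega
      have h5 := (Finset.card_le_card h4).trans (Finset.card_union_le _ _)
      rw [Int.card_Ioc, Int.card_Ioc] at h5
      have h6 : (Finset.Ioc (-((m : ℤ) + d)) 0 \ Finset.Ioc (-(m : ℤ)) (-(d : ℤ))).card ≤ 2 * d := by
        omega
      exact_mod_cast h6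
    have h7 : (0 : ℝ) ≤ Fintype.card L := Nat.cast_nonneg _
    have h8 := mul_le_mul_of_nonneg_left h3 h7
    linarith

end

end Pool.Agent.X190.PN
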