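import Pool.Agent.X190.PN.Avg
import Pool.Agent.X190.TW.Rep3

set_option autoImplicit false
set_option linter.unusedSectionVars false

open scoped InnerProductSpace InnerProduct ENNReal Topology Pointwise
open Filter

/-! Groups with infinite conjugacy classes: generic columns. -/

namespace Pool.Agent.X190.PN

open Pool.Agent.W649.ZL Pool.Agent.X190.TW Pool.Agent.X190.AT

universe u v w z y

section
variable {G : Type u} {K : Type v} {L : Type w} [Group G] [Fintype K] [Fintype L]
  [DecidableEq K] [DecidableEq L]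

theorem proj_decomp (P Q : Submodule ℂ (EE G K)) [P.HasOrthogonalProjection]
    [Q.HasOrthogonalProjection] [(Q ⊓ Pᗮ).HasOrthogonalProjection] (h : P ≤ Q) (x : EE G K) :
    (Q ⊓ Pᗮ).starProjection x = Q.starProjection x - P.starProjection x := by
  have hPQ : P.starProjection (Q.starProjection x) = P.starProjection x := by
    have := Submodule.starProjection_comp_starProjection_of_le h
    rw [← ContinuousLinearMap.comp_apply, this]
  apply Submodule.eq_starProjection_of_mem_of_inner_eq_zero
  · refine ⟨Q.sub_mem (Submodule.starProjection_apply_mem _ _)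
      (h (Submodule.starProjection_apply_mem _ _)), ?_⟩
    rw [← hPQ]
    exact Submodule.sub_starProjection_mem_orthogonal _
  · intro w hw
    have a1 : ⟪x - Q.starProjection x, w⟫_ℂ = 0 :=
      Submodule.starProjection_inner_eq_zero x w hw.1
    have a2 : ⟪P.starProjection x, w⟫_ℂ = 0 :=
      Submodule.inner_right_of_mem_orthogonal (Submodule.starProjection_apply_mem P x) hw.2
    have : x - (Q.starProjection x - P.starProjection x)
      = (x - Q.starProjection x) + P.starProjection x := by abel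
    rw [this, inner_add_left, a1, a2, add_zero]

/-- the rank of a contraction on a submodule -/
theorem rank_gap (P : Submodule ℂ (EE G K)) [P.HasOrthogonalProjection]
    (hPc : IsClosed (P : Set (EE G K))) (X : EE G K →L[ℂ] EE G L) (hX : ∀ v, ‖X v‖ ≤ ‖v‖) :
    ∑ j, ‖X (P.starProjection (dl ((1 : G), j)))‖ ^ 2
      ≤ vd P - vd (P ⊓ LinearMap.ker (X : EE G K →ₗ[ℂ] EE G L)) := by
  let W : Submodule ℂ (EE G K) := P ⊓ LinearMap.ker (X : EE G K →ₗ[ℂ] EE G L)
  have hWc : IsClosed (W : Set (EE G K)) := by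
    change IsClosed ((P ⊓ LinearMap.ker (X : EE G K →ₗ[ℂ] EE G L) : Submodule ℂ (EE G K)) :
      Set (EE G K))
    rw [Submodule.coe_inf]
    exact hPc.inter (ContinuousLinearMap.isClosed_ker X)
  have hUc : IsClosed ((P ⊓ Wᗮ : Submodule ℂ (EE G K)) : Set (EE G K)) := by
    rw [Submodule.coe_inf]
    exact hPc.inter (Submodule.isClosed_orthogonal W)
  have i1 : CompleteSpace W := hWc.completeSpace_coe
  have i2 : CompleteSpace (P ⊓ Wᗮ : Submodule ℂ (EE G K)) := hUc.completeSpace_coe
  rw [← vd_sub hWc hPc inf_le_left, vd_eq _ _ (topcl_eq hUc)]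
  refine Finset.sum_le_sum fun j _ => ?_
  have h1 := proj_decomp W P inf_le_left (dl ((1 : G), j))
  have h2 : X (P.starProjection (dl ((1 : G), j)))
      = X ((P ⊓ Wᗮ).starProjection (dl ((1 : G), j))) := by
    have h3 : X (W.starProjection (dl ((1 : G), j))) = 0 :=
      (Submodule.starProjection_apply_mem W (dl ((1 : G), j))).2
    rw [h1, map_sub, h3, sub_zero]
  rw [h2]
  exact pow_le_pow_left₀ (norm_nonneg _) (hX _) 2

theorem norm_star_le (Q : Submodule ℂ (EE G K)) [Q.HasOrthogonalProjection] (v : EE G K) :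
    ‖Q.starProjection v‖ ≤ ‖v‖ := by
  refine (Q.starProjection.le_opNorm v).trans ?_
  have h1 := Q.starProjection_norm_le
  exact mul_le_of_le_one_left (norm_nonneg _) h1

theorem star_dl (Q : Submodule ℂ (EE G K)) [Q.HasOrthogonalProjection] (x : G × K) :
    Q.starProjection (dl x) x = ((‖Q.starProjection (dl x)‖ ^ 2 : ℝ) : ℂ) := by
  have h1 : ⟪dl x - Q.starProjection (dl x), Q.starProjection (dl x)⟫_ℂ = 0 :=
    Submodule.starProjection_inner_eq_zero (dl x) _ (Submodule.starProjection_apply_mem Q (dl x))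
  rw [inner_sub_left, sub_eq_zero, inner_dl_left, inner_self_eq_norm_sq_to_K] at h1
  rw [h1]
  norm_cast

/-- the trace -/
theorem trace_id (P : Submodule ℂ (EE G K)) [P.HasOrthogonalProjection] (hP : W649.ZL.Inv P)
    (Q : Submodule ℂ (EE G Unit)) [Q.HasOrthogonalProjection] (hQ : W649.ZL.Inv Q) (i : K) (g : G) :
    ∑ j, ‖Q.starProjection (elem g () i (P.starProjection (dl ((1 : G), j))))‖ ^ 2
      = (⟪Q.starProjection (dl ((1 : G), ())), cj g⁻¹ (elem (1 : G) () i
          (P.starProjection (dl ((1 : G), i))))⟫_ℂ).re := by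
  let R : EE G K →L[ℂ] EE G Unit := elem g () i
  let X : EE G K →L[ℂ] EE G Unit := R.comp P.starProjection
  let Y : EE G K →L[ℂ] EE G Unit := Q.starProjection.comp (R.comp P.starProjection)
  have hR : Eqv R := elem_eqv g () i
  have hX : Eqv X := by
    intro k f
    change R (P.starProjection (tr k f)) = tr k (R (P.starProjection f))
    rw [proj_tr hP, hR]
  have hY : Eqv Y := by
    intro k f
    change Q.starProjection (R (P.starProjection (tr k f)))
      = tr k (Q.starProjection (R (P.starProjection f)))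
    rw [proj_tr hP, hR, proj_tr hQ]
  have h1 := HS X Y hX hY
  have h2 : ∑ j, ‖Q.starProjection (elem g () i (P.starProjection (dl ((1 : G), j))))‖ ^ 2
      = (∑ j, ⟪X (dl (1, j)), Y (dl (1, j))⟫_ℂ).re := by
    rw [Complex.re_sum]
    refine Finset.sum_congr rfl fun j _ => ?_
    exact norm_sq_star Q _
  rw [h2, h1]
  rw [Fintype.sum_unique]
  change (⟪ContinuousLinearMap.adjoint Y (dl (1, ())), ContinuousLinearMap.adjoint X (dl (1, ()))⟫_ℂ).re = _
  congr 1
  have hRe : ContinuousLinearMap.adjoint R (dl ((1 : G), ())) = dl (g⁻¹, i) := by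
    apply ext_inner_right ℂ
    intro w
    rw [ContinuousLinearMap.adjoint_inner_left, inner_dl_left, inner_dl_left]
    change elem g () i w (1, ()) = _
    rw [elem_apply, if_pos rfl, mul_one]
  have hXe : ContinuousLinearMap.adjoint X (dl ((1 : G), ())) = P.starProjection (dl (g⁻¹, i)) := by
    apply ext_inner_right ℂ
    intro w
    rw [ContinuousLinearMap.adjoint_inner_left, Submodule.inner_starProjection_left_eq_right, ← hRe,
      ContinuousLinearMap.adjoint_inner_left]
    rfl
  have h3 : ⟪ContinuousLinearMap.adjoint Y (dl ((1 : G), ())),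
      ContinuousLinearMap.adjoint X (dl ((1 : G), ()))⟫_ℂ
      = ⟪Q.starProjection (dl ((1 : G), ())), R (P.starProjection (dl (g⁻¹, i)))⟫_ℂ := by
    rw [hXe, ContinuousLinearMap.adjoint_inner_left]
    change ⟪_, Q.starProjection (R (P.starProjection (P.starProjection (dl (g⁻¹, i)))))⟫_ℂ = _
    have h4 : P.starProjection (P.starProjection (dl (g⁻¹, i))) = P.starProjection (dl (g⁻¹, i)) :=
      Submodule.starProjection_eq_self_iff.2 (Submodule.starProjection_apply_mem _ _)
    rw [h4, Submodule.inner_starProjection_left_eq_right]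
  rw [h3]
  congr 1
  have h5 : (dl (g⁻¹, i) : EE G K) = tr g (dl ((1 : G), i)) := by
    rw [tr_dl, one_mul]
  rw [h5, proj_tr hP]
  ext ⟨x, _⟩
  rw [cj_apply]
  change elem g () i (tr g (P.starProjection (dl ((1 : G), i)))) (x, ()) = _
  rw [elem_apply, if_pos rfl, tr_apply, elem_apply, if_pos rfl, inv_inv, inv_one, one_mul]

/-- in a group with infinite conjugacy classes some group element gives a map of large rank -/
theorem exists_gap (hG : ICC G) [Nonempty K] (P : Submodule ℂ (EE G K))
    (hPc : IsClosed (P : Set (EE G K))) (hP : W649.ZL.Inv P)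
    (Q : Submodule ℂ (EE G Unit)) [Q.HasOrthogonalProjection] (hQc : IsClosed (Q : Set (EE G Unit)))
    (hQ : W649.ZL.Inv Q) (δ : ℝ) (hδ : 0 < δ) : ∃ (i : K) (g : G),
      vd (P ⊓ LinearMap.ker ((Q.starProjection.comp (elem g () i : EE G K →L[ℂ] EE G Unit)) :
        EE G K →ₗ[ℂ] EE G Unit)) ≤ vd P - vd P * vd Q / Fintype.card K + δ := by
  classical
  have i1 : CompleteSpace P := hPc.completeSpace_coe
  have hvP : vd P = ∑ j : K, ‖P.starProjection (dl ((1 : G), j))‖ ^ 2 := vd_eq _ _ (topcl_eq hPc)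
  have hvQ : vd Q = ‖Q.starProjection (dl ((1 : G), ()))‖ ^ 2 := by
    rw [vd_eq _ _ (topcl_eq hQc), Fintype.sum_unique]
  have hcard : (0 : ℝ) < Fintype.card K := by exact_mod_cast Fintype.card_pos
  obtain ⟨i, hi⟩ : ∃ i : K, vd P / Fintype.card K ≤ ‖P.starProjection (dl ((1 : G), i))‖ ^ 2 := by
    by_contra hcon
    push Not at hcon
    have h1 : ∑ j : K, ‖P.starProjection (dl ((1 : G), j))‖ ^ 2
        < ∑ _j : K, vd P / Fintype.card K :=
      Finset.sum_lt_sum_of_nonempty Finset.univ_nonempty (fun j _ => hcon j)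
    rw [Finset.sum_const, Finset.card_univ, nsmul_eq_mul, mul_div_cancel₀ _ hcard.ne', ← hvP] at h1
    exact lt_irrefl _ h1
  obtain ⟨g, hg⟩ := mix hG (Q.starProjection (dl ((1 : G), ())))
    (elem (1 : G) () i (P.starProjection (dl ((1 : G), i)))) δ hδ
  refine ⟨i, g⁻¹, ?_⟩
  have h1 := rank_gap P hPc (Q.starProjection.comp (elem g⁻¹ () i : EE G K →L[ℂ] EE G Unit)) (by
    intro v
    exact (norm_star_le Q _).trans (norm_elemFun_le g⁻¹ () i v))
  have h2 := trace_id P hP Q hQ i g⁻¹
  rw [inv_inv] at h2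
  have h3 : ∑ j, ‖(Q.starProjection.comp (elem g⁻¹ () i : EE G K →L[ℂ] EE G Unit))
      (P.starProjection (dl ((1 : G), j)))‖ ^ 2
      = (⟪Q.starProjection (dl ((1 : G), ())), cj g (elem (1 : G) () i
          (P.starProjection (dl ((1 : G), i))))⟫_ℂ).re := h2
  rw [h3] at h1
  have e1 : Q.starProjection (dl ((1 : G), ())) (1, ()) = ((vd Q : ℝ) : ℂ) := by
    rw [hvQ, star_dl]
  have e2 : elem (1 : G) () i (P.starProjection (dl ((1 : G), i))) (1, ())
      = ((‖P.starProjection (dl ((1 : G), i))‖ ^ 2 : ℝ) : ℂ) := by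
    rw [elem_apply, if_pos rfl, inv_one, one_mul, star_dl]
  rw [e1, e2, Complex.conj_ofReal, ← Complex.ofReal_mul] at hg
  have h6 := (Complex.abs_re_le_norm _).trans_lt hg
  rw [Complex.sub_re, Complex.ofReal_re, abs_lt] at h6
  have h7 : vd Q * (vd P / Fintype.card K) ≤ vd Q * ‖P.starProjection (dl ((1 : G), i))‖ ^ 2 :=
    mul_le_mul_of_nonneg_left hi (vd_nonneg _)
  have h8 : vd Q * (vd P / Fintype.card K) = vd P * vd Q / Fintype.card K := by ring
  linarith [h6.1]

end

end Pool.Agent.X190.PN
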