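import Pool.Agent.X190.PN.Column

set_option autoImplicit false
set_option linter.unusedSectionVars false

open scoped InnerProductSpace InnerProduct ENNReal Topology Pointwise
open Filter

/-! Direct sums of matrices, and the closure of the set of kernel dimensions. -/

namespace Pool.Agent.X190.PN

open Pool.Agent.W649.ZL Pool.Agent.X190.TW Pool.Agent.X190.AT

universe u v w z y

section
variable {G : Type u} [Group G]

/-- the distance of a basis vector and some coordinates -/
theorem infDist_coord {K1 : Type*} {K : Type*} (e : K1 → K) (he : Function.Injective e)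
    (P : Set (EE G K1)) (Q : Set (EE G K)) (hP : P.Nonempty) (hQ : Q.Nonempty)
    (h1 : ∀ F : EE G K, ∀ F1 ∈ P, (∀ x i, F (x, e i) = F1 (x, i)) →
      (∀ x k, k ∉ Set.range e → F (x, k) = 0) → F ∈ Q)
    (h2 : ∀ F ∈ Q, ∀ F1 : EE G K1, (∀ x i, F1 (x, i) = F (x, e i)) → F1 ∈ P) (i : K1) :
    1 - Metric.infDist (dl ((1 : G), e i)) Q ^ 2 = 1 - Metric.infDist (dl ((1 : G), i)) P ^ 2 := by
  classical
  let ι : ↥{z : G × K | z.2 ∈ Set.range e} → G × K1 := fun x => (x.1.1, x.2.choose)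
  have hι : Function.Injective ι := by
    rintro ⟨⟨x, k1⟩, hx⟩ ⟨⟨x', k2⟩, hx'⟩ hh
    obtain ⟨e1, e2⟩ := Prod.mk.inj hh
    simp only at e1 e2
    have e3 : e hx.choose = k1 := hx.choose_spec
    have e4 : e hx'.choose = k2 := hx'.choose_spec
    rw [Subtype.mk.injEq, e1, ← e3, ← e4, e2]
  have hap : ∀ (F : EE G K1) (x : G) (i : K1), pull _ ι hι F (x, e i) = F (x, i) := by
    intro F x i
    have hx : ((x, e i) : G × K) ∈ {z : G × K | z.2 ∈ Set.range e} := ⟨i, rfl⟩
    rw [pull_apply, pullFun_mem _ _ _ _ hx]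
    have e1 : ι ⟨(x, e i), hx⟩ = (x, i) := by
      change (x, hx.choose) = (x, i)
      rw [he hx.choose_spec]
    rw [e1]
  have hap0 : ∀ (F : EE G K1) (x : G) (k : K), k ∉ Set.range e → pull _ ι hι F (x, k) = 0 := by
    intro F x k hk
    exact pullFun_notMem {z : G × K | z.2 ∈ Set.range e} ι F (x, k) hk
  let ρ : ↥(Set.univ : Set (G × K1)) → G × K := fun x => (x.1.1, e x.1.2)
  have hρ : Function.Injective ρ := by
    rintro ⟨⟨x, k1⟩, _⟩ ⟨⟨x', k2⟩, _⟩ hh
    obtain ⟨e1, e2⟩ := Prod.mk.inj hh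
    simp only at e1 e2
    rw [Subtype.mk.injEq, e1, he e2]
  have hrp : ∀ (F : EE G K) (x : G) (i : K1), pull _ ρ hρ F (x, i) = F (x, e i) := by
    intro F x i
    rw [pull_apply, pullFun_mem _ _ _ _ (Set.mem_univ _)]
  apply le_antisymm
  · refine one_sub_le' _ _ hQ _ _ (pull _ ρ hρ) ?_ ?_ ?_
    · intro F F'
      rw [pull_sub]
      exact norm_pull_le _ _ _ _
    · ext ⟨x, i'⟩
      rw [hrp]
      by_cases h : (x, i') = ((1 : G), i)
      · obtain ⟨rfl, rfl⟩ := Prod.mk.inj h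
        rw [dl_apply_self, dl_apply_self]
      · rw [dl_apply_ne _ _ h, dl_apply_ne]
        intro e1
        obtain ⟨e2, e3⟩ := Prod.mk.inj e1
        apply h
        rw [e2, he e3]
    · intro F hF
      exact h2 F hF _ (hrp F)
  · refine one_sub_le' _ _ hP _ _ (pull _ ι hι) ?_ ?_ ?_
    · intro F F'
      rw [pull_sub]
      exact norm_pull_le _ _ _ _
    · ext ⟨x, k⟩
      by_cases hk : k ∈ Set.range e
      · obtain ⟨i', rfl⟩ := hk
        rw [hap]
        by_cases h : (x, i') = ((1 : G), i)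
        · obtain ⟨rfl, rfl⟩ := Prod.mk.inj h
          rw [dl_apply_self, dl_apply_self]
        · rw [dl_apply_ne _ _ h, dl_apply_ne]
          intro e1
          obtain ⟨e2, e3⟩ := Prod.mk.inj e1
          apply h
          rw [e2, he e3]
      · rw [hap0 _ _ _ hk, dl_apply_ne]
        intro e1
        obtain ⟨e2, e3⟩ := Prod.mk.inj e1
        exact hk ⟨i, e3.symm⟩
    · intro F hF
      exact h1 _ F hF (hap F) (hap0 F)

end

section
variable {G : Type u} [Group G] {K1 K2 : Type v} {L1 L2 : Type w} [Fintype K1] [Fintype K2]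
  [Fintype L1] [Fintype L2] [DecidableEq K1] [DecidableEq K2] [DecidableEq L1] [DecidableEq L2]

/-- the direct sum -/
noncomputable def dsum (A : K1 → L1 → (G →₀ ℂ)) (B : K2 → L2 → (G →₀ ℂ)) :
    K1 ⊕ K2 → L1 ⊕ L2 → (G →₀ ℂ) :=
  Sum.elim (fun i => Sum.elim (A i) (fun _ => 0)) (fun i => Sum.elim (fun _ => 0) (B i))

theorem kerDimM_dsum (A : K1 → L1 → (G →₀ ℂ)) (B : K2 → L2 → (G →₀ ℂ)) :
    kerDimM (dsum A B) = kerDimM A + kerDimM B := by
  classical
  obtain ⟨S1, hS1, hSk1, hSa1⟩ := exists_op A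
  obtain ⟨S2, hS2, hSk2, hSa2⟩ := exists_op B
  obtain ⟨S, hS, hSk, hSa⟩ := exists_op (dsum A B)
  have hl : ∀ (F : EE G (K1 ⊕ K2)) (F1 : EE G K1), (∀ x i, F (x, Sum.inl i) = F1 (x, i)) →
      ∀ x j, S F (x, Sum.inl j) = S1 F1 (x, j) := by
    intro F F1 hF x j
    rw [hSa, hSa1, Fintype.sum_sum_type]
    have h1 : ∑ k : K2, ∑ t ∈ (dsum A B (Sum.inr k) (Sum.inl j)).support,
        dsum A B (Sum.inr k) (Sum.inl j) t * F (t * x, Sum.inr k) = 0 := by
      apply Finset.sum_eq_zero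
      intro k _
      change ∑ t ∈ (0 : G →₀ ℂ).support, _ = (0 : ℂ)
      rw [Finsupp.support_zero, Finset.sum_empty]
    rw [h1, add_zero]
    refine Finset.sum_congr rfl fun k _ => ?_
    change ∑ t ∈ (A k j).support, A k j t * F (t * x, Sum.inl k) = _
    refine Finset.sum_congr rfl fun t _ => ?_
    rw [hF]
  have hr : ∀ (F : EE G (K1 ⊕ K2)) (F1 : EE G K2), (∀ x i, F (x, Sum.inr i) = F1 (x, i)) →
      ∀ x j, S F (x, Sum.inr j) = S2 F1 (x, j) := by
    intro F F1 hF x j
    rw [hSa, hSa2, Fintype.sum_sum_type]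
    have h1 : ∑ k : K1, ∑ t ∈ (dsum A B (Sum.inl k) (Sum.inr j)).support,
        dsum A B (Sum.inl k) (Sum.inr j) t * F (t * x, Sum.inl k) = 0 := by
      apply Finset.sum_eq_zero
      intro k _
      change ∑ t ∈ (0 : G →₀ ℂ).support, _ = (0 : ℂ)
      rw [Finsupp.support_zero, Finset.sum_empty]
    rw [h1, zero_add]
    refine Finset.sum_congr rfl fun k _ => ?_
    change ∑ t ∈ (B k j).support, B k j t * F (t * x, Sum.inr k) = _
    refine Finset.sum_congr rfl fun t _ => ?_
    rw [hF]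
  rw [hSk, hSk1, hSk2, vd_eq_infDist _ (ContinuousLinearMap.isClosed_ker S),
    vd_eq_infDist _ (ContinuousLinearMap.isClosed_ker S1),
    vd_eq_infDist _ (ContinuousLinearMap.isClosed_ker S2), Fintype.sum_sum_type]
  congr 1
  · refine Finset.sum_congr rfl fun i _ => ?_
    refine infDist_coord Sum.inl Sum.inl_injective _ _ ⟨0, Submodule.zero_mem _⟩
      ⟨0, Submodule.zero_mem _⟩ ?_ ?_ i
    · intro F F1 hF1 h1 h2
      have hF1' : S1 F1 = 0 := hF1
      change S F = 0
      ext ⟨x, j⟩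
      rcases j with j | j
      · rw [hl F F1 h1, hF1']
        rfl
      · rw [hr F 0 (fun x i => h2 x _ (by rintro ⟨k, hk⟩; exact Sum.inl_ne_inr hk)), map_zero]
        rfl
    · intro F hF F1 h1
      have hF' : S F = 0 := hF
      change S1 F1 = 0
      ext ⟨x, j⟩
      rw [← hl F F1 (fun x i => (h1 x i).symm), hF']
      rfl
  · refine Finset.sum_congr rfl fun i _ => ?_
    refine infDist_coord Sum.inr Sum.inr_injective _ _ ⟨0, Submodule.zero_mem _⟩
      ⟨0, Submodule.zero_mem _⟩ ?_ ?_ i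
    · intro F F1 hF1 h1 h2
      have hF1' : S2 F1 = 0 := hF1
      change S F = 0
      ext ⟨x, j⟩
      rcases j with j | j
      · rw [hl F 0 (fun x i => h2 x _ (by rintro ⟨k, hk⟩; exact Sum.inr_ne_inl hk)), map_zero]
        rfl
      · rw [hr F F1 h1, hF1']
        rfl
    · intro F hF F1 h1
      have hF' : S F = 0 := hF
      change S2 F1 = 0
      ext ⟨x, j⟩
      rw [← hr F F1 (fun x i => (h1 x i).symm), hF']
      rfl

end

/-! ### closed sets of real numbers -/

/-- closed submonoids of the nonnegative reals containing one and closed under subtraction of one -/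
theorem closed_monoid (M : Set ℝ) (hM0 : ∀ x ∈ M, 0 ≤ x) (hMc : IsClosed M) (h0 : (0 : ℝ) ∈ M)
    (h1 : (1 : ℝ) ∈ M) (hadd : ∀ x ∈ M, ∀ y ∈ M, x + y ∈ M) (hsub : ∀ x ∈ M, 1 ≤ x → x - 1 ∈ M) :
    (∃ N : ℕ, 0 < N ∧ M = {x : ℝ | ∃ k : ℕ, x = (k : ℝ) / N}) ∨ M = Set.Ici 0 := by
  have hmul : ∀ x ∈ M, ∀ n : ℕ, (n : ℝ) * x ∈ M := by
    intro x hx n
    induction n with
    | zero => rw [Nat.cast_zero, zero_mul]; exact h0
    | succ n ih =>
      have : ((n + 1 : ℕ) : ℝ) * x = n * x + x := by push_cast; ring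
      rw [this]
      exact hadd _ ih _ hx
  have hsubn : ∀ n : ℕ, ∀ x ∈ M, (n : ℝ) ≤ x → x - n ∈ M := by
    intro n
    induction n with
    | zero => intro x hx _; rw [Nat.cast_zero, sub_zero]; exact hx
    | succ n ih =>
      intro x hx hnx
      push_cast at hnx ⊢
      have h2 := ih x hx (by linarith)
      have h3 := hsub _ h2 (by linarith)
      have h4 : x - ((n : ℝ) + 1) = x - n - 1 := by ring
      rw [h4]
      exact h3
  by_cases hgap : ∃ δ : ℝ, 0 < δ ∧ ∀ x ∈ M, 0 < x → δ ≤ x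
  · left
    obtain ⟨δ0, hδ0, hδ0'⟩ := hgap
    -- the smallest positive element
    let P : Set ℝ := {x | x ∈ M ∧ δ0 ≤ x}
    have hPne : P.Nonempty := ⟨1, h1, hδ0' 1 h1 one_pos⟩
    have hPc : IsClosed P := hMc.inter isClosed_Ici
    have hPb : BddBelow P := ⟨δ0, fun x hx => hx.2⟩
    set δ : ℝ := sInf P with hδ
    have hδM : δ ∈ P := hPc.csInf_mem hPne hPb
    have hδpos : 0 < δ := hδ0.trans_le hδM.2
    have hmin : ∀ x ∈ M, 0 < x → δ ≤ x := fun x hx hx0 => csInf_le hPb ⟨hx, hδ0' x hx hx0⟩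
    have hres : ∀ x ∈ M, x < δ → x = 0 := by
      intro x hx hlt
      by_contra hne
      exact absurd (hmin x hx (lt_of_le_of_ne (hM0 x hx) (Ne.symm hne))) (not_le.2 hlt)
    -- it divides one
    obtain ⟨q, hq1, hq2⟩ : ∃ q : ℕ, (q : ℝ) * δ ≤ 1 ∧ 1 < (q + 1 : ℝ) * δ := by
      refine ⟨⌊1 / δ⌋₊, ?_, ?_⟩
      · have := Nat.floor_le (show (0 : ℝ) ≤ 1 / δ by positivity)
        rwa [le_div_iff₀ hδpos] at this
      · have := Nat.lt_floor_add_one (1 / δ)
        rwa [div_lt_iff₀ hδpos] at this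
    have hq3 : (q : ℝ) * δ = 1 := by
      have h2 : ((q + 1 : ℕ) : ℝ) * δ ∈ M := hmul δ hδM.1 (q + 1)
      push_cast at h2
      have h3 := hsub _ h2 hq2.le
      have h4 : 0 < (q + 1 : ℝ) * δ - 1 := by linarith
      have h5 := hmin _ h3 h4
      linarith
    have hqpos : 0 < q := by
      rcases Nat.eq_zero_or_pos q with h | h
      · rw [h, Nat.cast_zero, zero_mul] at hq3
        exact absurd hq3 zero_ne_one
      · exact h
    have hqr : (0 : ℝ) < q := by exact_mod_cast hqpos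
    have hδq : δ = 1 / q := by
      rw [eq_div_iff hqr.ne', mul_comm]
      exact hq3
    refine ⟨q, hqpos, ?_⟩
    ext x
    constructor
    · intro hx
      -- write x = k δ + ρ
      let k : ℕ := ⌊x / δ⌋₊
      have hk1 : (k : ℝ) * δ ≤ x := by
        have := Nat.floor_le (show (0 : ℝ) ≤ x / δ by exact div_nonneg (hM0 x hx) hδpos.le)
        rwa [le_div_iff₀ hδpos] at this
      have hk2 : x < (k + 1 : ℝ) * δ := by
        have := Nat.lt_floor_add_one (x / δ)
        rwa [div_lt_iff₀ hδpos] at this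
      -- add a multiple of δ to reach an integer
      obtain ⟨j, m, hjm⟩ : ∃ j m : ℕ, k + j = m * q := by
        refine ⟨k * (q - 1), k, ?_⟩
        obtain ⟨q', rfl⟩ : ∃ q', q = q' + 1 := ⟨q - 1, by omega⟩
        rw [Nat.add_sub_cancel]
        ring
      have h2 : x + j * δ ∈ M := hadd _ hx _ (hmul δ hδM.1 j)
      have h3 : ((k : ℝ) + j) * δ = m := by
        have h4 : ((k : ℝ) + j) = m * q := by exact_mod_cast hjm
        rw [h4, mul_assoc, hq3, mul_one]
      have h5 := hsubn m _ h2 (by nlinarith)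
      have h6 := hres _ h5 (by nlinarith)
      refine ⟨k, ?_⟩
      have h7 : x = k * δ := by nlinarith
      rw [h7, hδq]
      ring
    · rintro ⟨k, rfl⟩
      have h2 := hmul δ hδM.1 k
      rw [hδq] at h2
      have h3 : (k : ℝ) / q = k * (1 / q) := by ring
      rw [h3]
      exact h2
  · right
    push Not at hgap
    ext x
    constructor
    · intro hx
      exact hM0 x hx
    · intro hx
      have hx0 : 0 ≤ x := hx
      have hcl : x ∈ closure M := by
        rw [Metric.mem_closure_iff]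
        intro ε hε
        obtain ⟨d, hdM, hd0, hdε⟩ := hgap ε hε
        let k : ℕ := ⌊x / d⌋₊
        have hk1 : (k : ℝ) * d ≤ x := by
          have := Nat.floor_le (show (0 : ℝ) ≤ x / d by positivity)
          rwa [le_div_iff₀ hd0] at this
        have hk2 : x < (k + 1 : ℝ) * d := by
          have := Nat.lt_floor_add_one (x / d)
          rwa [div_lt_iff₀ hd0] at this
        refine ⟨k * d, hmul d hdM k, ?_⟩
        rw [Real.dist_eq, abs_of_nonneg (by linarith)]
        linarith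
      rwa [hMc.closure_eq] at hcl

end Pool.Agent.X190.PN
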