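import Pool.Agent.X190.PN.Dich

set_option autoImplicit false
set_option linter.unusedSectionVars false

open scoped InnerProductSpace InnerProduct ENNReal Topology Pointwise
open Filter

/-! Kernel dimensions over products of groups. -/

namespace Pool.Agent.X190.PN

open Pool.Agent.W649.ZL Pool.Agent.X190.TW Pool.Agent.X190.AT

universe u v w z y

section
variable {G : Type u} {H : Type z} [Group G] [Group H] {K L K' L' : Type v} [Fintype K] [Fintype L]
  [Fintype K'] [Fintype L'] [DecidableEq K] [DecidableEq L] [DecidableEq K'] [DecidableEq L']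

/-- slices in the first variable -/
noncomputable def sl1 (h : H) (k' : K') (F : EE (G × H) (K × K')) : EE G K :=
  pull (Set.univ : Set (G × K)) (fun x => ((x.1.1, h), (x.1.2, k'))) (by
    rintro ⟨⟨x, k1⟩, _⟩ ⟨⟨x', k2⟩, _⟩ hh
    obtain ⟨e1, e2⟩ := Prod.mk.inj hh
    obtain ⟨e3, _⟩ := Prod.mk.inj e1
    obtain ⟨e4, _⟩ := Prod.mk.inj e2
    simp only at e3 e4
    rw [Subtype.mk.injEq, e3, e4]) F

theorem sl1_apply (h : H) (k' : K') (F : EE (G × H) (K × K')) (x : G) (k : K) :
    sl1 h k' F (x, k) = F ((x, h), (k, k')) := by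
  unfold sl1
  rw [pull_apply, pullFun_mem _ _ _ _ (Set.mem_univ _)]

/-- slices in the second variable -/
noncomputable def sl2 (g : G) (k : K) (F : EE (G × H) (K × K')) : EE H K' :=
  pull (Set.univ : Set (H × K')) (fun x => ((g, x.1.1), (k, x.1.2))) (by
    rintro ⟨⟨x, k1⟩, _⟩ ⟨⟨x', k2⟩, _⟩ hh
    obtain ⟨e1, e2⟩ := Prod.mk.inj hh
    obtain ⟨_, e3⟩ := Prod.mk.inj e1
    obtain ⟨_, e4⟩ := Prod.mk.inj e2
    simp only at e3 e4
    rw [Subtype.mk.injEq, e3, e4]) F

theorem sl2_apply (g : G) (k : K) (F : EE (G × H) (K × K')) (y : H) (k' : K') :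
    sl2 g k F (y, k') = F ((g, y), (k, k')) := by
  unfold sl2
  rw [pull_apply, pullFun_mem _ _ _ _ (Set.mem_univ _)]

/-- the rearrangement of the index sets -/
def rar : (G × H) × (K × K') ≃ (G × K) × (H × K') where
  toFun x := ((x.1.1, x.2.1), (x.1.2, x.2.2))
  invFun x := ((x.1.1, x.2.1), (x.1.2, x.2.2))
  left_inv _ := rfl
  right_inv _ := rfl

/-- the product of two functions -/
noncomputable def tn (p : EE G K) (q : EE H K') : EE (G × H) (K × K') :=
  ⟨fun x => p (x.1.1, x.2.1) * q (x.1.2, x.2.2), by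
    apply (memlp_two_iff _).2
    have h1 := (memlp_two_iff _).1 p.2
    have h2 := (memlp_two_iff _).1 q.2
    have h3 := h1.mul_of_nonneg h2 (fun _ => by positivity) (fun _ => by positivity)
    have h4 := (Equiv.summable_iff (rar (G := G) (H := H) (K := K) (K' := K'))).2 h3
    refine h4.congr fun x => ?_
    rw [norm_mul, mul_pow]
    rfl⟩

theorem tn_apply (p : EE G K) (q : EE H K') (x : G) (y : H) (k : K) (k' : K') :
    tn p q ((x, y), (k, k')) = p (x, k) * q (y, k') := rfl

theorem inner_tn (p : EE G K) (q : EE H K') (F : EE (G × H) (K × K')) :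
    ⟪tn p q, F⟫_ℂ = ∑' z : H × K', (starRingEnd ℂ) (q z) * ⟪p, sl1 z.1 z.2 F⟫_ℂ := by
  have h1 : HasSum (fun x => ⟪tn p q x, F x⟫_ℂ) ⟪tn p q, F⟫_ℂ := lp.hasSum_inner (𝕜 := ℂ) (tn p q) F
  have h2 : HasSum (fun x : (H × K') × (G × K) =>
      ⟪tn p q ((x.2.1, x.1.1), (x.2.2, x.1.2)), F ((x.2.1, x.1.1), (x.2.2, x.1.2))⟫_ℂ)
      ⟪tn p q, F⟫_ℂ := by
    let e : (H × K') × (G × K) ≃ (G × H) × (K × K') :=
      (Equiv.prodComm _ _).trans (rar (G := G) (H := H) (K := K) (K' := K')).symm
    exact (Equiv.hasSum_iff e).2 h1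
  have h3 : ∀ z : H × K', HasSum (fun x : G × K =>
      ⟪tn p q ((x.1, z.1), (x.2, z.2)), F ((x.1, z.1), (x.2, z.2))⟫_ℂ)
      ((starRingEnd ℂ) (q z) * ⟪p, sl1 z.1 z.2 F⟫_ℂ) := by
    intro z
    have h4 : HasSum (fun x => ⟪p x, sl1 z.1 z.2 F x⟫_ℂ) ⟪p, sl1 z.1 z.2 F⟫_ℂ :=
      lp.hasSum_inner (𝕜 := ℂ) p (sl1 z.1 z.2 F)
    have h5 := h4.mul_left ((starRingEnd ℂ) (q z))
    refine h5.congr_fun ?_
    intro x
    rcases x with ⟨x, k⟩
    rcases z with ⟨y, k'⟩
    simp only
    rw [tn_apply, sl1_apply, RCLike.inner_apply, RCLike.inner_apply, map_mul]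
    ring
  exact (h2.prod_fiberwise h3).tsum_eq.symm

/-- the matrix over the product -/
noncomputable def tmat (A : K → L → (G →₀ ℂ)) (B : K' → L' → (H →₀ ℂ)) :
    K × K' → (L × K') ⊕ (K × L') → (G × H →₀ ℂ) :=
  fun i => Sum.elim
    (fun j => if i.2 = j.2 then (A i.1 j.1).mapDomain (fun g => (g, (1 : H))) else 0)
    (fun j => if i.1 = j.1 then (B i.2 j.2).mapDomain (fun h => ((1 : G), h)) else 0)

theorem tmat_inl [DecidableEq H] (A : K → L → (G →₀ ℂ)) (B : K' → L' → (H →₀ ℂ)) (k : K) (k' : K') (l : L) (j' : K')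
    (g : G) (h : H) : tmat A B (k, k') (Sum.inl (l, j')) (g, h)
      = if k' = j' then (if h = 1 then A k l g else 0) else 0 := by
  change (if k' = j' then (A k l).mapDomain (fun g => (g, (1 : H))) else 0) (g, h) = _
  split_ifs with h1 h2
  · rw [h2]
    exact Finsupp.mapDomain_apply (f := fun g : G => (g, (1 : H)))
      (fun a b hab => (Prod.mk.inj hab).1) _ _
  · apply Finsupp.mapDomain_of_notMem_range
    rintro ⟨g', hg'⟩
    exact h2 (Prod.mk.inj hg').2.symm
  · rfl

theorem tmat_inr [DecidableEq G] (A : K → L → (G →₀ ℂ)) (B : K' → L' → (H →₀ ℂ)) (k : K) (k' : K') (j : K) (l' : L')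
    (g : G) (h : H) : tmat A B (k, k') (Sum.inr (j, l')) (g, h)
      = if k = j then (if g = 1 then B k' l' h else 0) else 0 := by
  change (if k = j then (B k' l').mapDomain (fun h => ((1 : G), h)) else 0) (g, h) = _
  split_ifs with h1 h2
  · rw [h2]
    exact Finsupp.mapDomain_apply (f := fun h : H => ((1 : G), h))
      (fun a b hab => (Prod.mk.inj hab).2) _ _
  · apply Finsupp.mapDomain_of_notMem_range
    rintro ⟨g', hg'⟩
    exact h2 (Prod.mk.inj hg').1.symm
  · rfl

/-- the kernel dimension of the intersection of two kernels over a product is the product -/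
theorem kerDimM_tmat (A : K → L → (G →₀ ℂ)) (B : K' → L' → (H →₀ ℂ)) :
    kerDimM (tmat A B) = kerDimM A * kerDimM B := by
  classical
  obtain ⟨T1, hT1⟩ := exists_supp A
  obtain ⟨T2, hT2⟩ := exists_supp B
  have hT1' : ∀ i j, (A i j).support ⊆ insert 1 T1 := fun i j => (hT1 i j).trans (Finset.subset_insert _ _)
  have hT2' : ∀ i j, (B i j).support ⊆ insert 1 T2 := fun i j => (hT2 i j).trans (Finset.subset_insert _ _)
  obtain ⟨S1, hS1, hSk1, hSa1⟩ := exists_opT A (insert 1 T1) hT1'
  obtain ⟨S2, hS2, hSk2, hSa2⟩ := exists_opT B (insert 1 T2) hT2'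
  have hT : ∀ i j, (tmat A B i j).support ⊆ (insert 1 T1) ×ˢ (insert 1 T2) := by
    rintro ⟨k, k'⟩ j ⟨g, h⟩ hgh
    rw [Finsupp.mem_support_iff] at hgh
    rw [Finset.mem_product]
    rcases j with ⟨l, j'⟩ | ⟨j, l'⟩
    · rw [tmat_inl] at hgh
      split_ifs at hgh with h1 h2
      · refine ⟨hT1' k l (Finsupp.mem_support_iff.2 hgh), ?_⟩
        simp only
        rw [h2]
        exact Finset.mem_insert_self _ _
      · exact absurd rfl hgh
      · exact absurd rfl hgh
    · rw [tmat_inr] at hgh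
      split_ifs at hgh with h1 h2
      · refine ⟨?_, hT2' k' l' (Finsupp.mem_support_iff.2 hgh)⟩
        simp only
        rw [h2]
        exact Finset.mem_insert_self _ _
      · exact absurd rfl hgh
      · exact absurd rfl hgh
  obtain ⟨S, hS, hSk, hSa⟩ := exists_opT (tmat A B) _ hT
  have hl : ∀ (F : EE (G × H) (K × K')) (g : G) (h : H) (l : L) (j' : K'),
      S F ((g, h), Sum.inl (l, j')) = S1 (sl1 h j' F) (g, l) := by
    intro F g h l j'
    rw [hSa, hSa1, Fintype.sum_prod_type]
    refine Finset.sum_congr rfl fun k _ => ?_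
    rw [Finset.sum_eq_single j']
    · rw [Finset.sum_product]
      refine Finset.sum_congr rfl fun t _ => ?_
      rw [Finset.sum_eq_single (1 : H)]
      · rw [tmat_inl, if_pos rfl, if_pos rfl, sl1_apply]
        change _ * F ((t * g, 1 * h), (k, j')) = _
        rw [one_mul]
      · intro s _ hs
        rw [tmat_inl, if_pos rfl, if_neg hs, zero_mul]
      · intro hn
        exact absurd (Finset.mem_insert_self _ _) hn
    · intro k' _ hk'
      apply Finset.sum_eq_zero
      rintro ⟨t, s⟩ _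
      rw [tmat_inl, if_neg hk', zero_mul]
    · intro hn
      exact absurd (Finset.mem_univ _) hn
  have hr : ∀ (F : EE (G × H) (K × K')) (g : G) (h : H) (j : K) (l' : L'),
      S F ((g, h), Sum.inr (j, l')) = S2 (sl2 g j F) (h, l') := by
    intro F g h j l'
    rw [hSa, hSa2, Fintype.sum_prod_type, Finset.sum_eq_single j]
    · refine Finset.sum_congr rfl fun k' _ => ?_
      rw [Finset.sum_product_right]
      refine Finset.sum_congr rfl fun s _ => ?_
      rw [Finset.sum_eq_single (1 : G)]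
      · rw [tmat_inr, if_pos rfl, if_pos rfl, sl2_apply]
        change _ * F ((1 * g, s * h), (j, k')) = _
        rw [one_mul]
      · intro t _ ht
        rw [tmat_inr, if_pos rfl, if_neg ht, zero_mul]
      · intro hn
        exact absurd (Finset.mem_insert_self _ _) hn
    · intro k _ hk
      apply Finset.sum_eq_zero
      intro k' _
      apply Finset.sum_eq_zero
      rintro ⟨t, s⟩ _
      rw [tmat_inr, if_neg hk, zero_mul]
    · intro hn
      exact absurd (Finset.mem_univ _) hn
  let P : Submodule ℂ (EE G K) := LinearMap.ker (S1 : EE G K →ₗ[ℂ] EE G L)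
  let Q : Submodule ℂ (EE H K') := LinearMap.ker (S2 : EE H K' →ₗ[ℂ] EE H L')
  let W : Submodule ℂ (EE (G × H) (K × K')) :=
    LinearMap.ker (S : EE (G × H) (K × K') →ₗ[ℂ] EE (G × H) ((L × K') ⊕ (K × L')))
  have cP := ContinuousLinearMap.isClosed_ker S1
  have cQ := ContinuousLinearMap.isClosed_ker S2
  have cW := ContinuousLinearMap.isClosed_ker S
  have i1 : CompleteSpace P := cP.completeSpace_coe
  have i2 : CompleteSpace Q := cQ.completeSpace_coe
  have i3 : CompleteSpace W := cW.completeSpace_coe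
  have hW : ∀ F, F ∈ W ↔ (∀ h k', sl1 h k' F ∈ P) ∧ (∀ g k, sl2 g k F ∈ Q) := by
    intro F
    constructor
    · intro hF
      have hF0 : S F = 0 := hF
      constructor
      · intro h k'
        change S1 (sl1 h k' F) = 0
        ext ⟨g, l⟩
        rw [← hl, hF0]
        rfl
      · intro g k
        change S2 (sl2 g k F) = 0
        ext ⟨h, l'⟩
        rw [← hr, hF0]
        rfl
    · rintro ⟨h1, h2⟩
      change S F = 0
      ext ⟨⟨g, h⟩, j⟩
      rcases j with ⟨l, j'⟩ | ⟨j, l'⟩
      · have h3 : S1 (sl1 h j' F) = 0 := h1 h j'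
        rw [hl, h3]
        rfl
      · have h3 : S2 (sl2 g j F) = 0 := h2 g j
        rw [hr, h3]
        rfl
  have hip : ∀ (k : K), ∀ v ∈ P, ⟪P.starProjection (dl ((1 : G), k)), v⟫_ℂ = v (1, k) := by
    intro k v hv
    rw [Submodule.inner_starProjection_left_eq_right, Submodule.starProjection_eq_self_iff.2 hv,
      inner_dl_left]
  have hiq : ∀ (k : K'), ∀ v ∈ Q, ⟪Q.starProjection (dl ((1 : H), k)), v⟫_ℂ = v (1, k) := by
    intro k v hv
    rw [Submodule.inner_starProjection_left_eq_right, Submodule.starProjection_eq_self_iff.2 hv,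
      inner_dl_left]
  have hproj : ∀ (k : K) (k' : K'), W.starProjection (dl (((1 : G), (1 : H)), (k, k')))
      = tn (P.starProjection (dl ((1 : G), k))) (Q.starProjection (dl ((1 : H), k'))) := by
    intro k k'
    set p := P.starProjection (dl ((1 : G), k)) with hp
    set q := Q.starProjection (dl ((1 : H), k')) with hq
    have hpP : p ∈ P := Submodule.starProjection_apply_mem _ _
    have hqQ : q ∈ Q := Submodule.starProjection_apply_mem _ _
    have hmem : tn p q ∈ W := by
      rw [hW]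
      constructor
      · intro h j'
        have h1 : sl1 h j' (tn p q) = q (h, j') • p := by
          ext ⟨x, i⟩
          rw [sl1_apply, tn_apply]
          change _ = q (h, j') * p (x, i)
          ring
        rw [h1]
        exact P.smul_mem _ hpP
      · intro g j
        have h1 : sl2 g j (tn p q) = p (g, j) • q := by
          ext ⟨x, i⟩
          rw [sl2_apply, tn_apply]
          rfl
        rw [h1]
        exact Q.smul_mem _ hqQ
    apply Submodule.eq_starProjection_of_mem_of_inner_eq_zero hmem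
    intro w hw
    obtain ⟨h1, h2⟩ := (hW w).1 hw
    rw [inner_sub_left, inner_dl_left, inner_tn]
    have h3 : ∀ z : H × K', (starRingEnd ℂ) (q z) * ⟪p, sl1 z.1 z.2 w⟫_ℂ
        = ⟪q z, sl2 1 k w z⟫_ℂ := by
      rintro ⟨y, i'⟩
      rw [hip k _ (h1 y i'), sl1_apply, sl2_apply, RCLike.inner_apply, mul_comm]
    rw [tsum_congr h3, ← lp.inner_eq_tsum, hiq k' _ (h2 1 k), sl2_apply]
    change w (((1 : G), (1 : H)), (k, k')) - w ((1, 1), (k, k')) = 0
    exact sub_self _
  have hnorm : ∀ (k : K) (k' : K'), ‖W.starProjection (dl (((1 : G), (1 : H)), (k, k')))‖ ^ 2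
      = ‖P.starProjection (dl ((1 : G), k))‖ ^ 2 * ‖Q.starProjection (dl ((1 : H), k'))‖ ^ 2 := by
    intro k k'
    have h1 := star_dl W (((1 : G), (1 : H)), (k, k'))
    have h2 := star_dl P ((1 : G), k)
    have h3 := star_dl Q ((1 : H), k')
    rw [hproj, tn_apply, h2, h3] at h1
    rw [hproj]
    have h4 : (((‖P.starProjection (dl ((1 : G), k))‖ ^ 2
        * ‖Q.starProjection (dl ((1 : H), k'))‖ ^ 2 : ℝ)) : ℂ)
        = ((‖tn (P.starProjection (dl ((1 : G), k))) (Q.starProjection (dl ((1 : H), k')))‖ ^ 2 : ℝ) : ℂ) := by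
      rw [Complex.ofReal_mul]
      exact h1
    exact (Complex.ofReal_injective h4).symm
  rw [hSk, hSk1, hSk2]
  change vd W = vd P * vd Q
  rw [vd_eq _ _ (topcl_eq cW), vd_eq _ _ (topcl_eq cP), vd_eq _ _ (topcl_eq cQ),
    Fintype.sum_prod_type, Finset.sum_mul_sum]
  refine Finset.sum_congr rfl fun k _ => Finset.sum_congr rfl fun k' _ => ?_
  exact hnorm k k'

end

end Pool.Agent.X190.PN
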