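import Pool.Agent.X190.PN.Lcm

set_option autoImplicit false
set_option linter.unusedSectionVars false

/-! A torsion-free group whose kernel dimensions are those of all torsion-free groups. -/

namespace Pool.Agent.X190.PN

open Pool.Agent.W649.ZL Pool.Agent.X190.TW Pool.Agent.X190.AT

universe u v w z y

/-- no elements of finite order -/
def TF (G : Type u) [Group G] : Prop := ∀ (g : G) (n : ℕ), 0 < n → g ^ n = 1 → g = 1

/-- the torsion-free quotients of the free group -/
def Idx : Type := {c : Con (FreeGroup ℕ) // TF c.Quotient}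

/-- their product -/
abbrev U0 : Type := (i : Idx) → i.1.Quotient

theorem U0_tf : TF U0 := by
  intro g n hn hg
  funext i
  exact i.2 (g i) n hn (congrFun hg i)

/-- the universal group -/
abbrev UU : Type := Ov U0

theorem UU_tf : TF UU := ov_torsionFree U0 U0_tf

theorem UU_icc : ICC UU := ov_icc U0

/-- countable pieces embed -/
theorem exists_embed {G : Type u} [Group G] (hG : TF G) (t : ℕ → G) :
    ∃ (Q : Type) (_ : Group Q) (j : Q →* G) (j' : Q →* UU), Function.Injective j ∧
      Function.Injective j' ∧ (∀ n, t n ∈ Set.range j) ∧ Countable Q := by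
  classical
  let f : FreeGroup ℕ →* G := FreeGroup.lift t
  have hinj : Function.Injective (Con.kerLift f) := Con.kerLift_injective f
  have htf : TF (Con.ker f).Quotient := by
    intro x n hn hx
    apply hinj
    rw [map_one]
    apply hG _ n hn
    rw [← map_pow, hx, map_one]
  let i : Idx := ⟨Con.ker f, htf⟩
  refine ⟨(Con.ker f).Quotient, inferInstance, Con.kerLift f,
    (ovIn U0).comp (MonoidHom.mulSingle (fun i : Idx => i.1.Quotient) i), hinj, ?_, ?_, ?_⟩
  · intro x y hxy
    have h1 : MonoidHom.mulSingle (fun i : Idx => i.1.Quotient) i x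
        = MonoidHom.mulSingle (fun i : Idx => i.1.Quotient) i y := ovIn_inj U0 hxy
    have h2 := congrFun h1 i
    rw [MonoidHom.mulSingle_apply, MonoidHom.mulSingle_apply, Pi.mulSingle_eq_same,
      Pi.mulSingle_eq_same] at h2
    exact h2
  · intro n
    refine ⟨((FreeGroup.of n : FreeGroup ℕ) : (Con.ker f).Quotient), ?_⟩
    rw [Con.kerLift_mk]
    exact FreeGroup.lift_apply_of
  · have h1 : Countable (FreeGroup ℕ) := (Quot.mk_surjective (α := List (ℕ × Bool))).countable
    exact (Con.mk'_surjective (c := Con.ker f)).countable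

theorem exists_seq {G : Type u} [Group G] (T : Finset G) : ∃ t : ℕ → G, ∀ g ∈ T, ∃ n, t n = g := by
  classical
  obtain ⟨t, ht⟩ := (insert 1 T : Finset G).countable_toSet.exists_eq_range
    ⟨1, Finset.mem_coe.2 (Finset.mem_insert_self _ _)⟩
  refine ⟨t, fun g hg => ?_⟩
  have h1 : g ∈ Set.range t := by
    rw [← ht]
    exact Finset.mem_coe.2 (Finset.mem_insert_of_mem hg)
  exact h1

section
variable (R : Subring ℂ)

theorem DD_sub_UU {G : Type u} [Group G] (hG : TF G) : DD R G ⊆ DD R UU := by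
  classical
  rintro r ⟨m, l, A, hA, rfl⟩
  obtain ⟨T, hT⟩ := exists_supp A
  obtain ⟨t, ht⟩ := exists_seq T
  obtain ⟨Q, _, j, j', hj, hj', hr, _⟩ := exists_embed hG t
  obtain ⟨C, hC, hCa⟩ := exists_comap j hj A (by
    intro i k γ hγ
    by_contra hne
    apply hγ
    obtain ⟨n, rfl⟩ := ht γ (hT i k (Finsupp.mem_support_iff.2 hne))
    exact hr n)
  obtain ⟨B, hB, hBR⟩ := exists_map j' hj' C
  refine ⟨m, l, B, hBR R (fun i k g => ?_), ?_⟩
  · rw [hCa]
    exact hA _ _ _
  · rw [hB, hC]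

theorem DD_UU_mul : ∀ r ∈ DD R UU, ∀ s ∈ DD R UU, r * s ∈ DD R UU := by
  intro r hr s hs
  apply DD_sub_UU R (G := UU × UU) ?_ (DD_mul R r hr s hs)
  intro x n hn hx
  apply Prod.ext
  · exact UU_tf x.1 n hn (congrArg Prod.fst hx)
  · exact UU_tf x.2 n hn (congrArg Prod.snd hx)

theorem zero_one : DD R UU = Set.range (fun n : ℕ => (n : ℝ)) ∨ closure (DD R UU) = Set.Ici 0 := by
  rcases dichotomy R UU_icc with ⟨N, hN, h⟩ | h
  · left
    have hNr : (0 : ℝ) < N := by exact_mod_cast hN
    have h1 : 1 / (N : ℝ) ∈ DD R UU := by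
      rw [h]
      exact ⟨1, by rw [Nat.cast_one]⟩
    have h2 := DD_UU_mul R _ h1 _ h1
    have hN1 : N = 1 := by
      rw [h] at h2
      obtain ⟨k, hk⟩ := h2
      have h3 : (1 : ℝ) = k * N := by
        field_simp at hk
        linarith
      have h4 : 1 = k * N := by exact_mod_cast h3
      exact Nat.eq_one_of_mul_eq_one_left h4.symm
    rw [h, hN1]
    ext x
    constructor
    · rintro ⟨k, rfl⟩
      exact ⟨k, by rw [Nat.cast_one, div_one]⟩
    · rintro ⟨k, rfl⟩
      exact ⟨k, by rw [Nat.cast_one, div_one]⟩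
  · exact Or.inr h

theorem dense_of_small {D : Set ℝ} (hD : ∀ r ∈ D, 0 ≤ r) (h0 : (0 : ℝ) ∈ D)
    (hadd : ∀ r ∈ D, ∀ s ∈ D, r + s ∈ D) (hs : ∀ ε : ℝ, 0 < ε → ∃ r ∈ D, 0 < r ∧ r < ε) :
    closure D = Set.Ici 0 := by
  apply Set.Subset.antisymm (closure_minimal hD isClosed_Ici)
  intro x hx
  have hx0 : 0 ≤ x := hx
  rw [Metric.mem_closure_iff]
  intro ε hε
  obtain ⟨d, hdD, hd0, hdε⟩ := hs ε hε
  have hmul : ∀ n : ℕ, (n : ℝ) * d ∈ D := by
    intro n
    induction n with
    | zero => rw [Nat.cast_zero, zero_mul]; exact h0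
    | succ n ih =>
      have : ((n + 1 : ℕ) : ℝ) * d = n * d + d := by push_cast; ring
      rw [this]
      exact hadd _ ih _ hdD
  let k : ℕ := ⌊x / d⌋₊
  have hk1 : (k : ℝ) * d ≤ x := by
    have := Nat.floor_le (show (0 : ℝ) ≤ x / d by positivity)
    rwa [le_div_iff₀ hd0] at this
  have hk2 : x < (k + 1 : ℝ) * d := by
    have := Nat.lt_floor_add_one (x / d)
    rwa [div_lt_iff₀ hd0] at this
  refine ⟨k * d, hmul k, ?_⟩
  rw [Real.dist_eq, abs_of_nonneg (by linarith)]
  linarith

/-- countable groups suffice -/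
theorem exists_countable {G : Type u} [Group G] (hG : TF G) (h : closure (DD R G) = Set.Ici 0) :
    ∃ (Q : Type) (_ : Group Q), Countable Q ∧ TF Q ∧ closure (DD R Q) = Set.Ici 0 := by
  classical
  have h1 : ∀ n : ℕ, ∃ r ∈ DD R G, 0 < r ∧ r < 1 / ((n : ℝ) + 1) :=
    fun n => exists_small h _ (by positivity)
  choose r hr hr0 hrn using h1
  choose m l A hA hrA using hr
  choose T hT using fun n => exists_supp (A n)
  obtain ⟨t, ht⟩ := ((Set.countable_iUnion fun n => (T n).countable_toSet).union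
    (Set.countable_singleton (1 : G))).exists_eq_range ⟨1, Or.inr rfl⟩
  have ht' : ∀ n, ∀ g ∈ T n, ∃ k, t k = g := by
    intro n g hg
    have h2 : g ∈ Set.range t := by
      rw [← ht]
      exact Or.inl (Set.mem_iUnion.2 ⟨n, hg⟩)
    exact h2
  obtain ⟨Q, _, j, j', hj, hj', hjr, hQ⟩ := exists_embed hG t
  refine ⟨Q, inferInstance, hQ, ?_, ?_⟩
  · intro x n hn hx
    apply hj
    rw [map_one]
    apply hG _ n hn
    rw [← map_pow, hx, map_one]
  · apply dense_of_small (DD_nonneg R) (zero_mem_DD R) (add_mem_DD R)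
    intro ε hε
    obtain ⟨n, hn⟩ := exists_nat_one_div_lt hε
    refine ⟨r n, ?_, hr0 n, (hrn n).trans hn⟩
    obtain ⟨C, hC, hCa⟩ := exists_comap j hj (A n) (by
      intro i k γ hγ
      by_contra hne
      apply hγ
      obtain ⟨q, rfl⟩ := ht' n γ (hT n i k (Finsupp.mem_support_iff.2 hne))
      exact hjr q)
    rw [hrA n, ← hC]
    exact ⟨m n, l n, C, fun i k g => by rw [hCa]; exact hA n _ _ _, rfl⟩

end

end Pool.Agent.X190.PN
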